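import Pool.Agent.H437.DP.Good

/-!
# Double planes: codes of vectors, evaluation with natural numbers
-/

set_option autoImplicit false

namespace Pool.Agent.H437.DP

open Surface

variable {X : Surface}

/-- the vector with the given code -/
def vec (c : ℕ) (i : Fin 7) : ZMod 2 :=
  if i.val = 0 then 0 else if c.testBit (i.val - 1) then 1 else 0

lemma vec_zero : vec 0 = 0 := by
  funext i
  simp [vec]

lemma vec_xor (a b : ℕ) : vec (a ^^^ b) = vec a + vec b := by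
  funext i
  simp only [vec, Nat.testBit_xor, Pi.add_apply]
  by_cases hi : i.val = 0
  · simp [hi]
  · rw [if_neg hi, if_neg hi, if_neg hi]
    rcases h1 : a.testBit (i.val - 1) <;> rcases h2 : b.testBit (i.val - 1) <;> simp
    decide

/-- the code of seven bits -/
def pack (b0 b1 b2 b3 b4 b5 b6 : ℕ) : ℕ :=
  (b0 + b1) % 2 + 2 * ((b0 + b2) % 2) + 4 * ((b0 + b3) % 2) + 8 * ((b0 + b4) % 2) +
    16 * ((b0 + b5) % 2) + 32 * ((b0 + b6) % 2)

/-- the bits are known, and the code belongs to the set `M` -/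
def fit (M b0 b1 b2 b3 b4 b5 b6 : ℕ) : Bool :=
  b0.blt 2 && b1.blt 2 && b2.blt 2 && b3.blt 2 && b4.blt 2 && b5.blt 2 && b6.blt 2 &&
    M.testBit (pack b0 b1 b2 b3 b4 b5 b6)

lemma pack_lt (b0 b1 b2 b3 b4 b5 b6 : ℕ) : pack b0 b1 b2 b3 b4 b5 b6 < 64 := by
  unfold pack
  omega

lemma vec_pack : ∀ (b : Fin 7 → Fin 2) (i : Fin 7),
    vec (pack (b 0).val (b 1).val (b 2).val (b 3).val (b 4).val (b 5).val (b 6).val) i =
      ((b 0).val : ZMod 2) + ((b i).val : ZMod 2) := by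
  decide +kernel

theorem fit_sound {M : ℕ} {b : Fin 7 → ℕ}
    (h : fit M (b 0) (b 1) (b 2) (b 3) (b 4) (b 5) (b 6) = true) :
    (∀ i, b i < 2) ∧ ∃ c, c < 64 ∧ M.testBit c = true ∧
      ∀ E : Finset (Fin 7), Even E.card → ∑ i ∈ E, (b i : ZMod 2) = ∑ i ∈ E, vec c i := by
  simp only [fit, Bool.and_eq_true, Nat.blt_eq] at h
  obtain ⟨⟨⟨⟨⟨⟨⟨h0, h1⟩, h2⟩, h3⟩, h4⟩, h5⟩, h6⟩, h7⟩ := h
  have hb : ∀ i, b i < 2 := by
    intro i
    fin_cases i
    · exact h0
    · exact h1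
    · exact h2
    · exact h3
    · exact h4
    · exact h5
    · exact h6
  refine ⟨hb, _, pack_lt _ _ _ _ _ _ _, h7, ?_⟩
  intro E hE
  have h8 := vec_pack fun i => ⟨b i, hb i⟩
  simp only at h8
  rw [Finset.sum_congr rfl fun i _ => h8 i, Finset.sum_add_distrib, Finset.sum_const]
  obtain ⟨j, hj⟩ := hE
  rw [hj, add_smul, CharTwo.add_self_eq_zero, zero_add]

/-- parameters for the evaluation with natural numbers; `g` stands for `- 1` -/
structure Par where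
  /-- `- 1` -/
  g : ℕ
  /-- `a` -/
  a : ℕ
  /-- `b` -/
  b : ℕ
  /-- `m` -/
  m : ℕ
  /-- `n` -/
  n : ℕ

namespace Par

/-- the parameters belong to the surface -/
structure Ok (π : Par) (X : Surface) (q : ℕ) : Prop where
  g : ((π.g : ℤ) : ZMod q) = ((-1 : ℤ) : ZMod q)
  a : ((π.a : ℤ) : ZMod q) = ((X.a : ℤ) : ZMod q)
  b : ((π.b : ℤ) : ZMod q) = ((X.b : ℤ) : ZMod q)
  m : ((π.m : ℤ) : ZMod q) = ((X.m : ℤ) : ZMod q)
  n : ((π.n : ℤ) : ZMod q) = ((X.n : ℤ) : ZMod q)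

/-- the quartic form -/
def form (π : Par) (x y z : ℕ) : ℕ :=
  π.a * (x ^ 4 + y ^ 4 + z ^ 4) + π.b * (x ^ 2 * y ^ 2 + y ^ 2 * z ^ 2 + z ^ 2 * x ^ 2)

/-- the cubic form -/
def cubicOne (π : Par) (x y z : ℕ) : ℕ :=
  π.a * (x + y + z) ^ 3 + π.g * (4 * π.a * (x + y + z) * (x * y + y * z + z * x)) +
    (4 * π.a + π.g * (2 * π.b)) * (x * y * z)

/-- the quadratic form -/
def quadricTwo (π : Par) (x y z : ℕ) : ℕ :=
  π.m ^ 2 * π.a * x ^ 2 + (π.n ^ 2 * π.a + π.m ^ 2 * π.b) * y ^ 2 + π.m ^ 2 * π.b * z ^ 2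

/-- the linear forms -/
def line (π : Par) (x y z : ℕ) : Fin 7 → ℕ :=
  ![x + y + z, x + y + π.g * z, x + π.g * y + z, π.m * x + π.g * (π.n * y), π.m * x + π.n * y,
    π.m * x + π.g * (π.n * z), π.m * y + π.g * (π.n * z)]

/-- the cubic forms -/
def cubic (π : Par) (x y z : ℕ) : Fin 7 → ℕ :=
  ![π.cubicOne x y z, π.cubicOne x y (π.g * z), π.cubicOne x (π.g * y) z,
    (π.m * x + π.n * y) * π.quadricTwo x y z,
    (π.m * x + π.g * (π.n * y)) * π.quadricTwo x y z,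
    (π.m * x + π.n * z) * π.quadricTwo x z y, (π.m * y + π.n * z) * π.quadricTwo y z x]

/-- the test with the function `f` of the values of the linear and the cubic forms -/
def test (π : Par) (f : ℕ → ℕ → ℕ) (M x y z : ℕ) : Bool :=
  fit M (f (x + y + z) (π.cubicOne x y z))
    (f (x + y + π.g * z) (π.cubicOne x y (π.g * z)))
    (f (x + π.g * y + z) (π.cubicOne x (π.g * y) z))
    (f (π.m * x + π.g * (π.n * y)) ((π.m * x + π.n * y) * π.quadricTwo x y z))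
    (f (π.m * x + π.n * y) ((π.m * x + π.g * (π.n * y)) * π.quadricTwo x y z))
    (f (π.m * x + π.g * (π.n * z)) ((π.m * x + π.n * z) * π.quadricTwo x z y))
    (f (π.m * y + π.g * (π.n * z)) ((π.m * y + π.n * z) * π.quadricTwo y z x))

lemma test_sound {π : Par} {f : ℕ → ℕ → ℕ} {M x y z : ℕ} (h : π.test f M x y z = true) :
    (∀ i, f (π.line x y z i) (π.cubic x y z i) < 2) ∧ ∃ c, c < 64 ∧ M.testBit c = true ∧
      ∀ E : Finset (Fin 7), Even E.card →
        ∑ i ∈ E, (f (π.line x y z i) (π.cubic x y z i) : ZMod 2) = ∑ i ∈ E, vec c i :=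
  fit_sound (b := fun i => f (π.line x y z i) (π.cubic x y z i)) h

variable {q : ℕ}

lemma Ok.cast {π : Par} (h : π.Ok X q) : (π.g : ZMod q) = -1 ∧ (π.a : ZMod q) = X.a ∧
    (π.b : ZMod q) = X.b ∧ (π.m : ZMod q) = X.m ∧ (π.n : ZMod q) = X.n :=
  ⟨by simpa using h.g, by simpa using h.a, by simpa using h.b, by simpa using h.m,
    by simpa using h.n⟩

lemma Ok.form {π : Par} (h : π.Ok X q) (x y z : ℕ) :
    ((π.form x y z : ℕ) : ZMod q) = X.form (x : ZMod q) y z := by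
  obtain ⟨h1, h2, h3, h4, h5⟩ := h.cast
  simp only [Par.form, Surface.form]
  push_cast
  rw [h2, h3]

lemma Ok.line {π : Par} (h : π.Ok X q) (x y z : ℕ) (i : Fin 7) :
    ((π.line x y z i : ℕ) : ZMod q) = X.line (x : ZMod q) y z i := by
  obtain ⟨h1, h2, h3, h4, h5⟩ := h.cast
  fin_cases i <;> simp [Par.line, Surface.line, h1, h4, h5, sub_eq_add_neg]

lemma Ok.cubic {π : Par} (h : π.Ok X q) (x y z : ℕ) (i : Fin 7) :
    ((π.cubic x y z i : ℕ) : ZMod q) = X.cubic (x : ZMod q) y z i := by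
  obtain ⟨h1, h2, h3, h4, h5⟩ := h.cast
  fin_cases i <;> simp [Par.cubic, Surface.cubic, Par.cubicOne, Surface.cubicOne, Par.quadricTwo,
    Surface.quadricTwo, h1, h2, h3, h4, h5, sub_eq_add_neg]

end Par

end Pool.Agent.H437.DP
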