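import Pool.Agent.H437.DP.Norms

/-!
# Double planes with rational bitangents and their Brauer classes: definitions

The double cover `X` of the plane `d w² = F(x, y, z)` that is branched along the smooth quartic curve
`F = 0` is a del Pezzo surface of degree 2.  The preimage in `X` of a bitangent `l = 0` of the curve is
the union of two exceptional curves `L`, `L'`.  For the surfaces below seven bitangents `lᵢ` are given
such that `Lᵢ` and `Lᵢ'` are defined over `ℚ(√d)` and conjugate: the restriction of `F` to the line
`lᵢ = 0` is `(qᵢ / sᵢ) ^ 2` with a quadratic form `qᵢ` over `ℚ`, see the theorem `bitangent`.  The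
matrix of the intersection numbers of the `Lᵢ - Lᵢ'` has the determinant `- 2 ^ 13`, so the projections
of the seven `Lᵢ` form a basis of the dual of the lattice `E₇ = K^⊥` in `Pic` of `X` over the algebraic
closure, the Galois group acts on `Pic` through the Geiser involution, `H¹(ℚ, Pic) = E₇ / 2 E₇*` has
`64` elements, and they correspond to the sets of an even number of the seven bitangents: to `E`
belongs the class of the quaternion algebra `(∏ lᵢ, d)`, `i ∈ E`.
-/

set_option autoImplicit false

namespace Pool.Agent.H437.DP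

/-- The parameters of the surface `d w² = a (x⁴ + y⁴ + z⁴) + b (x² y² + y² z² + z² x²)` in the weighted
projective space with the coordinates `(x : y : z : w)` of the weights `1, 1, 1, 2`.  The
conditions say that the lines `x ± y ± z = 0`, `m x = ± n y`, `m x = n z`, `m y = n z` are bitangents of
the branch curve, and that the two curves above each of them are defined over the field generated by
a square root of `d`. -/
structure Surface where
  /-- the coefficient of `x⁴ + y⁴ + z⁴` -/
  a : ℤ
  /-- the coefficient of `x² y² + y² z² + z² x²` -/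
  b : ℤ
  /-- the coefficient of `w²` -/
  d : ℤ
  /-- a square root of `a` -/
  α : ℤ
  /-- a square root of `2 a + b` -/
  β : ℤ
  /-- the slope of the lines is `m / n` -/
  m : ℤ
  /-- the slope of the lines is `m / n` -/
  n : ℤ
  /-- a coefficient of the conics -/
  κ : ℤ
  a_eq : a = α ^ 2
  β_eq : 2 * a + b = β ^ 2
  κ_eq : 2 * α * κ = b * (m ^ 2 + n ^ 2)
  κ_sq : κ ^ 2 = a * (m ^ 4 + n ^ 4) + b * m ^ 2 * n ^ 2

namespace Surface

variable (X : Surface)

section forms

variable {R : Type*} [CommRing R]

/-- the quartic form -/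
def form (x y z : R) : R :=
  X.a * (x ^ 4 + y ^ 4 + z ^ 4) + X.b * (x ^ 2 * y ^ 2 + y ^ 2 * z ^ 2 + z ^ 2 * x ^ 2)

/-- the cubic form that belongs to the bitangent `x + y + z = 0` -/
def cubicOne (x y z : R) : R :=
  X.a * (x + y + z) ^ 3 - 4 * X.a * (x + y + z) * (x * y + y * z + z * x) +
    (4 * X.a - 2 * X.b) * (x * y * z)

/-- a factor of the cubic form that belongs to the bitangent `m x = n y` -/
def quadricTwo (x y z : R) : R :=
  X.m ^ 2 * X.a * x ^ 2 + (X.n ^ 2 * X.a + X.m ^ 2 * X.b) * y ^ 2 + X.m ^ 2 * X.b * z ^ 2

/-- the linear forms of the seven bitangents -/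
def line (x y z : R) : Fin 7 → R :=
  ![x + y + z, x + y - z, x - y + z, X.m * x - X.n * y, X.m * x + X.n * y, X.m * x - X.n * z,
    X.m * y - X.n * z]

/-- the cubic forms of the seven bitangents -/
def cubic (x y z : R) : Fin 7 → R :=
  ![X.cubicOne x y z, X.cubicOne x y (-z), X.cubicOne x (-y) z,
    (X.m * x + X.n * y) * X.quadricTwo x y z, (X.m * x - X.n * y) * X.quadricTwo x y z,
    (X.m * x + X.n * z) * X.quadricTwo x z y, (X.m * y + X.n * z) * X.quadricTwo y z x]

/-- the quadratic forms of the seven bitangents -/
def conic (x y z : R) : Fin 7 → R :=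
  ![X.β * (x * y + y * z + z * x), X.β * (x * y - y * z - z * x), X.β * (-x * y - y * z + z * x),
    X.α * X.m ^ 2 * z ^ 2 + X.κ * y ^ 2, X.α * X.m ^ 2 * z ^ 2 + X.κ * y ^ 2,
    X.α * X.m ^ 2 * y ^ 2 + X.κ * z ^ 2, X.α * X.m ^ 2 * x ^ 2 + X.κ * z ^ 2]

/-- the scaling factors -/
def scale : Fin 7 → ℤ := ![1, 1, 1, X.m ^ 2, X.m ^ 2, X.m ^ 2, X.m ^ 2]

/-- `lᵢ cᵢ = sᵢ² F - qᵢ²`: the restriction of the quartic form to the line is a square -/
theorem bitangent (x y z : R) (i : Fin 7) :
    X.line x y z i * X.cubic x y z i = X.scale i ^ 2 * X.form x y z - X.conic x y z i ^ 2 := by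
  have h1 : (X.a : R) = X.α ^ 2 := by rw [X.a_eq]; push_cast; ring
  have h2 : 2 * (X.a : R) + X.b = X.β ^ 2 := by exact_mod_cast congrArg (Int.cast : ℤ → R) X.β_eq
  have h3 : 2 * (X.α : R) * X.κ = X.b * (X.m ^ 2 + X.n ^ 2) := by
    exact_mod_cast congrArg (Int.cast : ℤ → R) X.κ_eq
  have h4 : (X.κ : R) ^ 2 = X.a * (X.m ^ 4 + X.n ^ 4) + X.b * X.m ^ 2 * X.n ^ 2 := by
    exact_mod_cast congrArg (Int.cast : ℤ → R) X.κ_sq
  fin_cases i
  · simp only [line, cubic, conic, scale, form, cubicOne]
    simp
    linear_combination (-(x * y + y * z + z * x) ^ 2) * h2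
  · simp only [line, cubic, conic, scale, form, cubicOne]
    simp
    linear_combination (-(x * y - y * z - z * x) ^ 2) * h2
  · simp only [line, cubic, conic, scale, form, cubicOne]
    simp
    linear_combination (-(-x * y - y * z + z * x) ^ 2) * h2
  · simp only [line, cubic, conic, scale, form, quadricTwo]
    simp
    linear_combination y ^ 4 * h4 + X.m ^ 2 * y ^ 2 * z ^ 2 * h3 - X.m ^ 4 * z ^ 4 * h1
  · simp only [line, cubic, conic, scale, form, quadricTwo]
    simp
    linear_combination y ^ 4 * h4 + X.m ^ 2 * y ^ 2 * z ^ 2 * h3 - X.m ^ 4 * z ^ 4 * h1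
  · simp only [line, cubic, conic, scale, form, quadricTwo]
    simp
    linear_combination z ^ 4 * h4 + X.m ^ 2 * y ^ 2 * z ^ 2 * h3 - X.m ^ 4 * y ^ 4 * h1
  · simp only [line, cubic, conic, scale, form, quadricTwo]
    simp
    linear_combination z ^ 4 * h4 + X.m ^ 2 * x ^ 2 * z ^ 2 * h3 - X.m ^ 4 * x ^ 4 * h1

end forms

section points

variable (K : Type*) [Field K]

/-- The points over the field `K` of the surface `d w² = a (x⁴ + y⁴ + z⁴) + b (x² y² + y² z² + z² x²)` in
the weighted projective space with the coordinates `(x : y : z : w)` of the weights `1, 1, 1, 2`,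
given by their coordinates. -/
structure Point where
  /-- the first coordinate -/
  x : K
  /-- the second coordinate -/
  y : K
  /-- the third coordinate -/
  z : K
  /-- the fourth coordinate -/
  w : K
  ne : ¬ (x = 0 ∧ y = 0 ∧ z = 0)
  eq : X.d * w ^ 2 = X.form x y z

variable {X K}

open Classical in
/-- The value of the linear form `lᵢ` at the point, up to norms from the field generated by a square
root of `d`.  If `lᵢ` vanishes at the point, then this is the value of `- cᵢ`; the product of `lᵢ` and
`- cᵢ` is the norm `qᵢ² - d (sᵢ w)²`. -/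
noncomputable def Point.value (P : X.Point K) (i : Fin 7) : K :=
  if X.line P.x P.y P.z i = 0 then - X.cubic P.x P.y P.z i else X.line P.x P.y P.z i

open Classical in
/-- Let `E` be a set of an even number of bitangents.  This is the local invariant at the point,
multiplied by `2`, of the class of the quaternion algebra `(∏ lᵢ, d)`, `i ∈ E`: it is zero if and only
if the value of `∏ lᵢ` is of the form `s² - d t²`. -/
noncomputable def Point.invariant (P : X.Point K) (E : Finset (Fin 7)) : ZMod 2 :=
  if IsNorm X.d (∏ i ∈ E, P.value i) then 0 else 1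

end points

instance factPrime (p : Nat.Primes) : Fact (p : ℕ).Prime := ⟨p.2⟩

/-- The adelic points: a point over each completion of `ℚ`. -/
structure AdelicPoint where
  /-- the points over the fields of `p`-adic numbers -/
  finite : ∀ p : Nat.Primes, X.Point ℚ_[(p : ℕ)]
  /-- the point over the field of real numbers -/
  real : X.Point ℝ

/-- The Brauer classes `(∏ lᵢ, d)`, `i ∈ E`, where `E` is a set of an even number of the seven
bitangents. -/
abbrev BrauerClass : Type := {E : Finset (Fin 7) // Even E.card}

variable {X}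

/-- The sum of all local invariants, multiplied by `2`, of the class `E` at an adelic point. -/
noncomputable def AdelicPoint.pairing (P : X.AdelicPoint) (E : BrauerClass) : ZMod 2 :=
  ∑ᶠ p : Nat.Primes, (P.finite p).invariant E.1 + P.real.invariant E.1

variable (X)

/-- The classes in `B` obstruct the existence of rational points: no adelic point is orthogonal to
all classes in `B`. -/
def Obstructs (B : Finset BrauerClass) : Prop := ∀ P : X.AdelicPoint, ∃ E ∈ B, P.pairing E ≠ 0

/-- There is an adelic point, and `r` is the least number of classes that obstruct the existence of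
rational points. -/
def Requires (r : ℕ) : Prop :=
  Nonempty X.AdelicPoint ∧ IsLeast {s : ℕ | ∃ B : Finset BrauerClass, B.card = s ∧ X.Obstructs B} r

/-- The quartic curve `F = 0` is smooth: the partial derivatives have no common complex zero but
`(0, 0, 0)`. -/
def Smooth : Prop :=
  ∀ x y z : ℂ, 4 * X.a * x ^ 3 + 2 * X.b * x * (y ^ 2 + z ^ 2) = 0 →
    4 * X.a * y ^ 3 + 2 * X.b * y * (x ^ 2 + z ^ 2) = 0 →
    4 * X.a * z ^ 3 + 2 * X.b * z * (x ^ 2 + y ^ 2) = 0 → x = 0 ∧ y = 0 ∧ z = 0

/-- For every class, the local invariants vanish at all points over `ℚ_p`, for all primes `p` outside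
a finite set. -/
def AlmostTrivial : Prop :=
  ∃ S : Finset Nat.Primes, ∀ p : Nat.Primes, p ∉ S → ∀ (P : X.Point ℚ_[(p : ℕ)]) (E : BrauerClass),
    P.invariant E.1 = 0

/-- None of the classes but the one of the empty set is constant: for each there is a prime `p` and
there are two points over `ℚ_p` with different local invariants. -/
def Independent : Prop :=
  ∀ E : BrauerClass, E.1.Nonempty → ∃ (p : Nat.Primes) (P P' : X.Point ℚ_[(p : ℕ)]),
    P.invariant E.1 ≠ P'.invariant E.1

/-- All classes are unramified: let `Ω` be a field of characteristic zero with a valuation ring `O`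
that contains the rational numbers, and `P` a point over `Ω`.  Then the value of `∏ lᵢ` is the product
of a square and a unit of `O`, or `d` is a square in the residue field. -/
def Unramified : Prop :=
  ∀ (Ω : Type) [Field Ω] [CharZero Ω] (O : ValuationSubring Ω), (∀ q : ℚ, (q : Ω) ∈ O) →
    ∀ (P : X.Point Ω) (E : BrauerClass),
      (∃ (c : Ω) (u : O), c ≠ 0 ∧ IsUnit u ∧ ∏ i ∈ E.1, P.value i = c ^ 2 * u) ∨
      IsSquare ((X.d : ℤ) : IsLocalRing.ResidueField O)

end Surface

end Pool.Agent.H437.DP
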