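import Pool.Agent.H437.DP.Ex1Base

/-!
# Double planes: the surface that requires one Brauer class, points over the prime two
-/

set_option autoImplicit false
set_option maxRecDepth 100000

namespace Pool.Agent.H437.DP.Ex1

theorem piece0_0_3_4 : tree par2 2 5764607568668262405 0 lev4 4 16 0 3 = true := by
  decide +kernel

theorem piece0_0_11_4 : tree par2 2 5764607568668262405 0 lev4 4 16 0 11 = true := by
  decide +kernel

theorem piece0_8_3_4 : tree par2 2 5764607568668262405 0 lev4 4 16 8 3 = true := by
  decide +kernel

theorem piece0_8_11_4 : tree par2 2 5764607568668262405 0 lev4 4 16 8 11 = true := by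
  decide +kernel

theorem piece0_0_3_3 : tree par2 2 5764607568668262405 0 lev3 3 8 0 3 = true :=
  tree_two piece0_0_3_4 piece0_0_11_4 piece0_8_3_4 piece0_8_11_4

theorem piece0_0_7_4 : tree par2 2 5764607568668262405 0 lev4 4 16 0 7 = true := by
  decide +kernel

theorem piece0_0_15_4 : tree par2 2 5764607568668262405 0 lev4 4 16 0 15 = true := by
  decide +kernel

theorem piece0_8_7_4 : tree par2 2 5764607568668262405 0 lev4 4 16 8 7 = true := by
  decide +kernel

theorem piece0_8_15_4 : tree par2 2 5764607568668262405 0 lev4 4 16 8 15 = true := by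
  decide +kernel

theorem piece0_0_7_3 : tree par2 2 5764607568668262405 0 lev3 3 8 0 7 = true :=
  tree_two piece0_0_7_4 piece0_0_15_4 piece0_8_7_4 piece0_8_15_4

theorem piece0_4_3_5 : tree par2 2 5764607568668262405 0 lev5 5 32 4 3 = true := by
  decide +kernel

theorem piece0_4_19_5 : tree par2 2 5764607568668262405 0 lev5 5 32 4 19 = true := by
  decide +kernel

theorem piece0_20_3_5 : tree par2 2 5764607568668262405 0 lev5 5 32 20 3 = true := by
  decide +kernel

theorem piece0_20_19_5 : tree par2 2 5764607568668262405 0 lev5 5 32 20 19 = true := by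
  decide +kernel

theorem piece0_4_3_4 : tree par2 2 5764607568668262405 0 lev4 4 16 4 3 = true :=
  tree_two piece0_4_3_5 piece0_4_19_5 piece0_20_3_5 piece0_20_19_5

theorem piece0_4_11_5 : tree par2 2 5764607568668262405 0 lev5 5 32 4 11 = true := by
  decide +kernel

theorem piece0_4_27_5 : tree par2 2 5764607568668262405 0 lev5 5 32 4 27 = true := by
  decide +kernel

theorem piece0_20_11_5 : tree par2 2 5764607568668262405 0 lev5 5 32 20 11 = true := by
  decide +kernel

theorem piece0_20_27_5 : tree par2 2 5764607568668262405 0 lev5 5 32 20 27 = true := by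
  decide +kernel

theorem piece0_4_11_4 : tree par2 2 5764607568668262405 0 lev4 4 16 4 11 = true :=
  tree_two piece0_4_11_5 piece0_4_27_5 piece0_20_11_5 piece0_20_27_5

theorem piece0_12_3_4 : tree par2 2 5764607568668262405 0 lev4 4 16 12 3 = true := by
  decide +kernel

theorem piece0_12_11_5 : tree par2 2 5764607568668262405 0 lev5 5 32 12 11 = true := by
  decide +kernel

theorem piece0_12_27_5 : tree par2 2 5764607568668262405 0 lev5 5 32 12 27 = true := by
  decide +kernel

theorem piece0_28_11_5 : tree par2 2 5764607568668262405 0 lev5 5 32 28 11 = true := by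
  decide +kernel

theorem piece0_28_27_5 : tree par2 2 5764607568668262405 0 lev5 5 32 28 27 = true := by
  decide +kernel

theorem piece0_12_11_4 : tree par2 2 5764607568668262405 0 lev4 4 16 12 11 = true :=
  tree_two piece0_12_11_5 piece0_12_27_5 piece0_28_11_5 piece0_28_27_5

theorem piece0_4_3_3 : tree par2 2 5764607568668262405 0 lev3 3 8 4 3 = true :=
  tree_two piece0_4_3_4 piece0_4_11_4 piece0_12_3_4 piece0_12_11_4

theorem piece0_4_7_5 : tree par2 2 5764607568668262405 0 lev5 5 32 4 7 = true := by
  decide +kernel

theorem piece0_4_23_5 : tree par2 2 5764607568668262405 0 lev5 5 32 4 23 = true := by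
  decide +kernel

theorem piece0_20_7_6 : tree par2 2 5764607568668262405 0 lev6 6 64 20 7 = true := by
  decide +kernel

theorem piece0_20_39_6 : tree par2 2 5764607568668262405 0 lev6 6 64 20 39 = true := by
  decide +kernel

theorem piece0_52_7_6 : tree par2 2 5764607568668262405 0 lev6 6 64 52 7 = true := by
  decide +kernel

theorem piece0_52_39_6 : tree par2 2 5764607568668262405 0 lev6 6 64 52 39 = true := by
  decide +kernel

theorem piece0_20_7_5 : tree par2 2 5764607568668262405 0 lev5 5 32 20 7 = true :=
  tree_two piece0_20_7_6 piece0_20_39_6 piece0_52_7_6 piece0_52_39_6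

theorem piece0_20_23_6 : tree par2 2 5764607568668262405 0 lev6 6 64 20 23 = true := by
  decide +kernel

theorem piece0_20_55_6 : tree par2 2 5764607568668262405 0 lev6 6 64 20 55 = true := by
  decide +kernel

theorem piece0_52_23_6 : tree par2 2 5764607568668262405 0 lev6 6 64 52 23 = true := by
  decide +kernel

theorem piece0_52_55_6 : tree par2 2 5764607568668262405 0 lev6 6 64 52 55 = true := by
  decide +kernel

theorem piece0_20_23_5 : tree par2 2 5764607568668262405 0 lev5 5 32 20 23 = true :=
  tree_two piece0_20_23_6 piece0_20_55_6 piece0_52_23_6 piece0_52_55_6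

theorem piece0_4_7_4 : tree par2 2 5764607568668262405 0 lev4 4 16 4 7 = true :=
  tree_two piece0_4_7_5 piece0_4_23_5 piece0_20_7_5 piece0_20_23_5

theorem piece0_4_15_5 : tree par2 2 5764607568668262405 0 lev5 5 32 4 15 = true := by
  decide +kernel

theorem piece0_4_31_5 : tree par2 2 5764607568668262405 0 lev5 5 32 4 31 = true := by
  decide +kernel

theorem piece0_20_15_6 : tree par2 2 5764607568668262405 0 lev6 6 64 20 15 = true := by
  decide +kernel

theorem piece0_20_47_6 : tree par2 2 5764607568668262405 0 lev6 6 64 20 47 = true := by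
  decide +kernel

theorem piece0_52_15_6 : tree par2 2 5764607568668262405 0 lev6 6 64 52 15 = true := by
  decide +kernel

theorem piece0_52_47_6 : tree par2 2 5764607568668262405 0 lev6 6 64 52 47 = true := by
  decide +kernel

theorem piece0_20_15_5 : tree par2 2 5764607568668262405 0 lev5 5 32 20 15 = true :=
  tree_two piece0_20_15_6 piece0_20_47_6 piece0_52_15_6 piece0_52_47_6

theorem piece0_20_31_6 : tree par2 2 5764607568668262405 0 lev6 6 64 20 31 = true := by
  decide +kernel

theorem piece0_20_63_6 : tree par2 2 5764607568668262405 0 lev6 6 64 20 63 = true := by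
  decide +kernel

theorem piece0_52_31_6 : tree par2 2 5764607568668262405 0 lev6 6 64 52 31 = true := by
  decide +kernel

theorem piece0_52_63_6 : tree par2 2 5764607568668262405 0 lev6 6 64 52 63 = true := by
  decide +kernel

theorem piece0_20_31_5 : tree par2 2 5764607568668262405 0 lev5 5 32 20 31 = true :=
  tree_two piece0_20_31_6 piece0_20_63_6 piece0_52_31_6 piece0_52_63_6

theorem piece0_4_15_4 : tree par2 2 5764607568668262405 0 lev4 4 16 4 15 = true :=
  tree_two piece0_4_15_5 piece0_4_31_5 piece0_20_15_5 piece0_20_31_5

theorem piece0_12_7_6 : tree par2 2 5764607568668262405 0 lev6 6 64 12 7 = true := by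
  decide +kernel

theorem piece0_12_39_6 : tree par2 2 5764607568668262405 0 lev6 6 64 12 39 = true := by
  decide +kernel

theorem piece0_44_7_6 : tree par2 2 5764607568668262405 0 lev6 6 64 44 7 = true := by
  decide +kernel

theorem piece0_44_39_6 : tree par2 2 5764607568668262405 0 lev6 6 64 44 39 = true := by
  decide +kernel

theorem piece0_12_7_5 : tree par2 2 5764607568668262405 0 lev5 5 32 12 7 = true :=
  tree_two piece0_12_7_6 piece0_12_39_6 piece0_44_7_6 piece0_44_39_6

theorem piece0_12_23_6 : tree par2 2 5764607568668262405 0 lev6 6 64 12 23 = true := by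
  decide +kernel

theorem piece0_12_55_6 : tree par2 2 5764607568668262405 0 lev6 6 64 12 55 = true := by
  decide +kernel

theorem piece0_44_23_6 : tree par2 2 5764607568668262405 0 lev6 6 64 44 23 = true := by
  decide +kernel

theorem piece0_44_55_6 : tree par2 2 5764607568668262405 0 lev6 6 64 44 55 = true := by
  decide +kernel

theorem piece0_12_23_5 : tree par2 2 5764607568668262405 0 lev5 5 32 12 23 = true :=
  tree_two piece0_12_23_6 piece0_12_55_6 piece0_44_23_6 piece0_44_55_6

theorem piece0_28_7_5 : tree par2 2 5764607568668262405 0 lev5 5 32 28 7 = true := by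
  decide +kernel

theorem piece0_28_23_5 : tree par2 2 5764607568668262405 0 lev5 5 32 28 23 = true := by
  decide +kernel

theorem piece0_12_7_4 : tree par2 2 5764607568668262405 0 lev4 4 16 12 7 = true :=
  tree_two piece0_12_7_5 piece0_12_23_5 piece0_28_7_5 piece0_28_23_5

theorem piece0_12_15_6 : tree par2 2 5764607568668262405 0 lev6 6 64 12 15 = true := by
  decide +kernel

theorem piece0_12_47_6 : tree par2 2 5764607568668262405 0 lev6 6 64 12 47 = true := by
  decide +kernel

theorem piece0_44_15_6 : tree par2 2 5764607568668262405 0 lev6 6 64 44 15 = true := by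
  decide +kernel

theorem piece0_44_47_6 : tree par2 2 5764607568668262405 0 lev6 6 64 44 47 = true := by
  decide +kernel

theorem piece0_12_15_5 : tree par2 2 5764607568668262405 0 lev5 5 32 12 15 = true :=
  tree_two piece0_12_15_6 piece0_12_47_6 piece0_44_15_6 piece0_44_47_6

theorem piece0_12_31_6 : tree par2 2 5764607568668262405 0 lev6 6 64 12 31 = true := by
  decide +kernel

theorem piece0_12_63_6 : tree par2 2 5764607568668262405 0 lev6 6 64 12 63 = true := by
  decide +kernel

theorem piece0_44_31_6 : tree par2 2 5764607568668262405 0 lev6 6 64 44 31 = true := by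
  decide +kernel

theorem piece0_44_63_6 : tree par2 2 5764607568668262405 0 lev6 6 64 44 63 = true := by
  decide +kernel

theorem piece0_12_31_5 : tree par2 2 5764607568668262405 0 lev5 5 32 12 31 = true :=
  tree_two piece0_12_31_6 piece0_12_63_6 piece0_44_31_6 piece0_44_63_6

theorem piece0_28_15_5 : tree par2 2 5764607568668262405 0 lev5 5 32 28 15 = true := by
  decide +kernel

theorem piece0_28_31_5 : tree par2 2 5764607568668262405 0 lev5 5 32 28 31 = true := by
  decide +kernel

theorem piece0_12_15_4 : tree par2 2 5764607568668262405 0 lev4 4 16 12 15 = true :=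
  tree_two piece0_12_15_5 piece0_12_31_5 piece0_28_15_5 piece0_28_31_5

theorem piece0_4_7_3 : tree par2 2 5764607568668262405 0 lev3 3 8 4 7 = true :=
  tree_two piece0_4_7_4 piece0_4_15_4 piece0_12_7_4 piece0_12_15_4

theorem piece0_0_3_2 : tree par2 2 5764607568668262405 0 lev2 2 4 0 3 = true :=
  tree_two piece0_0_3_3 piece0_0_7_3 piece0_4_3_3 piece0_4_7_3

end Pool.Agent.H437.DP.Ex1
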