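import Pool.Agent.H437.DP.Ex1Base

/-!
# Double planes: the surface that requires one Brauer class, points over the prime two
-/

set_option autoImplicit false
set_option maxRecDepth 100000

namespace Pool.Agent.H437.DP.Ex1

theorem piece0_1_0_4 : tree par2 2 5764607568668262405 0 lev4 4 16 1 0 = true := by
  decide +kernel

theorem piece0_1_8_4 : tree par2 2 5764607568668262405 0 lev4 4 16 1 8 = true := by
  decide +kernel

theorem piece0_9_0_4 : tree par2 2 5764607568668262405 0 lev4 4 16 9 0 = true := by
  decide +kernel

theorem piece0_9_8_4 : tree par2 2 5764607568668262405 0 lev4 4 16 9 8 = true := by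
  decide +kernel

theorem piece0_1_0_3 : tree par2 2 5764607568668262405 0 lev3 3 8 1 0 = true :=
  tree_two piece0_1_0_4 piece0_1_8_4 piece0_9_0_4 piece0_9_8_4

theorem piece0_1_4_5 : tree par2 2 5764607568668262405 0 lev5 5 32 1 4 = true := by
  decide +kernel

theorem piece0_1_20_6 : tree par2 2 5764607568668262405 0 lev6 6 64 1 20 = true := by
  decide +kernel

theorem piece0_1_52_6 : tree par2 2 5764607568668262405 0 lev6 6 64 1 52 = true := by
  decide +kernel

theorem piece0_33_20_6 : tree par2 2 5764607568668262405 0 lev6 6 64 33 20 = true := by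
  decide +kernel

theorem piece0_33_52_6 : tree par2 2 5764607568668262405 0 lev6 6 64 33 52 = true := by
  decide +kernel

theorem piece0_1_20_5 : tree par2 2 5764607568668262405 0 lev5 5 32 1 20 = true :=
  tree_two piece0_1_20_6 piece0_1_52_6 piece0_33_20_6 piece0_33_52_6

theorem piece0_17_4_5 : tree par2 2 5764607568668262405 0 lev5 5 32 17 4 = true := by
  decide +kernel

theorem piece0_17_20_6 : tree par2 2 5764607568668262405 0 lev6 6 64 17 20 = true := by
  decide +kernel

theorem piece0_17_52_6 : tree par2 2 5764607568668262405 0 lev6 6 64 17 52 = true := by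
  decide +kernel

theorem piece0_49_20_6 : tree par2 2 5764607568668262405 0 lev6 6 64 49 20 = true := by
  decide +kernel

theorem piece0_49_52_6 : tree par2 2 5764607568668262405 0 lev6 6 64 49 52 = true := by
  decide +kernel

theorem piece0_17_20_5 : tree par2 2 5764607568668262405 0 lev5 5 32 17 20 = true :=
  tree_two piece0_17_20_6 piece0_17_52_6 piece0_49_20_6 piece0_49_52_6

theorem piece0_1_4_4 : tree par2 2 5764607568668262405 0 lev4 4 16 1 4 = true :=
  tree_two piece0_1_4_5 piece0_1_20_5 piece0_17_4_5 piece0_17_20_5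

theorem piece0_1_12_4 : tree par2 2 5764607568668262405 0 lev4 4 16 1 12 = true := by
  decide +kernel

theorem piece0_9_4_5 : tree par2 2 5764607568668262405 0 lev5 5 32 9 4 = true := by
  decide +kernel

theorem piece0_9_20_6 : tree par2 2 5764607568668262405 0 lev6 6 64 9 20 = true := by
  decide +kernel

theorem piece0_9_52_6 : tree par2 2 5764607568668262405 0 lev6 6 64 9 52 = true := by
  decide +kernel

theorem piece0_41_20_6 : tree par2 2 5764607568668262405 0 lev6 6 64 41 20 = true := by
  decide +kernel

theorem piece0_41_52_6 : tree par2 2 5764607568668262405 0 lev6 6 64 41 52 = true := by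
  decide +kernel

theorem piece0_9_20_5 : tree par2 2 5764607568668262405 0 lev5 5 32 9 20 = true :=
  tree_two piece0_9_20_6 piece0_9_52_6 piece0_41_20_6 piece0_41_52_6

theorem piece0_25_4_5 : tree par2 2 5764607568668262405 0 lev5 5 32 25 4 = true := by
  decide +kernel

theorem piece0_25_20_6 : tree par2 2 5764607568668262405 0 lev6 6 64 25 20 = true := by
  decide +kernel

theorem piece0_25_52_6 : tree par2 2 5764607568668262405 0 lev6 6 64 25 52 = true := by
  decide +kernel

theorem piece0_57_20_6 : tree par2 2 5764607568668262405 0 lev6 6 64 57 20 = true := by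
  decide +kernel

theorem piece0_57_52_6 : tree par2 2 5764607568668262405 0 lev6 6 64 57 52 = true := by
  decide +kernel

theorem piece0_25_20_5 : tree par2 2 5764607568668262405 0 lev5 5 32 25 20 = true :=
  tree_two piece0_25_20_6 piece0_25_52_6 piece0_57_20_6 piece0_57_52_6

theorem piece0_9_4_4 : tree par2 2 5764607568668262405 0 lev4 4 16 9 4 = true :=
  tree_two piece0_9_4_5 piece0_9_20_5 piece0_25_4_5 piece0_25_20_5

theorem piece0_9_12_4 : tree par2 2 5764607568668262405 0 lev4 4 16 9 12 = true := by
  decide +kernel

theorem piece0_1_4_3 : tree par2 2 5764607568668262405 0 lev3 3 8 1 4 = true :=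
  tree_two piece0_1_4_4 piece0_1_12_4 piece0_9_4_4 piece0_9_12_4

theorem piece0_5_0_4 : tree par2 2 5764607568668262405 0 lev4 4 16 5 0 = true := by
  decide +kernel

theorem piece0_5_8_4 : tree par2 2 5764607568668262405 0 lev4 4 16 5 8 = true := by
  decide +kernel

theorem piece0_13_0_4 : tree par2 2 5764607568668262405 0 lev4 4 16 13 0 = true := by
  decide +kernel

theorem piece0_13_8_4 : tree par2 2 5764607568668262405 0 lev4 4 16 13 8 = true := by
  decide +kernel

theorem piece0_5_0_3 : tree par2 2 5764607568668262405 0 lev3 3 8 5 0 = true :=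
  tree_two piece0_5_0_4 piece0_5_8_4 piece0_13_0_4 piece0_13_8_4

theorem piece0_5_4_4 : tree par2 2 5764607568668262405 0 lev4 4 16 5 4 = true := by
  decide +kernel

theorem piece0_5_12_4 : tree par2 2 5764607568668262405 0 lev4 4 16 5 12 = true := by
  decide +kernel

theorem piece0_13_4_4 : tree par2 2 5764607568668262405 0 lev4 4 16 13 4 = true := by
  decide +kernel

theorem piece0_13_12_5 : tree par2 2 5764607568668262405 0 lev5 5 32 13 12 = true := by
  decide +kernel

theorem piece0_13_28_5 : tree par2 2 5764607568668262405 0 lev5 5 32 13 28 = true := by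
  decide +kernel

theorem piece0_29_12_5 : tree par2 2 5764607568668262405 0 lev5 5 32 29 12 = true := by
  decide +kernel

theorem piece0_29_28_5 : tree par2 2 5764607568668262405 0 lev5 5 32 29 28 = true := by
  decide +kernel

theorem piece0_13_12_4 : tree par2 2 5764607568668262405 0 lev4 4 16 13 12 = true :=
  tree_two piece0_13_12_5 piece0_13_28_5 piece0_29_12_5 piece0_29_28_5

theorem piece0_5_4_3 : tree par2 2 5764607568668262405 0 lev3 3 8 5 4 = true :=
  tree_two piece0_5_4_4 piece0_5_12_4 piece0_13_4_4 piece0_13_12_4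

theorem piece0_1_0_2 : tree par2 2 5764607568668262405 0 lev2 2 4 1 0 = true :=
  tree_two piece0_1_0_3 piece0_1_4_3 piece0_5_0_3 piece0_5_4_3

theorem piece0_1_2_3 : tree par2 2 5764607568668262405 0 lev3 3 8 1 2 = true := by
  decide +kernel

theorem piece0_1_6_3 : tree par2 2 5764607568668262405 0 lev3 3 8 1 6 = true := by
  decide +kernel

theorem piece0_5_2_3 : tree par2 2 5764607568668262405 0 lev3 3 8 5 2 = true := by
  decide +kernel

theorem piece0_5_6_3 : tree par2 2 5764607568668262405 0 lev3 3 8 5 6 = true := by
  decide +kernel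

theorem piece0_1_2_2 : tree par2 2 5764607568668262405 0 lev2 2 4 1 2 = true :=
  tree_two piece0_1_2_3 piece0_1_6_3 piece0_5_2_3 piece0_5_6_3

theorem piece0_3_0_4 : tree par2 2 5764607568668262405 0 lev4 4 16 3 0 = true := by
  decide +kernel

theorem piece0_3_8_4 : tree par2 2 5764607568668262405 0 lev4 4 16 3 8 = true := by
  decide +kernel

theorem piece0_11_0_4 : tree par2 2 5764607568668262405 0 lev4 4 16 11 0 = true := by
  decide +kernel

theorem piece0_11_8_4 : tree par2 2 5764607568668262405 0 lev4 4 16 11 8 = true := by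
  decide +kernel

theorem piece0_3_0_3 : tree par2 2 5764607568668262405 0 lev3 3 8 3 0 = true :=
  tree_two piece0_3_0_4 piece0_3_8_4 piece0_11_0_4 piece0_11_8_4

theorem piece0_3_4_4 : tree par2 2 5764607568668262405 0 lev4 4 16 3 4 = true := by
  decide +kernel

theorem piece0_3_12_4 : tree par2 2 5764607568668262405 0 lev4 4 16 3 12 = true := by
  decide +kernel

theorem piece0_11_4_4 : tree par2 2 5764607568668262405 0 lev4 4 16 11 4 = true := by
  decide +kernel

theorem piece0_11_12_5 : tree par2 2 5764607568668262405 0 lev5 5 32 11 12 = true := by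
  decide +kernel

theorem piece0_11_28_5 : tree par2 2 5764607568668262405 0 lev5 5 32 11 28 = true := by
  decide +kernel

theorem piece0_27_12_5 : tree par2 2 5764607568668262405 0 lev5 5 32 27 12 = true := by
  decide +kernel

theorem piece0_27_28_5 : tree par2 2 5764607568668262405 0 lev5 5 32 27 28 = true := by
  decide +kernel

theorem piece0_11_12_4 : tree par2 2 5764607568668262405 0 lev4 4 16 11 12 = true :=
  tree_two piece0_11_12_5 piece0_11_28_5 piece0_27_12_5 piece0_27_28_5

theorem piece0_3_4_3 : tree par2 2 5764607568668262405 0 lev3 3 8 3 4 = true :=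
  tree_two piece0_3_4_4 piece0_3_12_4 piece0_11_4_4 piece0_11_12_4

theorem piece0_7_0_4 : tree par2 2 5764607568668262405 0 lev4 4 16 7 0 = true := by
  decide +kernel

theorem piece0_7_8_4 : tree par2 2 5764607568668262405 0 lev4 4 16 7 8 = true := by
  decide +kernel

theorem piece0_15_0_4 : tree par2 2 5764607568668262405 0 lev4 4 16 15 0 = true := by
  decide +kernel

theorem piece0_15_8_4 : tree par2 2 5764607568668262405 0 lev4 4 16 15 8 = true := by
  decide +kernel

theorem piece0_7_0_3 : tree par2 2 5764607568668262405 0 lev3 3 8 7 0 = true :=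
  tree_two piece0_7_0_4 piece0_7_8_4 piece0_15_0_4 piece0_15_8_4

theorem piece0_7_4_5 : tree par2 2 5764607568668262405 0 lev5 5 32 7 4 = true := by
  decide +kernel

theorem piece0_7_20_6 : tree par2 2 5764607568668262405 0 lev6 6 64 7 20 = true := by
  decide +kernel

theorem piece0_7_52_6 : tree par2 2 5764607568668262405 0 lev6 6 64 7 52 = true := by
  decide +kernel

theorem piece0_39_20_6 : tree par2 2 5764607568668262405 0 lev6 6 64 39 20 = true := by
  decide +kernel

theorem piece0_39_52_6 : tree par2 2 5764607568668262405 0 lev6 6 64 39 52 = true := by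
  decide +kernel

theorem piece0_7_20_5 : tree par2 2 5764607568668262405 0 lev5 5 32 7 20 = true :=
  tree_two piece0_7_20_6 piece0_7_52_6 piece0_39_20_6 piece0_39_52_6

theorem piece0_23_4_5 : tree par2 2 5764607568668262405 0 lev5 5 32 23 4 = true := by
  decide +kernel

theorem piece0_23_20_6 : tree par2 2 5764607568668262405 0 lev6 6 64 23 20 = true := by
  decide +kernel

theorem piece0_23_52_6 : tree par2 2 5764607568668262405 0 lev6 6 64 23 52 = true := by
  decide +kernel

theorem piece0_55_20_6 : tree par2 2 5764607568668262405 0 lev6 6 64 55 20 = true := by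
  decide +kernel

theorem piece0_55_52_6 : tree par2 2 5764607568668262405 0 lev6 6 64 55 52 = true := by
  decide +kernel

theorem piece0_23_20_5 : tree par2 2 5764607568668262405 0 lev5 5 32 23 20 = true :=
  tree_two piece0_23_20_6 piece0_23_52_6 piece0_55_20_6 piece0_55_52_6

theorem piece0_7_4_4 : tree par2 2 5764607568668262405 0 lev4 4 16 7 4 = true :=
  tree_two piece0_7_4_5 piece0_7_20_5 piece0_23_4_5 piece0_23_20_5

theorem piece0_7_12_4 : tree par2 2 5764607568668262405 0 lev4 4 16 7 12 = true := by
  decide +kernel

theorem piece0_15_4_5 : tree par2 2 5764607568668262405 0 lev5 5 32 15 4 = true := by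
  decide +kernel

theorem piece0_15_20_6 : tree par2 2 5764607568668262405 0 lev6 6 64 15 20 = true := by
  decide +kernel

theorem piece0_15_52_6 : tree par2 2 5764607568668262405 0 lev6 6 64 15 52 = true := by
  decide +kernel

theorem piece0_47_20_6 : tree par2 2 5764607568668262405 0 lev6 6 64 47 20 = true := by
  decide +kernel

theorem piece0_47_52_6 : tree par2 2 5764607568668262405 0 lev6 6 64 47 52 = true := by
  decide +kernel

theorem piece0_15_20_5 : tree par2 2 5764607568668262405 0 lev5 5 32 15 20 = true :=
  tree_two piece0_15_20_6 piece0_15_52_6 piece0_47_20_6 piece0_47_52_6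

theorem piece0_31_4_5 : tree par2 2 5764607568668262405 0 lev5 5 32 31 4 = true := by
  decide +kernel

theorem piece0_31_20_6 : tree par2 2 5764607568668262405 0 lev6 6 64 31 20 = true := by
  decide +kernel

theorem piece0_31_52_6 : tree par2 2 5764607568668262405 0 lev6 6 64 31 52 = true := by
  decide +kernel

theorem piece0_63_20_6 : tree par2 2 5764607568668262405 0 lev6 6 64 63 20 = true := by
  decide +kernel

theorem piece0_63_52_6 : tree par2 2 5764607568668262405 0 lev6 6 64 63 52 = true := by
  decide +kernel

theorem piece0_31_20_5 : tree par2 2 5764607568668262405 0 lev5 5 32 31 20 = true :=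
  tree_two piece0_31_20_6 piece0_31_52_6 piece0_63_20_6 piece0_63_52_6

theorem piece0_15_4_4 : tree par2 2 5764607568668262405 0 lev4 4 16 15 4 = true :=
  tree_two piece0_15_4_5 piece0_15_20_5 piece0_31_4_5 piece0_31_20_5

theorem piece0_15_12_4 : tree par2 2 5764607568668262405 0 lev4 4 16 15 12 = true := by
  decide +kernel

theorem piece0_7_4_3 : tree par2 2 5764607568668262405 0 lev3 3 8 7 4 = true :=
  tree_two piece0_7_4_4 piece0_7_12_4 piece0_15_4_4 piece0_15_12_4

theorem piece0_3_0_2 : tree par2 2 5764607568668262405 0 lev2 2 4 3 0 = true :=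
  tree_two piece0_3_0_3 piece0_3_4_3 piece0_7_0_3 piece0_7_4_3

theorem piece0_3_2_3 : tree par2 2 5764607568668262405 0 lev3 3 8 3 2 = true := by
  decide +kernel

theorem piece0_3_6_3 : tree par2 2 5764607568668262405 0 lev3 3 8 3 6 = true := by
  decide +kernel

theorem piece0_7_2_3 : tree par2 2 5764607568668262405 0 lev3 3 8 7 2 = true := by
  decide +kernel

theorem piece0_7_6_3 : tree par2 2 5764607568668262405 0 lev3 3 8 7 6 = true := by
  decide +kernel

theorem piece0_3_2_2 : tree par2 2 5764607568668262405 0 lev2 2 4 3 2 = true :=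
  tree_two piece0_3_2_3 piece0_3_6_3 piece0_7_2_3 piece0_7_6_3

theorem piece0_1_0_1 : tree par2 2 5764607568668262405 0 lev1 1 2 1 0 = true :=
  tree_two piece0_1_0_2 piece0_1_2_2 piece0_3_0_2 piece0_3_2_2

end Pool.Agent.H437.DP.Ex1
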