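import Pool.Agent.H437.DP.Ex1Base

/-!
# Double planes: the surface that requires one Brauer class, points over the prime two
-/

set_option autoImplicit false
set_option maxRecDepth 100000

namespace Pool.Agent.H437.DP.Ex1

theorem piece1_1_0_2 : tree par2 2 5764607568668262405 1 lev2 2 4 1 0 = true := by
  decide +kernel

theorem piece1_1_2_3 : tree par2 2 5764607568668262405 1 lev3 3 8 1 2 = true := by
  decide +kernel

theorem piece1_1_6_3 : tree par2 2 5764607568668262405 1 lev3 3 8 1 6 = true := by
  decide +kernel

theorem piece1_5_2_3 : tree par2 2 5764607568668262405 1 lev3 3 8 5 2 = true := by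
  decide +kernel

theorem piece1_5_6_3 : tree par2 2 5764607568668262405 1 lev3 3 8 5 6 = true := by
  decide +kernel

theorem piece1_1_2_2 : tree par2 2 5764607568668262405 1 lev2 2 4 1 2 = true :=
  tree_two piece1_1_2_3 piece1_1_6_3 piece1_5_2_3 piece1_5_6_3

theorem piece1_3_0_3 : tree par2 2 5764607568668262405 1 lev3 3 8 3 0 = true := by
  decide +kernel

theorem piece1_3_4_4 : tree par2 2 5764607568668262405 1 lev4 4 16 3 4 = true := by
  decide +kernel

theorem piece1_3_12_4 : tree par2 2 5764607568668262405 1 lev4 4 16 3 12 = true := by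
  decide +kernel

theorem piece1_11_4_4 : tree par2 2 5764607568668262405 1 lev4 4 16 11 4 = true := by
  decide +kernel

theorem piece1_11_12_4 : tree par2 2 5764607568668262405 1 lev4 4 16 11 12 = true := by
  decide +kernel

theorem piece1_3_4_3 : tree par2 2 5764607568668262405 1 lev3 3 8 3 4 = true :=
  tree_two piece1_3_4_4 piece1_3_12_4 piece1_11_4_4 piece1_11_12_4

theorem piece1_7_0_4 : tree par2 2 5764607568668262405 1 lev4 4 16 7 0 = true := by
  decide +kernel

theorem piece1_7_8_4 : tree par2 2 5764607568668262405 1 lev4 4 16 7 8 = true := by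
  decide +kernel

theorem piece1_15_0_4 : tree par2 2 5764607568668262405 1 lev4 4 16 15 0 = true := by
  decide +kernel

theorem piece1_15_8_4 : tree par2 2 5764607568668262405 1 lev4 4 16 15 8 = true := by
  decide +kernel

theorem piece1_7_0_3 : tree par2 2 5764607568668262405 1 lev3 3 8 7 0 = true :=
  tree_two piece1_7_0_4 piece1_7_8_4 piece1_15_0_4 piece1_15_8_4

theorem piece1_7_4_3 : tree par2 2 5764607568668262405 1 lev3 3 8 7 4 = true := by
  decide +kernel

theorem piece1_3_0_2 : tree par2 2 5764607568668262405 1 lev2 2 4 3 0 = true :=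
  tree_two piece1_3_0_3 piece1_3_4_3 piece1_7_0_3 piece1_7_4_3

theorem piece1_3_2_2 : tree par2 2 5764607568668262405 1 lev2 2 4 3 2 = true := by
  decide +kernel

theorem piece1_1_0_1 : tree par2 2 5764607568668262405 1 lev1 1 2 1 0 = true :=
  tree_two piece1_1_0_2 piece1_1_2_2 piece1_3_0_2 piece1_3_2_2

end Pool.Agent.H437.DP.Ex1
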