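import Pool.Agent.H437.DP.Ex1A
import Pool.Agent.H437.DP.Ex1B
import Pool.Agent.H437.DP.Ex1C
import Pool.Agent.H437.DP.Ex1D

/-!
# Double planes: a surface that requires one Brauer class
-/

set_option autoImplicit false
set_option maxRecDepth 100000

namespace Pool.Agent.H437.DP.Ex1

open Surface

/-- the surface -/
def surface : Surface where
  a := 289
  b := -514
  d := 589
  α := 17
  β := 8
  m := 1
  n := 4
  κ := -257
  a_eq := by norm_num
  β_eq := by norm_num
  κ_eq := by norm_num
  κ_sq := by norm_num

/-- a ramified prime -/
def p19 : Nat.Primes := ⟨19, by norm_num⟩

theorem check19 : ramCheck ⟨18, 4, 18, 1, 4⟩ 19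
    7215702343680 = true := by
  decide +kernel

/-- points over the completion -/
def wits19 : Wits :=
  [(21, 26, 8, 1, 19),
    (22, 27, 12, 1, 19),
    (24, 7, 11, 1, 19),
    (27, 12, 30, 1, 19),
    (36, 11, 7, 1, 19),
    (39, 8, 26, 1, 19),
    (41, 30, 12, 1, 19),
    (42, 31, 8, 1, 19)]

theorem wit19 : ramWit surface ⟨18, 4, 18, 1, 4⟩ 19
    7215702343680 wits19 = true := by
  decide +kernel

theorem image19 : Image surface p19 7215702343680 :=
  image_ram (e := 31) (by decide) (by decide) (by decide) (by decide +kernel) check19 wit19

/-- a ramified prime -/
def p31 : Nat.Primes := ⟨31, by norm_num⟩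

theorem check31 : ramCheck ⟨30, 10, 13, 1, 4⟩ 31
    2902710697697280 = true := by
  decide +kernel

/-- points over the completion -/
def wits31 : Wits :=
  [(13, 56, 26, 1, 31),
    (15, 26, 56, 1, 31),
    (16, 5, 25, 1, 31),
    (18, 88, 6, 1, 31),
    (44, 25, 5, 1, 31),
    (46, 68, 26, 1, 31),
    (49, 36, 6, 1, 31),
    (51, 6, 36, 1, 31)]

theorem wit31 : ramWit surface ⟨30, 10, 13, 1, 4⟩ 31
    2902710697697280 wits31 = true := by
  decide +kernel

theorem image31 : Image surface p31 2902710697697280 :=
  image_ram (e := 19) (by decide) (by decide) (by decide) (by decide +kernel) check31 wit31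

/-- an inert prime -/
def p2 : Nat.Primes := ⟨2, by norm_num⟩

/-- the sets of the residues -/
def masks2 : List ℕ :=
  [3,
    3,
    49,
    8241,
    540090401,
    2319389130446938145,
    42785177696698406375237213478483664929,
    14559041535765479910522976539185260374118136236137468517542713409889004167201,
    1685821836719149479208596204771089575074364768715566209297166774847281399012365664994165900306283671890627454965875592654503198900896440977994667965554721,
    22603175390833406507159262692936592036204151856344198436544632576210367222534890504356835043748468106190232357615813107100503142680642977522682377594046445033233044311208750280984641711011876340381659710202335474468440232711835570170234868512777513488558701910802434089027330190181008335183491311653759229985]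

theorem mask2 : maskCheck 2 589 masks2 2 = true := by
  decide +kernel

theorem piece0_0_0_1 : tree par2 2 5764607568668262405 0 lev1 1 2 0 0 = true := by
  decide +kernel

theorem piece0_2_1_3 : tree par2 2 5764607568668262405 0 lev3 3 8 2 1 = true := by
  decide +kernel

theorem piece0_2_5_3 : tree par2 2 5764607568668262405 0 lev3 3 8 2 5 = true := by
  decide +kernel

theorem piece0_6_1_3 : tree par2 2 5764607568668262405 0 lev3 3 8 6 1 = true := by
  decide +kernel

theorem piece0_6_5_3 : tree par2 2 5764607568668262405 0 lev3 3 8 6 5 = true := by
  decide +kernel

theorem piece0_2_1_2 : tree par2 2 5764607568668262405 0 lev2 2 4 2 1 = true :=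
  tree_two piece0_2_1_3 piece0_2_5_3 piece0_6_1_3 piece0_6_5_3

theorem piece0_2_3_3 : tree par2 2 5764607568668262405 0 lev3 3 8 2 3 = true := by
  decide +kernel

theorem piece0_2_7_3 : tree par2 2 5764607568668262405 0 lev3 3 8 2 7 = true := by
  decide +kernel

theorem piece0_6_3_3 : tree par2 2 5764607568668262405 0 lev3 3 8 6 3 = true := by
  decide +kernel

theorem piece0_6_7_3 : tree par2 2 5764607568668262405 0 lev3 3 8 6 7 = true := by
  decide +kernel

theorem piece0_2_3_2 : tree par2 2 5764607568668262405 0 lev2 2 4 2 3 = true :=
  tree_two piece0_2_3_3 piece0_2_7_3 piece0_6_3_3 piece0_6_7_3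

theorem piece0_0_1_1 : tree par2 2 5764607568668262405 0 lev1 1 2 0 1 = true :=
  tree_two piece0_0_1_2 piece0_0_3_2 piece0_2_1_2 piece0_2_3_2

theorem piece0_1_1_1 : tree par2 2 5764607568668262405 0 lev1 1 2 1 1 = true := by
  decide +kernel

theorem piece1_0_0_1 : tree par2 2 5764607568668262405 1 lev1 1 2 0 0 = true := by
  decide +kernel

theorem piece2_0_0_1 : tree par2 2 5764607568668262405 2 lev1 1 2 0 0 = true := by
  decide +kernel

theorem check2 : inertCheck ⟨1023, 289, 510, 1, 4⟩ 2
    5764607568668262405 masks2 = true :=
  inertCheck_two piece0_0_0_1 piece0_0_1_1 piece0_1_0_1 piece0_1_1_1 piece1_0_0_1 piece1_1_0_1 piece2_0_0_1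

/-- points over the completion -/
def wits2 : Wits :=
  [(0, 1, 1, 1, 1),
    (2, 5, 5, 6, 8),
    (29, 7, 4, 7, 16),
    (31, 6, 5, 5, 8),
    (33, 5, 6, 5, 8),
    (35, 4, 7, 7, 16),
    (60, 0, 3, 5, 8),
    (62, 7, 7, 4, 16)]

theorem wit2 : inertWit surface ⟨16383, 289, 15870, 1, 4⟩ 2 14
    5764607568668262405 wits2 = true := by
  decide +kernel

theorem image2 : Image surface p2 5764607568668262405 :=
  image_inert (K := 10) (k := 14) (by decide +kernel) (by decide +kernel) (by decide +kernel) rfl
    mask2 check2 (by decide +kernel) wit2

/-- an inert prime -/
def p17 : Nat.Primes := ⟨17, by norm_num⟩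

/-- the sets of the residues -/
def masks17 : List ℕ :=
  [23785,
    180487458778377604459012464846136626117894104577887070543506881406671277047494774643945,
    165633042885965864395177612507793336750906749086430520034390953144563243291368955787244171131040614768483848526537878983383494079568709189602557452925086251504863194119296504152606830919298416458460580083768445291843853013210821049975190736942966449941177602267526392529899944203814059709647901007315365987484879153681300603624659567050557996355466091729822519544671316103436142658233715813522102423642864962919080186545749501696301954476808175448803551605794904556832970768849620724257668499020493442173312430603269362830381734766664656586893875338068903924793480660755533827800350870376438550035800410004626801024767784291071120172076351730176288956408549809996016874030779061453108082930143317026233112927282986464288429837976529725780953207196166873931389190840875149907826621583049837308602565442089972274888848856185903505080941642039811551832559110011374298419639448069316836508597864105589357766634763183680030790615749689985967236619323783239421674185175702626250471700943227799919674266806975213678988655945575956399994001677667129955108687142139687119022608253157866920519400848950185362797372740203580554753393490275554333247789756008848186753150805926616298904699404932940290268197250812494796544514676964872524592574687082241202404275789023807203944165344605300230970691971205566006846125976781769389263508059588102656789383636725951795716438384458711960264749142020045216473018404898744258999957450010860024302090107398105485435969837664879565239604104537507388649]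

theorem mask17 : maskCheck 17 589 masks17 17 = true := by
  decide +kernel

theorem check17 : inertCheck ⟨4912, 289, 4399, 1, 4⟩ 17
    4295036929 masks17 = true := by
  decide +kernel

/-- points over the completion -/
def wits17 : Wits :=
  [(0, 1, 1, 1, 1),
    (12, 0, 17, 1, 17),
    (16, 0, 1, 17, 17),
    (32, 1, 0, 17, 17)]

theorem wit17 : inertWit surface ⟨83520, 289, 83007, 1, 4⟩ 17 4
    4295036929 wits17 = true := by
  decide +kernel

theorem image17 : Image surface p17 4295036929 :=
  image_inert (K := 3) (k := 4) (by decide +kernel) (by decide +kernel) (by decide +kernel) rfl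
    mask17 check17 (by decide +kernel) wit17

/-- the primes with non-trivial invariants -/
def S : Finset Nat.Primes := insert p17 (insert p2 (insert p31 (insert p19 ∅)))

theorem prime_list : ∀ q ∈ ([(2, 0), (3, 1), (5, 2), (7, 1), (13, 2), (17, 0), (19, 0), (31, 0)] : List (ℕ × ℤ)), q.1.Prime := by
  simp only [List.forall_mem_cons, List.not_mem_nil, false_imp_iff, implies_true, and_true]
  norm_num

theorem other (p : Nat.Primes) (hp : p ∉ S) :
    (∀ P : surface.Point ℚ_[(p : ℕ)], HasVec P 0) ∧ Nonempty (surface.Point ℚ_[(p : ℕ)]) := by
  refine others (S := S) (Q := [(2, 0), (3, 1), (5, 2), (7, 1), (13, 2), (17, 0), (19, 0), (31, 0)]) (k := 14) (x := 9) (y := 6) (z := 4) (x' := 23) (y' := 22)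
    (z' := 17) (t := 86583000) (by decide) prime_list (by decide +kernel) (by decide +kernel) ?_ p hp
  exact List.forall_mem_cons.2 ⟨Or.inl ⟨p2, by decide, rfl⟩,
    List.forall_mem_cons.2 ⟨Or.inr (by decide +kernel),
    List.forall_mem_cons.2 ⟨Or.inr (by decide +kernel),
    List.forall_mem_cons.2 ⟨Or.inr (by decide +kernel),
    List.forall_mem_cons.2 ⟨Or.inr (by decide +kernel),
    List.forall_mem_cons.2 ⟨Or.inl ⟨p17, by decide, rfl⟩,
    List.forall_mem_cons.2 ⟨Or.inl ⟨p19, by decide, rfl⟩,
    List.forall_mem_cons.2 ⟨Or.inl ⟨p31, by decide, rfl⟩,
    by simp⟩⟩⟩⟩⟩⟩⟩⟩

theorem nonempty (p : Nat.Primes) : Nonempty (surface.Point ℚ_[(p : ℕ)]) := by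
  by_cases h : p ∈ S
  · simp only [S, Finset.mem_insert, Finset.notMem_empty, or_false] at h
    rcases h with rfl | rfl | rfl | rfl
    · exact image_nonempty image17 (c := 0) (by norm_num) (by decide +kernel)
    · exact image_nonempty image2 (c := 0) (by norm_num) (by decide +kernel)
    · exact image_nonempty image31 (c := 13) (by norm_num) (by decide +kernel)
    · exact image_nonempty image19 (c := 21) (by norm_num) (by decide +kernel)
  · exact (other p h).2

theorem total19 : Total surface (insert p19 ∅) 7215702343680 :=
  total_insert (by decide) image19 (total_empty nonempty) (by decide +kernel)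

theorem total31 : Total surface (insert p31 (insert p19 ∅)) 1148435428713435120 :=
  total_insert (by decide) image31 total19 (by decide +kernel)

theorem total2 : Total surface (insert p2 (insert p31 (insert p19 ∅))) 1148435428713435120 :=
  total_insert (by decide) image2 total31 (by decide +kernel)

theorem total17 : Total surface (insert p17 (insert p2 (insert p31 (insert p19 ∅)))) 1148435428713435120 :=
  total_insert (by decide) image17 total2 (by decide +kernel)

theorem requires : surface.Requires 1 :=
  requires_of (S := S) (T := 1148435428713435120) (es := [24]) (by decide) nonempty (fun p hp => (other p hp).1)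
    total17 (by norm_num) (by decide +kernel) (by decide +kernel) (by decide +kernel)

theorem almostTrivial : surface.AlmostTrivial :=
  almostTrivial_of (S := S) fun p hp => (other p hp).1

theorem smooth : surface.Smooth := smooth_of (by decide) (by decide) (by decide) (by decide)

theorem unramified : surface.Unramified := DP.unramified (by decide +kernel) (by decide)

end Pool.Agent.H437.DP.Ex1
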