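import Pool.Agent.H437.DP.Ex1Base

/-!
# Double planes: the surface that requires one Brauer class, points over the prime two
-/

set_option autoImplicit false
set_option maxRecDepth 100000

namespace Pool.Agent.H437.DP.Ex1

theorem piece0_0_1_4 : tree par2 2 5764607568668262405 0 lev4 4 16 0 1 = true := by
  decide +kernel

theorem piece0_0_9_4 : tree par2 2 5764607568668262405 0 lev4 4 16 0 9 = true := by
  decide +kernel

theorem piece0_8_1_4 : tree par2 2 5764607568668262405 0 lev4 4 16 8 1 = true := by
  decide +kernel

theorem piece0_8_9_4 : tree par2 2 5764607568668262405 0 lev4 4 16 8 9 = true := by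
  decide +kernel

theorem piece0_0_1_3 : tree par2 2 5764607568668262405 0 lev3 3 8 0 1 = true :=
  tree_two piece0_0_1_4 piece0_0_9_4 piece0_8_1_4 piece0_8_9_4

theorem piece0_0_5_4 : tree par2 2 5764607568668262405 0 lev4 4 16 0 5 = true := by
  decide +kernel

theorem piece0_0_13_4 : tree par2 2 5764607568668262405 0 lev4 4 16 0 13 = true := by
  decide +kernel

theorem piece0_8_5_4 : tree par2 2 5764607568668262405 0 lev4 4 16 8 5 = true := by
  decide +kernel

theorem piece0_8_13_4 : tree par2 2 5764607568668262405 0 lev4 4 16 8 13 = true := by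
  decide +kernel

theorem piece0_0_5_3 : tree par2 2 5764607568668262405 0 lev3 3 8 0 5 = true :=
  tree_two piece0_0_5_4 piece0_0_13_4 piece0_8_5_4 piece0_8_13_4

theorem piece0_4_1_5 : tree par2 2 5764607568668262405 0 lev5 5 32 4 1 = true := by
  decide +kernel

theorem piece0_4_17_5 : tree par2 2 5764607568668262405 0 lev5 5 32 4 17 = true := by
  decide +kernel

theorem piece0_20_1_6 : tree par2 2 5764607568668262405 0 lev6 6 64 20 1 = true := by
  decide +kernel

theorem piece0_20_33_6 : tree par2 2 5764607568668262405 0 lev6 6 64 20 33 = true := by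
  decide +kernel

theorem piece0_52_1_6 : tree par2 2 5764607568668262405 0 lev6 6 64 52 1 = true := by
  decide +kernel

theorem piece0_52_33_6 : tree par2 2 5764607568668262405 0 lev6 6 64 52 33 = true := by
  decide +kernel

theorem piece0_20_1_5 : tree par2 2 5764607568668262405 0 lev5 5 32 20 1 = true :=
  tree_two piece0_20_1_6 piece0_20_33_6 piece0_52_1_6 piece0_52_33_6

theorem piece0_20_17_6 : tree par2 2 5764607568668262405 0 lev6 6 64 20 17 = true := by
  decide +kernel

theorem piece0_20_49_6 : tree par2 2 5764607568668262405 0 lev6 6 64 20 49 = true := by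
  decide +kernel

theorem piece0_52_17_6 : tree par2 2 5764607568668262405 0 lev6 6 64 52 17 = true := by
  decide +kernel

theorem piece0_52_49_6 : tree par2 2 5764607568668262405 0 lev6 6 64 52 49 = true := by
  decide +kernel

theorem piece0_20_17_5 : tree par2 2 5764607568668262405 0 lev5 5 32 20 17 = true :=
  tree_two piece0_20_17_6 piece0_20_49_6 piece0_52_17_6 piece0_52_49_6

theorem piece0_4_1_4 : tree par2 2 5764607568668262405 0 lev4 4 16 4 1 = true :=
  tree_two piece0_4_1_5 piece0_4_17_5 piece0_20_1_5 piece0_20_17_5

theorem piece0_4_9_5 : tree par2 2 5764607568668262405 0 lev5 5 32 4 9 = true := by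
  decide +kernel

theorem piece0_4_25_5 : tree par2 2 5764607568668262405 0 lev5 5 32 4 25 = true := by
  decide +kernel

theorem piece0_20_9_6 : tree par2 2 5764607568668262405 0 lev6 6 64 20 9 = true := by
  decide +kernel

theorem piece0_20_41_6 : tree par2 2 5764607568668262405 0 lev6 6 64 20 41 = true := by
  decide +kernel

theorem piece0_52_9_6 : tree par2 2 5764607568668262405 0 lev6 6 64 52 9 = true := by
  decide +kernel

theorem piece0_52_41_6 : tree par2 2 5764607568668262405 0 lev6 6 64 52 41 = true := by
  decide +kernel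

theorem piece0_20_9_5 : tree par2 2 5764607568668262405 0 lev5 5 32 20 9 = true :=
  tree_two piece0_20_9_6 piece0_20_41_6 piece0_52_9_6 piece0_52_41_6

theorem piece0_20_25_6 : tree par2 2 5764607568668262405 0 lev6 6 64 20 25 = true := by
  decide +kernel

theorem piece0_20_57_6 : tree par2 2 5764607568668262405 0 lev6 6 64 20 57 = true := by
  decide +kernel

theorem piece0_52_25_6 : tree par2 2 5764607568668262405 0 lev6 6 64 52 25 = true := by
  decide +kernel

theorem piece0_52_57_6 : tree par2 2 5764607568668262405 0 lev6 6 64 52 57 = true := by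
  decide +kernel

theorem piece0_20_25_5 : tree par2 2 5764607568668262405 0 lev5 5 32 20 25 = true :=
  tree_two piece0_20_25_6 piece0_20_57_6 piece0_52_25_6 piece0_52_57_6

theorem piece0_4_9_4 : tree par2 2 5764607568668262405 0 lev4 4 16 4 9 = true :=
  tree_two piece0_4_9_5 piece0_4_25_5 piece0_20_9_5 piece0_20_25_5

theorem piece0_12_1_6 : tree par2 2 5764607568668262405 0 lev6 6 64 12 1 = true := by
  decide +kernel

theorem piece0_12_33_6 : tree par2 2 5764607568668262405 0 lev6 6 64 12 33 = true := by
  decide +kernel

theorem piece0_44_1_6 : tree par2 2 5764607568668262405 0 lev6 6 64 44 1 = true := by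
  decide +kernel

theorem piece0_44_33_6 : tree par2 2 5764607568668262405 0 lev6 6 64 44 33 = true := by
  decide +kernel

theorem piece0_12_1_5 : tree par2 2 5764607568668262405 0 lev5 5 32 12 1 = true :=
  tree_two piece0_12_1_6 piece0_12_33_6 piece0_44_1_6 piece0_44_33_6

theorem piece0_12_17_6 : tree par2 2 5764607568668262405 0 lev6 6 64 12 17 = true := by
  decide +kernel

theorem piece0_12_49_6 : tree par2 2 5764607568668262405 0 lev6 6 64 12 49 = true := by
  decide +kernel

theorem piece0_44_17_6 : tree par2 2 5764607568668262405 0 lev6 6 64 44 17 = true := by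
  decide +kernel

theorem piece0_44_49_6 : tree par2 2 5764607568668262405 0 lev6 6 64 44 49 = true := by
  decide +kernel

theorem piece0_12_17_5 : tree par2 2 5764607568668262405 0 lev5 5 32 12 17 = true :=
  tree_two piece0_12_17_6 piece0_12_49_6 piece0_44_17_6 piece0_44_49_6

theorem piece0_28_1_5 : tree par2 2 5764607568668262405 0 lev5 5 32 28 1 = true := by
  decide +kernel

theorem piece0_28_17_5 : tree par2 2 5764607568668262405 0 lev5 5 32 28 17 = true := by
  decide +kernel

theorem piece0_12_1_4 : tree par2 2 5764607568668262405 0 lev4 4 16 12 1 = true :=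
  tree_two piece0_12_1_5 piece0_12_17_5 piece0_28_1_5 piece0_28_17_5

theorem piece0_12_9_6 : tree par2 2 5764607568668262405 0 lev6 6 64 12 9 = true := by
  decide +kernel

theorem piece0_12_41_6 : tree par2 2 5764607568668262405 0 lev6 6 64 12 41 = true := by
  decide +kernel

theorem piece0_44_9_6 : tree par2 2 5764607568668262405 0 lev6 6 64 44 9 = true := by
  decide +kernel

theorem piece0_44_41_6 : tree par2 2 5764607568668262405 0 lev6 6 64 44 41 = true := by
  decide +kernel

theorem piece0_12_9_5 : tree par2 2 5764607568668262405 0 lev5 5 32 12 9 = true :=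
  tree_two piece0_12_9_6 piece0_12_41_6 piece0_44_9_6 piece0_44_41_6

theorem piece0_12_25_6 : tree par2 2 5764607568668262405 0 lev6 6 64 12 25 = true := by
  decide +kernel

theorem piece0_12_57_6 : tree par2 2 5764607568668262405 0 lev6 6 64 12 57 = true := by
  decide +kernel

theorem piece0_44_25_6 : tree par2 2 5764607568668262405 0 lev6 6 64 44 25 = true := by
  decide +kernel

theorem piece0_44_57_6 : tree par2 2 5764607568668262405 0 lev6 6 64 44 57 = true := by
  decide +kernel

theorem piece0_12_25_5 : tree par2 2 5764607568668262405 0 lev5 5 32 12 25 = true :=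
  tree_two piece0_12_25_6 piece0_12_57_6 piece0_44_25_6 piece0_44_57_6

theorem piece0_28_9_5 : tree par2 2 5764607568668262405 0 lev5 5 32 28 9 = true := by
  decide +kernel

theorem piece0_28_25_5 : tree par2 2 5764607568668262405 0 lev5 5 32 28 25 = true := by
  decide +kernel

theorem piece0_12_9_4 : tree par2 2 5764607568668262405 0 lev4 4 16 12 9 = true :=
  tree_two piece0_12_9_5 piece0_12_25_5 piece0_28_9_5 piece0_28_25_5

theorem piece0_4_1_3 : tree par2 2 5764607568668262405 0 lev3 3 8 4 1 = true :=
  tree_two piece0_4_1_4 piece0_4_9_4 piece0_12_1_4 piece0_12_9_4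

theorem piece0_4_5_5 : tree par2 2 5764607568668262405 0 lev5 5 32 4 5 = true := by
  decide +kernel

theorem piece0_4_21_5 : tree par2 2 5764607568668262405 0 lev5 5 32 4 21 = true := by
  decide +kernel

theorem piece0_20_5_5 : tree par2 2 5764607568668262405 0 lev5 5 32 20 5 = true := by
  decide +kernel

theorem piece0_20_21_5 : tree par2 2 5764607568668262405 0 lev5 5 32 20 21 = true := by
  decide +kernel

theorem piece0_4_5_4 : tree par2 2 5764607568668262405 0 lev4 4 16 4 5 = true :=
  tree_two piece0_4_5_5 piece0_4_21_5 piece0_20_5_5 piece0_20_21_5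

theorem piece0_4_13_5 : tree par2 2 5764607568668262405 0 lev5 5 32 4 13 = true := by
  decide +kernel

theorem piece0_4_29_5 : tree par2 2 5764607568668262405 0 lev5 5 32 4 29 = true := by
  decide +kernel

theorem piece0_20_13_5 : tree par2 2 5764607568668262405 0 lev5 5 32 20 13 = true := by
  decide +kernel

theorem piece0_20_29_5 : tree par2 2 5764607568668262405 0 lev5 5 32 20 29 = true := by
  decide +kernel

theorem piece0_4_13_4 : tree par2 2 5764607568668262405 0 lev4 4 16 4 13 = true :=
  tree_two piece0_4_13_5 piece0_4_29_5 piece0_20_13_5 piece0_20_29_5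

theorem piece0_12_5_4 : tree par2 2 5764607568668262405 0 lev4 4 16 12 5 = true := by
  decide +kernel

theorem piece0_12_13_5 : tree par2 2 5764607568668262405 0 lev5 5 32 12 13 = true := by
  decide +kernel

theorem piece0_12_29_5 : tree par2 2 5764607568668262405 0 lev5 5 32 12 29 = true := by
  decide +kernel

theorem piece0_28_13_5 : tree par2 2 5764607568668262405 0 lev5 5 32 28 13 = true := by
  decide +kernel

theorem piece0_28_29_5 : tree par2 2 5764607568668262405 0 lev5 5 32 28 29 = true := by
  decide +kernel

theorem piece0_12_13_4 : tree par2 2 5764607568668262405 0 lev4 4 16 12 13 = true :=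
  tree_two piece0_12_13_5 piece0_12_29_5 piece0_28_13_5 piece0_28_29_5

theorem piece0_4_5_3 : tree par2 2 5764607568668262405 0 lev3 3 8 4 5 = true :=
  tree_two piece0_4_5_4 piece0_4_13_4 piece0_12_5_4 piece0_12_13_4

theorem piece0_0_1_2 : tree par2 2 5764607568668262405 0 lev2 2 4 0 1 = true :=
  tree_two piece0_0_1_3 piece0_0_5_3 piece0_4_1_3 piece0_4_5_3

end Pool.Agent.H437.DP.Ex1
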