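import Pool.Agent.H437.DP.Make

/-!
# Double planes: a surface that requires 2 Brauer classes
-/

set_option autoImplicit false
set_option maxRecDepth 100000

namespace Pool.Agent.H437.DP.Ex2

open Surface

/-- the surface -/
def surface : Surface where
  a := 25
  b := -41
  d := 17917
  α := 5
  β := 3
  m := 1
  n := 3
  κ := -41
  a_eq := by norm_num
  β_eq := by norm_num
  κ_eq := by norm_num
  κ_sq := by norm_num

/-- a ramified prime -/
def p19 : Nat.Primes := ⟨19, by norm_num⟩

theorem check19 : ramCheck ⟨18, 6, 16, 1, 3⟩ 19
    9799833373282699264 = true := by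
  decide +kernel

/-- points over the completion -/
def wits19 : Wits :=
  [(11, 27, 7, 1, 19),
    (15, 7, 27, 1, 19),
    (19, 26, 11, 1, 19),
    (23, 11, 31, 1, 19),
    (35, 31, 11, 1, 19),
    (39, 30, 7, 1, 19),
    (59, 8, 12, 1, 19),
    (63, 12, 8, 1, 19)]

theorem wit19 : ramWit surface ⟨18, 6, 16, 1, 3⟩ 19
    9799833373282699264 wits19 = true := by
  decide +kernel

theorem image19 : Image surface p19 9799833373282699264 :=
  image_ram (e := 943) (by decide) (by decide) (by decide) (by decide +kernel) check19 wit19

/-- a ramified prime -/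
def p23 : Nat.Primes := ⟨23, by norm_num⟩

theorem check23 : ramCheck ⟨22, 2, 5, 1, 3⟩ 23
    2477828005465375061 = true := by
  decide +kernel

/-- points over the completion -/
def wits23 : Wits :=
  [(0, 11, 6, 1, 23),
    (2, 19, 21, 1, 23),
    (4, 21, 19, 1, 23),
    (6, 6, 11, 1, 23),
    (8, 21, 4, 1, 23),
    (14, 4, 21, 1, 23),
    (16, 35, 17, 1, 23),
    (17, 126, 2, 1, 23),
    (18, 4, 25, 1, 23),
    (22, 40, 11, 1, 23),
    (29, 12, 2, 1, 23),
    (30, 19, 2, 1, 23),
    (32, 34, 17, 1, 23),
    (36, 25, 4, 1, 23),
    (37, 2, 12, 1, 23),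
    (38, 40, 12, 1, 23),
    (40, 2, 19, 1, 23),
    (41, 117, 11, 1, 23),
    (48, 35, 6, 1, 23),
    (49, 11, 21, 1, 23),
    (53, 44, 12, 1, 23),
    (54, 29, 12, 1, 23),
    (57, 21, 11, 1, 23),
    (61, 35, 21, 1, 23)]

theorem wit23 : ramWit surface ⟨22, 2, 5, 1, 3⟩ 23
    2477828005465375061 wits23 = true := by
  decide +kernel

theorem image23 : Image surface p23 2477828005465375061 :=
  image_ram (e := 779) (by decide) (by decide) (by decide) (by decide +kernel) check23 wit23

/-- a ramified prime -/
def p41 : Nat.Primes := ⟨41, by norm_num⟩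

theorem check41 : ramCheck ⟨40, 25, 0, 1, 3⟩ 41
    1153202984146964481 = true := by
  decide +kernel

/-- points over the completion -/
def wits41 : Wits :=
  [(0, 96, 0, 1, 41),
    (12, 0, 96, 1, 41),
    (28, 44, 1, 0, 41),
    (32, 96, 1, 0, 41),
    (48, 0, 44, 1, 41),
    (60, 44, 0, 1, 41)]

theorem wit41 : ramWit surface ⟨40, 25, 0, 1, 3⟩ 41
    1153202984146964481 wits41 = true := by
  decide +kernel

theorem image41 : Image surface p41 1153202984146964481 :=
  image_ram (e := 437) (by decide) (by decide) (by decide) (by decide +kernel) check41 wit41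

/-- an inert prime -/
def p2 : Nat.Primes := ⟨2, by norm_num⟩

/-- the sets of the residues -/
def masks2 : List ℕ :=
  [3,
    3,
    49,
    8241,
    540090401,
    2319389130446938145,
    42785177696698406375237213478483664929]

theorem mask2 : maskCheck 2 125 masks2 2 = true := by
  decide +kernel

theorem check2 : inertCheck ⟨127, 25, 87, 1, 3⟩ 2
    4504703450812432 masks2 = true := by
  decide +kernel

/-- points over the completion -/
def wits2 : Wits :=
  [(4, 3, 3, 5, 4),
    (12, 0, 2, 1, 1),
    (16, 0, 1, 2, 1),
    (24, 3, 5, 3, 4),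
    (32, 1, 0, 2, 1),
    (40, 3, 5, 5, 4),
    (52, 1, 1, 1, 4)]

theorem wit2 : inertWit surface ⟨16383, 25, 16343, 1, 3⟩ 2 14
    4504703450812432 wits2 = true := by
  decide +kernel

theorem image2 : Image surface p2 4504703450812432 :=
  image_inert (K := 7) (k := 14) (by decide +kernel) (by decide +kernel) (by decide +kernel) rfl
    mask2 check2 (by decide +kernel) wit2

/-- an inert prime -/
def p5 : Nat.Primes := ⟨5, by norm_num⟩

/-- the sets of the residues -/
def masks5 : List ℕ :=
  [13,
    12988813,
    16465275818755124720709179539250885005]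

theorem mask5 : maskCheck 5 42 masks5 5 = true := by
  decide +kernel

theorem check5 : inertCheck ⟨124, 25, 84, 1, 3⟩ 5
    4295036929 masks5 = true := by
  decide +kernel

/-- points over the completion -/
def wits5 : Wits :=
  [(0, 1, 1, 1, 1),
    (12, 0, 5, 2, 5),
    (16, 0, 2, 5, 5),
    (32, 2, 0, 5, 5)]

theorem wit5 : inertWit surface ⟨78124, 25, 78084, 1, 3⟩ 5 7
    4295036929 wits5 = true := by
  decide +kernel

theorem image5 : Image surface p5 4295036929 :=
  image_inert (K := 3) (k := 7) (by decide +kernel) (by decide +kernel) (by decide +kernel) rfl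
    mask5 check5 (by decide +kernel) wit5

/-- the primes with non-trivial invariants -/
def S : Finset Nat.Primes := insert p5 (insert p2 (insert p41 (insert p23 (insert p19 ∅))))

theorem prime_list : ∀ q ∈ ([(2, 0), (3, 1), (5, 0), (7, 2), (13, 4), (19, 0), (23, 0), (41, 0)] : List (ℕ × ℤ)), q.1.Prime := by
  simp only [List.forall_mem_cons, List.not_mem_nil, false_imp_iff, implies_true, and_true]
  norm_num

theorem other (p : Nat.Primes) (hp : p ∉ S) :
    (∀ P : surface.Point ℚ_[(p : ℕ)], HasVec P 0) ∧ Nonempty (surface.Point ℚ_[(p : ℕ)]) := by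
  refine others (S := S) (Q := [(2, 0), (3, 1), (5, 0), (7, 2), (13, 4), (19, 0), (23, 0), (41, 0)]) (k := 8) (x := 25) (y := 19) (z := 15) (x' := 41) (y' := 33)
    (z' := 17) (t := 632111760) (by decide) prime_list (by decide +kernel) (by decide +kernel) ?_ p hp
  exact List.forall_mem_cons.2 ⟨Or.inl ⟨p2, by decide, rfl⟩,
    List.forall_mem_cons.2 ⟨Or.inr (by decide +kernel),
    List.forall_mem_cons.2 ⟨Or.inl ⟨p5, by decide, rfl⟩,
    List.forall_mem_cons.2 ⟨Or.inr (by decide +kernel),
    List.forall_mem_cons.2 ⟨Or.inr (by decide +kernel),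
    List.forall_mem_cons.2 ⟨Or.inl ⟨p19, by decide, rfl⟩,
    List.forall_mem_cons.2 ⟨Or.inl ⟨p23, by decide, rfl⟩,
    List.forall_mem_cons.2 ⟨Or.inl ⟨p41, by decide, rfl⟩,
    by simp⟩⟩⟩⟩⟩⟩⟩⟩

theorem nonempty (p : Nat.Primes) : Nonempty (surface.Point ℚ_[(p : ℕ)]) := by
  by_cases h : p ∈ S
  · simp only [S, Finset.mem_insert, Finset.notMem_empty, or_false] at h
    rcases h with rfl | rfl | rfl | rfl | rfl
    · exact image_nonempty image5 (c := 0) (by norm_num) (by decide +kernel)
    · exact image_nonempty image2 (c := 4) (by norm_num) (by decide +kernel)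
    · exact image_nonempty image41 (c := 0) (by norm_num) (by decide +kernel)
    · exact image_nonempty image23 (c := 0) (by norm_num) (by decide +kernel)
    · exact image_nonempty image19 (c := 11) (by norm_num) (by decide +kernel)
  · exact (other p h).2

theorem total19 : Total surface (insert p19 ∅) 9799833373282699264 :=
  total_insert (by decide) image19 (total_empty nonempty) (by decide +kernel)

theorem total23 : Total surface (insert p23 (insert p19 ∅)) 17216961135462248174 :=
  total_insert (by decide) image23 total19 (by decide +kernel)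

theorem total41 : Total surface (insert p41 (insert p23 (insert p19 ∅))) 17216961135462248174 :=
  total_insert (by decide) image41 total23 (by decide +kernel)

theorem total2 : Total surface (insert p2 (insert p41 (insert p23 (insert p19 ∅)))) 17216961135462248174 :=
  total_insert (by decide) image2 total41 (by decide +kernel)

theorem total5 : Total surface (insert p5 (insert p2 (insert p41 (insert p23 (insert p19 ∅))))) 17216961135462248174 :=
  total_insert (by decide) image5 total2 (by decide +kernel)

theorem requires : surface.Requires 2 :=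
  requires_of (S := S) (T := 17216961135462248174) (es := [3, 5]) (by decide) nonempty (fun p hp => (other p hp).1)
    total5 (by norm_num) (by decide +kernel) (by decide +kernel) (by decide +kernel)

theorem almostTrivial : surface.AlmostTrivial :=
  almostTrivial_of (S := S) fun p hp => (other p hp).1

theorem smooth : surface.Smooth := smooth_of (by decide) (by decide) (by decide) (by decide)

theorem unramified : surface.Unramified := DP.unramified (by decide +kernel) (by decide)

theorem indep : indepCheck [2477828005465375061] := by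
  unfold indepCheck
  decide +kernel

theorem independent : surface.Independent := independent_of indep
  (List.forall_mem_cons.2 ⟨⟨p23, image23⟩, by simp⟩)

end Pool.Agent.H437.DP.Ex2
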