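import Pool.Agent.H437.DP.Make

/-!
# Double planes: a surface that requires 3 Brauer classes
-/

set_option autoImplicit false
set_option maxRecDepth 100000

namespace Pool.Agent.H437.DP.Ex3

open Surface

/-- the surface -/
def surface : Surface where
  a := 25
  b := -34
  d := 4141
  α := 5
  β := 4
  m := 1
  n := 2
  κ := -17
  a_eq := by norm_num
  β_eq := by norm_num
  κ_eq := by norm_num
  κ_sq := by norm_num

/-- a ramified prime -/
def p41 : Nat.Primes := ⟨41, by norm_num⟩

theorem check41 : ramCheck ⟨40, 25, 7, 1, 2⟩ 41
    2885118511587328 = true := by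
  decide +kernel

/-- points over the completion -/
def wits41 : Wits :=
  [(13, 7, 0, 1, 41),
    (15, 0, 7, 1, 41),
    (18, 7, 1, 0, 41),
    (46, 6, 42, 0, 41),
    (49, 88, 0, 1, 41),
    (51, 0, 88, 1, 41)]

theorem wit41 : ramWit surface ⟨40, 25, 7, 1, 2⟩ 41
    2885118511587328 wits41 = true := by
  decide +kernel

theorem image41 : Image surface p41 2885118511587328 :=
  image_ram (e := 101) (by decide) (by decide) (by decide) (by decide +kernel) check41 wit41

/-- a ramified prime -/
def p101 : Nat.Primes := ⟨101, by norm_num⟩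

theorem check101 : ramCheck ⟨100, 25, 67, 1, 2⟩ 101
    2225216815815466721 = true := by
  decide +kernel

/-- points over the completion -/
def wits101 : Wits :=
  [(0, 40, 0, 1, 101),
    (5, 139, 25, 1, 101),
    (6, 4, 151, 1, 101),
    (7, 126, 38, 1, 101),
    (9, 17, 68, 1, 101),
    (10, 151, 4, 1, 101),
    (11, 68, 17, 1, 101),
    (12, 0, 40, 1, 101),
    (19, 11, 61, 1, 101),
    (21, 8, 103, 1, 101),
    (22, 4, 152, 1, 101),
    (23, 25, 164, 1, 101),
    (25, 6, 4, 1, 101),
    (26, 151, 97, 1, 101),
    (27, 68, 185, 1, 101),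
    (28, 149, 1, 0, 101),
    (29, 141, 11, 1, 101),
    (30, 22, 147, 1, 101),
    (32, 40, 1, 0, 101),
    (33, 48, 23, 1, 101),
    (34, 123, 55, 1, 101),
    (37, 320, 33, 1, 101),
    (38, 49, 76, 1, 101),
    (39, 103, 8, 1, 101),
    (41, 139, 76, 1, 101),
    (42, 25, 52, 1, 101),
    (43, 4, 6, 1, 101),
    (47, 112, 40, 1, 101),
    (48, 0, 149, 1, 101),
    (53, 107, 97, 1, 101),
    (54, 150, 25, 1, 101),
    (55, 103, 93, 1, 101),
    (57, 8, 99, 1, 101),
    (58, 126, 49, 1, 101),
    (59, 4, 95, 1, 101),
    (60, 149, 0, 1, 101)]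

theorem wit101 : ramWit surface ⟨100, 25, 67, 1, 2⟩ 101
    2225216815815466721 wits101 = true := by
  decide +kernel

theorem image101 : Image surface p101 2225216815815466721 :=
  image_ram (e := 41) (by decide) (by decide) (by decide) (by decide +kernel) check101 wit101

/-- an inert prime -/
def p2 : Nat.Primes := ⟨2, by norm_num⟩

/-- the sets of the residues -/
def masks2 : List ℕ :=
  [3,
    3,
    49,
    8241,
    540090401,
    2319389130446938145,
    42785177696698406375237213478483664929]

theorem mask2 : maskCheck 2 45 masks2 2 = true := by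
  decide +kernel

theorem check2 : inertCheck ⟨127, 25, 94, 1, 2⟩ 2
    4611686064061415429 masks2 = true := by
  decide +kernel

/-- points over the completion -/
def wits2 : Wits :=
  [(0, 1, 1, 1, 1),
    (2, 1, 3, 0, 4),
    (29, 1, 4, 1, 4),
    (31, 0, 1, 3, 4),
    (33, 1, 0, 3, 4),
    (35, 4, 1, 1, 4),
    (62, 1, 1, 4, 4)]

theorem wit2 : inertWit surface ⟨16383, 25, 16350, 1, 2⟩ 2 14
    4611686064061415429 wits2 = true := by
  decide +kernel

theorem image2 : Image surface p2 4611686064061415429 :=
  image_inert (K := 7) (k := 14) (by decide +kernel) (by decide +kernel) (by decide +kernel) rfl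
    mask2 check2 (by decide +kernel) wit2

/-- the primes with non-trivial invariants -/
def S : Finset Nat.Primes := insert p2 (insert p101 (insert p41 ∅))

theorem prime_list : ∀ q ∈ ([(2, 0), (3, 1), (5, 1), (7, 2), (41, 0), (101, 0), (8941, 2875)] : List (ℕ × ℤ)), q.1.Prime := by
  simp only [List.forall_mem_cons, List.not_mem_nil, false_imp_iff, implies_true, and_true]
  norm_num

theorem other (p : Nat.Primes) (hp : p ∉ S) :
    (∀ P : surface.Point ℚ_[(p : ℕ)], HasVec P 0) ∧ Nonempty (surface.Point ℚ_[(p : ℕ)]) := by
  refine others (S := S) (Q := [(2, 0), (3, 1), (5, 1), (7, 2), (41, 0), (101, 0), (8941, 2875)]) (k := 11) (x := 27) (y := 12) (z := 11) (x' := 36) (y' := 11)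
    (z' := 0) (t := 1036691068) (by decide) prime_list (by decide +kernel) (by decide +kernel) ?_ p hp
  exact List.forall_mem_cons.2 ⟨Or.inl ⟨p2, by decide, rfl⟩,
    List.forall_mem_cons.2 ⟨Or.inr (by decide +kernel),
    List.forall_mem_cons.2 ⟨Or.inr (by decide +kernel),
    List.forall_mem_cons.2 ⟨Or.inr (by decide +kernel),
    List.forall_mem_cons.2 ⟨Or.inl ⟨p41, by decide, rfl⟩,
    List.forall_mem_cons.2 ⟨Or.inl ⟨p101, by decide, rfl⟩,
    List.forall_mem_cons.2 ⟨Or.inr (by decide +kernel),
    by simp⟩⟩⟩⟩⟩⟩⟩

theorem nonempty (p : Nat.Primes) : Nonempty (surface.Point ℚ_[(p : ℕ)]) := by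
  by_cases h : p ∈ S
  · simp only [S, Finset.mem_insert, Finset.notMem_empty, or_false] at h
    rcases h with rfl | rfl | rfl
    · exact image_nonempty image2 (c := 0) (by norm_num) (by decide +kernel)
    · exact image_nonempty image101 (c := 0) (by norm_num) (by decide +kernel)
    · exact image_nonempty image41 (c := 13) (by norm_num) (by decide +kernel)
  · exact (other p h).2

theorem total41 : Total surface (insert p41 ∅) 2885118511587328 :=
  total_insert (by decide) image41 (total_empty nonempty) (by decide +kernel)

theorem total101 : Total surface (insert p101 (insert p41 ∅)) 12682136505041289210 :=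
  total_insert (by decide) image101 total41 (by decide +kernel)

theorem total2 : Total surface (insert p2 (insert p101 (insert p41 ∅))) 12682136505041289210 :=
  total_insert (by decide) image2 total101 (by decide +kernel)

theorem requires : surface.Requires 3 :=
  requires_of (S := S) (T := 12682136505041289210) (es := [24, 40, 75]) (by decide) nonempty (fun p hp => (other p hp).1)
    total2 (by norm_num) (by decide +kernel) (by decide +kernel) (by decide +kernel)

theorem almostTrivial : surface.AlmostTrivial :=
  almostTrivial_of (S := S) fun p hp => (other p hp).1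

theorem smooth : surface.Smooth := smooth_of (by decide) (by decide) (by decide) (by decide)

theorem unramified : surface.Unramified := DP.unramified (by decide +kernel) (by decide)

theorem indep : indepCheck [2225216815815466721] := by
  unfold indepCheck
  decide +kernel

theorem independent : surface.Independent := independent_of indep
  (List.forall_mem_cons.2 ⟨⟨p101, image101⟩, by simp⟩)

end Pool.Agent.H437.DP.Ex3
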