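import Pool.Agent.H437.DP.Make

/-!
# Double planes: a surface that requires 4 Brauer classes
-/

set_option autoImplicit false
set_option maxRecDepth 100000

namespace Pool.Agent.H437.DP.Ex4

open Surface

/-- the surface -/
def surface : Surface where
  a := 25
  b := -41
  d := 3649
  α := 5
  β := 3
  m := 1
  n := 3
  κ := -41
  a_eq := by norm_num
  β_eq := by norm_num
  κ_eq := by norm_num
  κ_sq := by norm_num

/-- a ramified prime -/
def p41 : Nat.Primes := ⟨41, by norm_num⟩

theorem check41 : ramCheck ⟨40, 25, 0, 1, 3⟩ 41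
    1153202984146964481 = true := by
  decide +kernel

/-- points over the completion -/
def wits41 : Wits :=
  [(0, 96, 0, 1, 41),
    (12, 0, 96, 1, 41),
    (28, 44, 1, 0, 41),
    (32, 96, 1, 0, 41),
    (48, 0, 44, 1, 41),
    (60, 44, 0, 1, 41)]

theorem wit41 : ramWit surface ⟨40, 25, 0, 1, 3⟩ 41
    1153202984146964481 wits41 = true := by
  decide +kernel

theorem image41 : Image surface p41 1153202984146964481 :=
  image_ram (e := 89) (by decide) (by decide) (by decide) (by decide +kernel) check41 wit41

/-- a ramified prime -/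
def p89 : Nat.Primes := ⟨89, by norm_num⟩

theorem check89 : ramCheck ⟨88, 25, 48, 1, 3⟩ 89
    17213952844267474670 = true := by
  decide +kernel

/-- points over the completion -/
def wits89 : Wits :=
  [(1, 16, 99, 1, 89),
    (2, 10, 140, 1, 89),
    (3, 7, 159, 1, 89),
    (5, 54, 120, 1, 89),
    (6, 66, 85, 1, 89),
    (7, 120, 54, 1, 89),
    (9, 15, 22, 1, 89),
    (10, 29, 85, 1, 89),
    (11, 22, 15, 1, 89),
    (14, 9, 55, 1, 89),
    (16, 0, 108, 1, 89),
    (17, 14, 9, 1, 89),
    (21, 61, 156, 1, 89),
    (22, 66, 4, 1, 89),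
    (23, 120, 35, 1, 89),
    (25, 95, 43, 1, 89),
    (26, 118, 4, 1, 89),
    (27, 22, 74, 1, 89),
    (31, 98, 75, 1, 89),
    (35, 9, 14, 1, 89),
    (37, 15, 67, 1, 89),
    (38, 93, 29, 1, 89),
    (39, 135, 83, 1, 89),
    (41, 143, 58, 1, 89),
    (42, 4, 66, 1, 89),
    (43, 22, 206, 1, 89),
    (44, 0, 103, 1, 89),
    (45, 50, 34, 1, 89),
    (50, 9, 34, 1, 89),
    (53, 6, 46, 1, 89),
    (54, 93, 60, 1, 89),
    (55, 46, 6, 1, 89),
    (57, 61, 111, 1, 89),
    (58, 182, 23, 1, 89),
    (59, 111, 61, 1, 89),
    (61, 19, 7, 1, 89),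
    (62, 99, 38, 1, 89),
    (63, 7, 19, 1, 89)]

theorem wit89 : ramWit surface ⟨88, 25, 48, 1, 3⟩ 89
    17213952844267474670 wits89 = true := by
  decide +kernel

theorem image89 : Image surface p89 17213952844267474670 :=
  image_ram (e := 41) (by decide) (by decide) (by decide) (by decide +kernel) check89 wit89

/-- the primes with non-trivial invariants -/
def S : Finset Nat.Primes := insert p89 (insert p41 ∅)

theorem prime_list : ∀ q ∈ ([(2, 0), (3, 1), (5, 2), (7, 3), (13, 3), (29, 13), (41, 0), (89, 0)] : List (ℕ × ℤ)), q.1.Prime := by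
  simp only [List.forall_mem_cons, List.not_mem_nil, false_imp_iff, implies_true, and_true]
  norm_num

theorem other (p : Nat.Primes) (hp : p ∉ S) :
    (∀ P : surface.Point ℚ_[(p : ℕ)], HasVec P 0) ∧ Nonempty (surface.Point ℚ_[(p : ℕ)]) := by
  refine others (S := S) (Q := [(2, 0), (3, 1), (5, 2), (7, 3), (13, 3), (29, 13), (41, 0), (89, 0)]) (k := 4) (x := 2) (y := 1) (z := 0) (x' := 14) (y' := 1)
    (z' := 0) (t := 952389) (by decide) prime_list (by decide +kernel) (by decide +kernel) ?_ p hp
  exact List.forall_mem_cons.2 ⟨Or.inr (by decide +kernel),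
    List.forall_mem_cons.2 ⟨Or.inr (by decide +kernel),
    List.forall_mem_cons.2 ⟨Or.inr (by decide +kernel),
    List.forall_mem_cons.2 ⟨Or.inr (by decide +kernel),
    List.forall_mem_cons.2 ⟨Or.inr (by decide +kernel),
    List.forall_mem_cons.2 ⟨Or.inr (by decide +kernel),
    List.forall_mem_cons.2 ⟨Or.inl ⟨p41, by decide, rfl⟩,
    List.forall_mem_cons.2 ⟨Or.inl ⟨p89, by decide, rfl⟩,
    by simp⟩⟩⟩⟩⟩⟩⟩⟩

theorem nonempty (p : Nat.Primes) : Nonempty (surface.Point ℚ_[(p : ℕ)]) := by
  by_cases h : p ∈ S
  · simp only [S, Finset.mem_insert, Finset.notMem_empty, or_false] at h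
    rcases h with rfl | rfl
    · exact image_nonempty image89 (c := 1) (by norm_num) (by decide +kernel)
    · exact image_nonempty image41 (c := 0) (by norm_num) (by decide +kernel)
  · exact (other p h).2

theorem total41 : Total surface (insert p41 ∅) 1153202984146964481 :=
  total_insert (by decide) image41 (total_empty nonempty) (by decide +kernel)

theorem total89 : Total surface (insert p89 (insert p41 ∅)) 17217260207188475630 :=
  total_insert (by decide) image89 total41 (by decide +kernel)

theorem requires : surface.Requires 4 :=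
  requires_of (S := S) (T := 17217260207188475630) (es := [3, 5, 48, 80]) (by decide) nonempty (fun p hp => (other p hp).1)
    total89 (by norm_num) (by decide +kernel) (by decide +kernel) (by decide +kernel)

theorem almostTrivial : surface.AlmostTrivial :=
  almostTrivial_of (S := S) fun p hp => (other p hp).1

theorem smooth : surface.Smooth := smooth_of (by decide) (by decide) (by decide) (by decide)

theorem unramified : surface.Unramified := DP.unramified (by decide +kernel) (by decide)

theorem indep : indepCheck [17213952844267474670] := by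
  unfold indepCheck
  decide +kernel

theorem independent : surface.Independent := independent_of indep
  (List.forall_mem_cons.2 ⟨⟨p89, image89⟩, by simp⟩)

end Pool.Agent.H437.DP.Ex4
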