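import Pool.Agent.H437.DP.Make

/-!
# Double planes: a surface that requires 5 Brauer classes
-/

set_option autoImplicit false
set_option maxRecDepth 100000

namespace Pool.Agent.H437.DP.Ex5

open Surface

/-- the surface -/
def surface : Surface where
  a := 25
  b := -34
  d := 2881
  α := 5
  β := 4
  m := 1
  n := 2
  κ := -17
  a_eq := by norm_num
  β_eq := by norm_num
  κ_eq := by norm_num
  κ_sq := by norm_num

/-- a ramified prime -/
def p43 : Nat.Primes := ⟨43, by norm_num⟩

theorem check43 : ramCheck ⟨42, 25, 9, 1, 2⟩ 43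
    17295413150000762895 = true := by
  decide +kernel

/-- points over the completion -/
def wits43 : Wits :=
  [(0, 71, 10, 1, 43),
    (1, 20, 73, 1, 43),
    (2, 15, 33, 1, 43),
    (3, 73, 20, 1, 43),
    (12, 10, 71, 1, 43),
    (14, 33, 15, 1, 43),
    (17, 200, 23, 1, 43),
    (19, 33, 28, 1, 43),
    (21, 36, 80, 1, 43),
    (22, 37, 7, 1, 43),
    (24, 79, 6, 1, 43),
    (27, 50, 6, 1, 43),
    (28, 56, 20, 1, 43),
    (29, 20, 15, 1, 43),
    (30, 159, 23, 1, 43),
    (31, 58, 10, 1, 43),
    (32, 20, 56, 1, 43),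
    (33, 28, 33, 1, 43),
    (34, 152, 30, 1, 43),
    (35, 195, 28, 1, 43),
    (36, 49, 36, 1, 43),
    (39, 80, 36, 1, 43),
    (41, 6, 50, 1, 43),
    (42, 7, 37, 1, 43),
    (45, 10, 58, 1, 43),
    (47, 15, 20, 1, 43),
    (48, 28, 63, 1, 43),
    (50, 58, 23, 1, 43),
    (60, 63, 28, 1, 43),
    (61, 13, 23, 1, 43),
    (62, 23, 58, 1, 43),
    (63, 23, 13, 1, 43)]

theorem wit43 : ramWit surface ⟨42, 25, 9, 1, 2⟩ 43
    17295413150000762895 wits43 = true := by
  decide +kernel

theorem image43 : Image surface p43 17295413150000762895 :=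
  image_ram (e := 67) (by decide) (by decide) (by decide) (by decide +kernel) check43 wit43

/-- a ramified prime -/
def p67 : Nat.Primes := ⟨67, by norm_num⟩

theorem check67 : ramCheck ⟨66, 25, 33, 1, 2⟩ 67
    1151330923708788720 = true := by
  decide +kernel

/-- points over the completion -/
def wits67 : Wits :=
  [(4, 131, 18, 1, 67),
    (5, 18, 3, 1, 67),
    (6, 93, 56, 1, 67),
    (7, 3, 18, 1, 67),
    (8, 18, 131, 1, 67),
    (9, 64, 49, 1, 67),
    (10, 123, 26, 1, 67),
    (11, 49, 64, 1, 67),
    (13, 104, 38, 1, 67),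
    (15, 38, 104, 1, 67),
    (16, 29, 37, 1, 67),
    (18, 105, 30, 1, 67),
    (20, 156, 61, 1, 67),
    (23, 112, 61, 1, 67),
    (25, 22, 207, 1, 67),
    (26, 140, 45, 1, 67),
    (37, 128, 45, 1, 67),
    (38, 179, 6, 1, 67),
    (40, 61, 156, 1, 67),
    (43, 207, 22, 1, 67),
    (44, 37, 29, 1, 67),
    (46, 97, 38, 1, 67),
    (49, 96, 30, 1, 67),
    (51, 30, 96, 1, 67),
    (52, 41, 11, 1, 67),
    (53, 11, 93, 1, 67),
    (54, 3, 49, 1, 67),
    (55, 93, 11, 1, 67),
    (56, 11, 41, 1, 67),
    (57, 41, 56, 1, 67),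
    (58, 49, 3, 1, 67),
    (59, 56, 41, 1, 67)]

theorem wit67 : ramWit surface ⟨66, 25, 33, 1, 2⟩ 67
    1151330923708788720 wits67 = true := by
  decide +kernel

theorem image67 : Image surface p67 1151330923708788720 :=
  image_ram (e := 43) (by decide) (by decide) (by decide) (by decide +kernel) check67 wit67

/-- the primes with non-trivial invariants -/
def S : Finset Nat.Primes := insert p67 (insert p43 ∅)

theorem prime_list : ∀ q ∈ ([(2, 0), (3, 1), (5, 1), (7, 2), (43, 0), (67, 0), (28603, 10988)] : List (ℕ × ℤ)), q.1.Prime := by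
  simp only [List.forall_mem_cons, List.not_mem_nil, false_imp_iff, implies_true, and_true]
  norm_num

theorem other (p : Nat.Primes) (hp : p ∉ S) :
    (∀ P : surface.Point ℚ_[(p : ℕ)], HasVec P 0) ∧ Nonempty (surface.Point ℚ_[(p : ℕ)]) := by
  refine others (S := S) (Q := [(2, 0), (3, 1), (5, 1), (7, 2), (43, 0), (67, 0), (28603, 10988)]) (k := 11) (x := 48) (y := 32) (z := 29) (x' := 40) (y' := 39)
    (z' := 9) (t := 329620972) (by decide) prime_list (by decide +kernel) (by decide +kernel) ?_ p hp
  exact List.forall_mem_cons.2 ⟨Or.inr (by decide +kernel),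
    List.forall_mem_cons.2 ⟨Or.inr (by decide +kernel),
    List.forall_mem_cons.2 ⟨Or.inr (by decide +kernel),
    List.forall_mem_cons.2 ⟨Or.inr (by decide +kernel),
    List.forall_mem_cons.2 ⟨Or.inl ⟨p43, by decide, rfl⟩,
    List.forall_mem_cons.2 ⟨Or.inl ⟨p67, by decide, rfl⟩,
    List.forall_mem_cons.2 ⟨Or.inr (by decide +kernel),
    by simp⟩⟩⟩⟩⟩⟩⟩

theorem nonempty (p : Nat.Primes) : Nonempty (surface.Point ℚ_[(p : ℕ)]) := by
  by_cases h : p ∈ S
  · simp only [S, Finset.mem_insert, Finset.notMem_empty, or_false] at h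
    rcases h with rfl | rfl
    · exact image_nonempty image67 (c := 4) (by norm_num) (by decide +kernel)
    · exact image_nonempty image43 (c := 0) (by norm_num) (by decide +kernel)
  · exact (other p h).2

theorem total43 : Total surface (insert p43 ∅) 17295413150000762895 :=
  total_insert (by decide) image43 (total_empty nonempty) (by decide +kernel)

theorem total67 : Total surface (insert p67 (insert p43 ∅)) 17293822569102704638 :=
  total_insert (by decide) image67 total43 (by decide +kernel)

theorem requires : surface.Requires 5 :=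
  requires_of (S := S) (T := 17293822569102704638) (es := [3, 5, 24, 40, 72]) (by decide) nonempty (fun p hp => (other p hp).1)
    total67 (by norm_num) (by decide +kernel) (by decide +kernel) (by decide +kernel)

theorem almostTrivial : surface.AlmostTrivial :=
  almostTrivial_of (S := S) fun p hp => (other p hp).1

theorem smooth : surface.Smooth := smooth_of (by decide) (by decide) (by decide) (by decide)

theorem unramified : surface.Unramified := DP.unramified (by decide +kernel) (by decide)

theorem indep : indepCheck [17295413150000762895] := by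
  unfold indepCheck
  decide +kernel

theorem independent : surface.Independent := independent_of indep
  (List.forall_mem_cons.2 ⟨⟨p43, image43⟩, by simp⟩)

end Pool.Agent.H437.DP.Ex5
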