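import Pool.Agent.H437.DP.Make

/-!
# Double planes: a surface that requires 6 Brauer classes
-/

set_option autoImplicit false
set_option maxRecDepth 100000

namespace Pool.Agent.H437.DP.Ex6

open Surface

/-- the surface -/
def surface : Surface where
  a := 25
  b := -34
  d := 193
  α := 5
  β := 4
  m := 1
  n := 2
  κ := -17
  a_eq := by norm_num
  β_eq := by norm_num
  κ_eq := by norm_num
  κ_sq := by norm_num

/-- a ramified prime -/
def p193 : Nat.Primes := ⟨193, by norm_num⟩

theorem check193 : ramCheck ⟨192, 25, 159, 1, 2⟩ 193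
    17293822564807667710 = true := by
  decide +kernel

/-- points over the completion -/
def wits193 : Wits :=
  [(1, 134, 32, 1, 193),
    (2, 23, 170, 1, 193),
    (3, 250, 1, 1, 193),
    (4, 85, 109, 1, 193),
    (5, 233, 70, 1, 193),
    (6, 87, 963, 1, 193),
    (7, 316, 153, 1, 193),
    (8, 40, 505, 1, 193),
    (9, 82, 143, 1, 193),
    (10, 27, 102, 1, 193),
    (11, 50, 111, 1, 193),
    (13, 1, 250, 1, 193),
    (14, 13, 507, 1, 193),
    (15, 32, 134, 1, 193),
    (17, 36, 6, 1, 193),
    (18, 6, 32, 1, 193),
    (19, 6, 157, 1, 193),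
    (20, 82, 85, 1, 193),
    (21, 51, 122, 1, 193),
    (22, 87, 967, 1, 193),
    (23, 123, 426, 1, 193),
    (24, 277, 85, 1, 193),
    (25, 140, 482, 1, 193),
    (26, 220, 91, 1, 193),
    (27, 50, 275, 1, 193),
    (28, 403, 0, 1, 193),
    (29, 1, 42, 1, 193),
    (30, 32, 187, 1, 193),
    (31, 42, 192, 1, 193),
    (33, 192, 42, 1, 193),
    (34, 32, 6, 1, 193),
    (35, 42, 1, 1, 193),
    (36, 426, 74, 1, 193),
    (37, 275, 50, 1, 193),
    (38, 967, 87, 1, 193),
    (39, 264, 142, 1, 193),
    (40, 278, 84, 1, 193),
    (41, 426, 123, 1, 193),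
    (42, 91, 220, 1, 193),
    (43, 483, 53, 1, 193),
    (44, 0, 403, 1, 193),
    (45, 48, 13, 1, 193),
    (46, 6, 161, 1, 193),
    (47, 6, 36, 1, 193),
    (48, 0, 34, 1, 193),
    (49, 232, 89, 1, 193),
    (50, 206, 72, 1, 193),
    (51, 32, 59, 1, 193),
    (52, 84, 108, 1, 193),
    (53, 142, 122, 1, 193),
    (54, 967, 106, 1, 193),
    (55, 71, 51, 1, 193),
    (56, 60, 277, 1, 193),
    (57, 51, 71, 1, 193),
    (58, 670, 166, 1, 193),
    (59, 122, 142, 1, 193),
    (61, 197, 52, 1, 193),
    (62, 23, 23, 1, 193),
    (63, 250, 192, 1, 193)]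

theorem wit193 : ramWit surface ⟨192, 25, 159, 1, 2⟩ 193
    17293822564807667710 wits193 = true := by
  decide +kernel

theorem image193 : Image surface p193 17293822564807667710 :=
  image_ram (e := 1) (by decide) (by decide) (by decide) (by decide +kernel) check193 wit193

/-- an inert prime -/
def p5 : Nat.Primes := ⟨5, by norm_num⟩

/-- the sets of the residues -/
def masks5 : List ℕ :=
  [13,
    12988813,
    16465275818755124720709179539250885005]

theorem mask5 : maskCheck 5 68 masks5 5 = true := by
  decide +kernel

theorem check5 : inertCheck ⟨124, 25, 91, 1, 2⟩ 5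
    4295036929 masks5 = true := by
  decide +kernel

/-- points over the completion -/
def wits5 : Wits :=
  [(0, 1, 1, 1, 1),
    (12, 0, 5, 1, 5),
    (16, 0, 1, 5, 5),
    (32, 1, 0, 5, 5)]

theorem wit5 : inertWit surface ⟨78124, 25, 78091, 1, 2⟩ 5 7
    4295036929 wits5 = true := by
  decide +kernel

theorem image5 : Image surface p5 4295036929 :=
  image_inert (K := 3) (k := 7) (by decide +kernel) (by decide +kernel) (by decide +kernel) rfl
    mask5 check5 (by decide +kernel) wit5

/-- the primes with non-trivial invariants -/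
def S : Finset Nat.Primes := insert p5 (insert p193 ∅)

theorem prime_list : ∀ q ∈ ([(2, 0), (3, 1), (5, 0), (7, 2), (109, 53), (193, 0)] : List (ℕ × ℤ)), q.1.Prime := by
  simp only [List.forall_mem_cons, List.not_mem_nil, false_imp_iff, implies_true, and_true]
  norm_num

theorem other (p : Nat.Primes) (hp : p ∉ S) :
    (∀ P : surface.Point ℚ_[(p : ℕ)], HasVec P 0) ∧ Nonempty (surface.Point ℚ_[(p : ℕ)]) := by
  refine others (S := S) (Q := [(2, 0), (3, 1), (5, 0), (7, 2), (109, 53), (193, 0)]) (k := 11) (x := 3) (y := 1) (z := 0) (x' := 13) (y' := 7)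
    (z' := 7) (t := 252444) (by decide) prime_list (by decide +kernel) (by decide +kernel) ?_ p hp
  exact List.forall_mem_cons.2 ⟨Or.inr (by decide +kernel),
    List.forall_mem_cons.2 ⟨Or.inr (by decide +kernel),
    List.forall_mem_cons.2 ⟨Or.inl ⟨p5, by decide, rfl⟩,
    List.forall_mem_cons.2 ⟨Or.inr (by decide +kernel),
    List.forall_mem_cons.2 ⟨Or.inr (by decide +kernel),
    List.forall_mem_cons.2 ⟨Or.inl ⟨p193, by decide, rfl⟩,
    by simp⟩⟩⟩⟩⟩⟩

theorem nonempty (p : Nat.Primes) : Nonempty (surface.Point ℚ_[(p : ℕ)]) := by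
  by_cases h : p ∈ S
  · simp only [S, Finset.mem_insert, Finset.notMem_empty, or_false] at h
    rcases h with rfl | rfl
    · exact image_nonempty image5 (c := 0) (by norm_num) (by decide +kernel)
    · exact image_nonempty image193 (c := 1) (by norm_num) (by decide +kernel)
  · exact (other p h).2

theorem total193 : Total surface (insert p193 ∅) 17293822564807667710 :=
  total_insert (by decide) image193 (total_empty nonempty) (by decide +kernel)

theorem total5 : Total surface (insert p5 (insert p193 ∅)) 18446744073709551614 :=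
  total_insert (by decide) image5 total193 (by decide +kernel)

theorem requires : surface.Requires 6 :=
  requires_of (S := S) (T := 18446744073709551614) (es := [3, 5, 9, 17, 33, 65]) (by decide) nonempty (fun p hp => (other p hp).1)
    total5 (by norm_num) (by decide +kernel) (by decide +kernel) (by decide +kernel)

theorem almostTrivial : surface.AlmostTrivial :=
  almostTrivial_of (S := S) fun p hp => (other p hp).1

theorem smooth : surface.Smooth := smooth_of (by decide) (by decide) (by decide) (by decide)

theorem unramified : surface.Unramified := DP.unramified (by decide +kernel) (by decide)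

theorem indep : indepCheck [17293822564807667710] := by
  unfold indepCheck
  decide +kernel

theorem independent : surface.Independent := independent_of indep
  (List.forall_mem_cons.2 ⟨⟨p193, image193⟩, by simp⟩)

end Pool.Agent.H437.DP.Ex6
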