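import Pool.Agent.H437.DP.Local

/-!
# Double planes: primes of good reduction
-/

set_option autoImplicit false

namespace Pool.Agent.H437.DP

open Surface

variable {X : Surface}

/-- the primes of bad reduction divide this number -/
def bad (X : Surface) : ℤ :=
  2 * X.β * (2 * X.a - X.b) * X.m * X.n * X.α *
    (X.α * (2 * X.a * X.n ^ 2 + X.b * X.m ^ 2) - X.b * X.κ)

section field

variable {F : Type*} [Field F]

lemma e_zero {x y z : F} (h1 : x + y + z = 0) (h2 : x * y + y * z + z * x = 0)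
    (h3 : x * y * z = 0) : x = 0 ∧ y = 0 ∧ z = 0 := by
  refine ⟨?_, ?_, ?_⟩
  · exact pow_eq_zero_iff (n := 3) (by norm_num) |>.1
      (by linear_combination x ^ 2 * h1 - x * h2 + h3)
  · exact pow_eq_zero_iff (n := 3) (by norm_num) |>.1
      (by linear_combination y ^ 2 * h1 - y * h2 + h3)
  · exact pow_eq_zero_iff (n := 3) (by norm_num) |>.1
      (by linear_combination z ^ 2 * h1 - z * h2 + h3)

lemma one_zero {a b β : F} (hβ : β ≠ 0) (hab : 2 * (2 * a - b) ≠ 0) {x y z : F}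
    (h1 : x + y + z = 0) (h2 : β * (x * y + y * z + z * x) = 0)
    (h3 : a * (x + y + z) ^ 3 - 4 * a * (x + y + z) * (x * y + y * z + z * x) +
      (4 * a - 2 * b) * (x * y * z) = 0) : x = 0 ∧ y = 0 ∧ z = 0 := by
  refine e_zero h1 ((mul_eq_zero.1 h2).resolve_left hβ) ?_
  refine (mul_eq_zero.1 (?_ : (2 * (2 * a - b)) * (x * y * z) = 0)).resolve_left hab
  linear_combination h3 - (a * (x + y + z) ^ 2 - 4 * a * (x * y + y * z + z * x)) * h1

lemma two_zero {a b α m n κ : F} (hm : m ≠ 0) (hα : α ≠ 0)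
    (hG : α * (2 * a * n ^ 2 + b * m ^ 2) - b * κ ≠ 0) {x y z : F}
    (h3 : m ^ 2 * x ^ 2 = n ^ 2 * y ^ 2) (h4 : α * m ^ 2 * z ^ 2 + κ * y ^ 2 = 0)
    (h5 : (m ^ 2 * a * x ^ 2 + (n ^ 2 * a + m ^ 2 * b) * y ^ 2 + m ^ 2 * b * z ^ 2 = 0) ∨ y = 0) :
    x = 0 ∧ y = 0 ∧ z = 0 := by
  have hy : y = 0 := by
    rcases h5 with h5 | h5
    · have h6 : (α * (2 * a * n ^ 2 + b * m ^ 2) - b * κ) * y ^ 2 = 0 := by
        linear_combination α * h5 - b * h4 - α * a * h3
      exact pow_eq_zero_iff two_ne_zero |>.1 ((mul_eq_zero.1 h6).resolve_left hG)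
    · exact h5
  subst hy
  refine ⟨?_, rfl, ?_⟩
  · have h6 : m ^ 2 * x ^ 2 = 0 := by linear_combination h3
    exact pow_eq_zero_iff two_ne_zero |>.1 ((mul_eq_zero.1 h6).resolve_left (pow_ne_zero _ hm))
  · have h6 : (α * m ^ 2) * z ^ 2 = 0 := by linear_combination h4
    exact pow_eq_zero_iff two_ne_zero |>.1
      ((mul_eq_zero.1 h6).resolve_left (mul_ne_zero hα (pow_ne_zero _ hm)))

/-- the line, the conic and the cubic have no common point -/
theorem common (hb : ((bad X : ℤ) : F) ≠ 0) {x y z : F} {i : Fin 7} (h1 : X.line x y z i = 0)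
    (h2 : X.conic x y z i = 0) (h3 : X.cubic x y z i = 0) : x = 0 ∧ y = 0 ∧ z = 0 := by
  rw [bad] at hb
  push_cast at hb
  have hG := right_ne_zero_of_mul hb
  have hb1 := left_ne_zero_of_mul hb
  have hα := right_ne_zero_of_mul hb1
  have hb2 := left_ne_zero_of_mul hb1
  have hn := right_ne_zero_of_mul hb2
  have hb3 := left_ne_zero_of_mul hb2
  have hm := right_ne_zero_of_mul hb3
  have hb4 := left_ne_zero_of_mul hb3
  have hab := right_ne_zero_of_mul hb4
  have hb5 := left_ne_zero_of_mul hb4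
  have hβ := right_ne_zero_of_mul hb5
  have h20 := left_ne_zero_of_mul hb5
  have hab' := mul_ne_zero h20 hab
  have key : ∀ {x y z : F}, (X.m * x - X.n * y) * (X.m * x + X.n * y) = 0 →
      X.α * X.m ^ 2 * z ^ 2 + X.κ * y ^ 2 = 0 →
      (X.m * x - X.n * y = 0 ∧ (X.m * x + X.n * y) * X.quadricTwo x y z = 0) ∨
      (X.m * x + X.n * y = 0 ∧ (X.m * x - X.n * y) * X.quadricTwo x y z = 0) →
      x = 0 ∧ y = 0 ∧ z = 0 := by
    intro x y z e1 e2 e3
    refine two_zero (a := (X.a : F)) (b := (X.b : F)) hm hα hG (by linear_combination e1)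
      e2 ?_
    have hny : ∀ t : F, 2 * (X.n : F) * t = 0 → t = 0 := fun t ht =>
      (mul_eq_zero.1 ht).resolve_left (mul_ne_zero h20 hn)
    rcases e3 with ⟨e4, e5⟩ | ⟨e4, e5⟩
    · rcases mul_eq_zero.1 e5 with e6 | e6
      · right
        exact hny y (by linear_combination e6 - e4)
      · left
        exact e6
    · rcases mul_eq_zero.1 e5 with e6 | e6
      · right
        exact hny y (by linear_combination e4 - e6)
      · left
        exact e6
  fin_cases i
  · exact one_zero (a := (X.a : F)) (b := (X.b : F)) hβ hab' h1 h2 h3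
  · have h4 := one_zero (a := (X.a : F)) (b := (X.b : F)) (x := x) (y := y) (z := -z) hβ hab'
      (by rw [← h1]; simp [line]; ring) (by rw [← h2]; simp [conic]; ring_nf; simp) h3
    exact ⟨h4.1, h4.2.1, neg_eq_zero.1 h4.2.2⟩
  · have h4 := one_zero (a := (X.a : F)) (b := (X.b : F)) (x := x) (y := -y) (z := z) hβ hab'
      (by rw [← h1]; simp [line]; ring) (by rw [← h2]; simp [conic]; ring_nf; simp) h3
    exact ⟨h4.1, neg_eq_zero.1 h4.2.1, h4.2.2⟩
  · have h1' : X.m * x - X.n * y = 0 := h1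
    exact key (by rw [h1', zero_mul]) h2 (Or.inl ⟨h1', h3⟩)
  · have h1' : X.m * x + X.n * y = 0 := h1
    exact key (by rw [h1', mul_zero]) h2 (Or.inr ⟨h1', h3⟩)
  · have h1' : X.m * x - X.n * z = 0 := h1
    have h4 := key (x := x) (y := z) (z := y) (by rw [h1', zero_mul]) h2 (Or.inl ⟨h1', h3⟩)
    exact ⟨h4.1, h4.2.2, h4.2.1⟩
  · have h1' : X.m * y - X.n * z = 0 := h1
    have h4 := key (x := y) (y := z) (z := x) (by rw [h1', zero_mul]) h2 (Or.inl ⟨h1', h3⟩)
    exact ⟨h4.2.2, h4.1, h4.2.1⟩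

end field

section padic

variable {p : ℕ} [hp : Fact p.Prime]

lemma w_int {P : X.Point ℚ_[p]} {x y z : ℤ_[p]} (hx : P.x = x) (hy : P.y = y) (hz : P.z = z)
    (hd : ‖((X.d : ℤ) : ℤ_[p])‖ = 1) : ∃ w : ℤ_[p], P.w = w := by
  have h1 : ‖P.w‖ ^ 2 ≤ 1 := by
    have h2 : ‖(X.d : ℚ_[p]) * P.w ^ 2‖ ≤ 1 := by
      rw [P.eq, hx, hy, hz, ← coe_form]
      exact PadicInt.norm_le_one _
    have h3 : ‖(X.d : ℚ_[p])‖ = 1 := hd
    rwa [norm_mul, h3, one_mul, norm_pow] at h2
  have h2 : ‖P.w‖ ≤ 1 := by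
    by_contra h3
    rw [not_le] at h3
    exact absurd h1 (not_le.2 (one_lt_pow₀ h3 two_ne_zero))
  exact ⟨⟨P.w, h2⟩, rfl⟩

/-- the invariants at inert primes of good reduction vanish -/
theorem hasVec_good (h : Inert p X.d) (hb : ¬ (p : ℤ) ∣ bad X) (P : X.Point ℚ_[p]) :
    HasVec P 0 := by
  obtain ⟨P', x, y, z, hP, hx, hy, hz, hprim⟩ := normalize P
  apply hP
  have hb' : ((bad X : ℤ) : ZMod p) ≠ 0 := by
    rwa [Ne, ZMod.intCast_zmod_eq_zero_iff_dvd]
  have hnt : ¬ (PadicInt.toZMod x = 0 ∧ PadicInt.toZMod y = 0 ∧ PadicInt.toZMod z = 0) := by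
    rintro ⟨h1, h2, h3⟩
    rcases hprim with h4 | ⟨h4, -⟩ | ⟨h4, -⟩
    · rw [h4, map_one] at h3
      exact one_ne_zero h3
    · rw [h4, map_one] at h2
      exact one_ne_zero h2
    · rw [h4, map_one] at h1
      exact one_ne_zero h1
  have hodd : ¬ IsSquare ((X.d : ℤ) : ZMod p) := by
    rcases h with ⟨-, h2⟩ | ⟨rfl, -⟩
    · exact h2
    · exfalso
      apply hb
      rw [bad]
      exact ⟨X.β * (2 * X.a - X.b) * X.m * X.n * X.α *
        (X.α * (2 * X.a * X.n ^ 2 + X.b * X.m ^ 2) - X.b * X.κ), by push_cast; ring⟩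
  obtain ⟨w, hw⟩ := w_int hx hy hz h.norm
  refine hasVec_inert h fun i => ?_
  by_cases h1 : PadicInt.toZMod (X.line x y z i) = 0
  · right
    have h2 : PadicInt.toZMod (X.cubic x y z i) ≠ 0 := by
      intro h3
      have h5 : (X.d : ℤ_[p]) * w ^ 2 = X.form x y z := by
        have h55 := P'.eq
        rw [hx, hy, hz, hw, ← coe_form] at h55
        have h56 : (((X.d : ℤ_[p]) * w ^ 2 : ℤ_[p]) : ℚ_[p]) =
            ((X.form x y z : ℤ_[p]) : ℚ_[p]) := by
          rw [← h55]
          push_cast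
          rfl
        exact PadicInt.ext h56
      have h6 := X.bitangent x y z i
      rw [← h5] at h6
      have h7 := congrArg PadicInt.toZMod h6
      simp only [map_mul, map_sub, map_pow, map_intCast, h1, zero_mul] at h7
      have h8 : PadicInt.toZMod (X.conic x y z i) = 0 := by
        by_contra h9
        apply hodd
        have h10 : (X.scale i : ZMod p) * PadicInt.toZMod w ≠ 0 := by
          intro h11
          apply h9
          have h12 : PadicInt.toZMod (X.conic x y z i) ^ 2 = 0 := by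
            linear_combination h7 + (X.d : ZMod p) * ((X.scale i : ZMod p) * PadicInt.toZMod w) * h11
          exact pow_eq_zero_iff two_ne_zero |>.1 h12
        refine ⟨PadicInt.toZMod (X.conic x y z i) / ((X.scale i : ZMod p) * PadicInt.toZMod w), ?_⟩
        rw [div_mul_div_comm, eq_div_iff (mul_ne_zero h10 h10)]
        linear_combination -h7
      apply hnt
      rw [map_line] at h1
      rw [map_cubic] at h3
      rw [map_conic] at h8
      exact common hb' h1 h8 h3
    have h3 := toZMod_ne_zero.1 h2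
    have h4 : ((X.cubic x y z i : ℤ_[p]) : ℚ_[p]) = X.cubic P'.x P'.y P'.z i := by
      rw [coe_cubic, hx, hy, hz]
    rw [← h4, valuation_zero_iff h3]
    refine ⟨?_, by simp⟩
    rw [PadicInt.coe_ne_zero, ← norm_ne_zero_iff, h3]
    exact one_ne_zero
  · left
    have h3 := toZMod_ne_zero.1 h1
    have h4 : ((X.line x y z i : ℤ_[p]) : ℚ_[p]) = X.line P'.x P'.y P'.z i := by
      rw [coe_line, hx, hy, hz]
    rw [← h4, valuation_zero_iff h3]
    refine ⟨?_, by simp⟩
    rw [PadicInt.coe_ne_zero, ← norm_ne_zero_iff, h3]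
    exact one_ne_zero

lemma isSquare_int_odd (hp2 : p ≠ 2) {u : ℤ} (hu : ¬ (p : ℤ) ∣ u) (h : IsSquare (u : ZMod p)) :
    IsSquare (u : ℚ_[p]) := by
  have h1 : ‖((u : ℤ) : ℤ_[p])‖ = 1 := by
    rw [← toZMod_ne_zero, map_intCast, Ne, ZMod.intCast_zmod_eq_zero_iff_dvd]
    exact hu
  have h2 := isSquare_odd hp2 h1 (by rw [map_intCast]; exact h)
  simpa using h2

lemma isSquare_int_two {u : ℤ} (h : u % 8 = 1) : IsSquare (u : ℚ_[2]) := by
  have h2 := isSquare_two (u := ((u : ℤ) : ℤ_[2])) (by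
    rw [map_intCast]
    have : ((u : ℤ) : ZMod (2 ^ 3)) = ((1 : ℤ) : ZMod (2 ^ 3)) := by
      rw [ZMod.intCast_eq_intCast_iff]
      exact h
    rw [this, Int.cast_one])
  simpa using h2

lemma form_cast {K : Type*} [Field K] (x y z : ℤ) :
    X.form (x : K) y z = ((X.form x y z : ℤ) : K) := by
  have := map_form (X := X) (Int.castRingHom K) x y z
  exact this.symm

/-- a point over an inert prime -/
theorem exists_point_inert (h : Inert p X.d) (hp2 : p ≠ 2) {x y z x' y' z' t : ℤ}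
    (ht : X.form x y z * X.form x' y' z' * X.d = t ^ 2) (hpt : ¬ (p : ℤ) ∣ t) :
    Nonempty (X.Point ℚ_[p]) := by
  have hdn : ¬ IsSquare ((X.d : ℤ) : ZMod p) := by
    rcases h with ⟨-, h3⟩ | ⟨rfl, -⟩
    · exact h3
    · exact absurd rfl hp2
  have hdp : ¬ (p : ℤ) ∣ X.d := by
    intro h3
    apply hdn
    rw [(ZMod.intCast_zmod_eq_zero_iff_dvd _ _).2 h3]
    exact IsSquare.zero
  have hd0 : (X.d : ℚ_[p]) ≠ 0 := by
    intro h3
    apply hdp
    have : X.d = 0 := by exact_mod_cast h3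
    rw [this]
    exact dvd_zero _
  have hprime := Nat.prime_iff_prime_int.1 hp.out
  have hpt2 : ¬ (p : ℤ) ∣ X.form x y z * X.form x' y' z' * X.d := by
    rw [ht]
    exact fun h3 => hpt (hprime.dvd_of_dvd_pow h3)
  have hp1 : ¬ (p : ℤ) ∣ X.form x y z := fun h3 =>
    hpt2 (dvd_mul_of_dvd_left (dvd_mul_of_dvd_left h3 _) _)
  have hp2' : ¬ (p : ℤ) ∣ X.form x' y' z' := fun h3 =>
    hpt2 (dvd_mul_of_dvd_left (dvd_mul_of_dvd_right h3 _) _)
  have key : ∀ x y z : ℤ, ¬ (p : ℤ) ∣ X.form x y z →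
      IsSquare ((X.form x y z * X.d : ℤ) : ZMod p) → Nonempty (X.Point ℚ_[p]) := by
    intro x y z h3 h4
    obtain ⟨c, hc⟩ := isSquare_int_odd hp2 (u := X.form x y z * X.d) (by
      intro h5
      rcases hprime.dvd_or_dvd h5 with h6 | h6
      · exact h3 h6
      · exact hdp h6) h4
    refine ⟨⟨x, y, z, c / X.d, ?_, ?_⟩⟩
    · rintro ⟨e1, e2, e3⟩
      apply h3
      have e1' : x = 0 := by exact_mod_cast e1
      have e2' : y = 0 := by exact_mod_cast e2
      have e3' : z = 0 := by exact_mod_cast e3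
      rw [e1', e2', e3']
      simp [form]
    · rw [form_cast]
      push_cast at hc
      field_simp
      linear_combination -hc
  by_cases hsq : IsSquare ((X.form x y z * X.d : ℤ) : ZMod p)
  · exact key x y z hp1 hsq
  · refine key x' y' z' hp2' ?_
    have e1 := quadraticChar_neg_one_iff_not_isSquare.2 hsq
    have e2 := quadraticChar_neg_one_iff_not_isSquare.2 hdn
    have htne : ((t : ℤ) : ZMod p) ≠ 0 := by
      rwa [Ne, ZMod.intCast_zmod_eq_zero_iff_dvd]
    have e4 : ((X.form x y z * X.d : ℤ) : ZMod p) * ((X.form x' y' z' * X.d : ℤ) : ZMod p) =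
        ((t : ℤ) : ZMod p) ^ 2 * ((X.d : ℤ) : ZMod p) := by
      rw [← Int.cast_pow, ← ht]
      push_cast
      ring
    have e5 := congrArg (quadraticChar (ZMod p)) e4
    rw [map_mul, map_mul, map_pow, quadraticChar_sq_one htne, e1, e2, one_mul] at e5
    have e3 : quadraticChar (ZMod p) ((X.form x' y' z' * X.d : ℤ) : ZMod p) = 1 := by
      linear_combination -e5
    rw [quadraticChar_one_iff_isSquare] at e3
    · exact e3
    · intro h4
      rw [h4] at e3
      simp at e3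

end padic

section split

variable {K : Type*} [Field K] [CharZero K]

/-- a point over a field that contains a square root of `d` -/
theorem exists_point_split (hd : X.d ≠ 0) (h : IsSquare (X.d : K)) :
    Nonempty (X.Point K) := by
  obtain ⟨c, hc⟩ := h
  have hc0 : c ≠ 0 := by
    rintro rfl
    rw [mul_zero] at hc
    exact hd (by exact_mod_cast hc)
  refine ⟨⟨1, -1, 0, X.β / c, fun h => one_ne_zero h.1, ?_⟩⟩
  have h2 : 2 * (X.a : K) + X.b = X.β ^ 2 := by exact_mod_cast congrArg (Int.cast : ℤ → K) X.β_eq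
  rw [hc, form]
  field_simp
  linear_combination -h2

end split

end Pool.Agent.H437.DP
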