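import Pool.Agent.H437.DP.Code

/-!
# Double planes: the inert primes of bad reduction
-/

set_option autoImplicit false

namespace Pool.Agent.H437.DP

open Surface

variable {X : Surface}

/-- the parity of the valuation of a natural number that is known modulo `l ^ k`; `2` if it is not
known -/
def vpar (l : ℕ) : ℕ → ℕ → ℕ
  | 0, _ => 2
  | k + 1, n => if (n % l).beq 0 then (match vpar l k (n / l) with | 0 => 1 | 1 => 0 | _ => 2) else 0

/-- the bit of a value: `2` if it is not known -/
def bitI (l k a c : ℕ) : ℕ :=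
  match vpar l k a with
  | 0 => 0
  | 1 => 1
  | _ => vpar l k c

/-- the three charts -/
def onChart {T : Type} (f : ℕ → ℕ → ℕ → T) (ch u v : ℕ) : T :=
  match ch with
  | 0 => f u v 1
  | 1 => f u 1 v
  | _ => f 1 u v

/-- the check on the points with given residues modulo `N = l ^ k` -/
def tree (π : Par) (l M ch : ℕ) : List ℕ → ℕ → ℕ → ℕ → ℕ → Bool
  | [], _, _, _, _ => false
  | A :: As, k, N, u, v =>
    if A.testBit (onChart π.form ch u v % N) then
      (if onChart (π.test (bitI l k) M) ch u v then true else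
        (List.range l).all fun i => (List.range l).all fun j =>
          tree π l M ch As (k + 1) (N * l) (u + N * i) (v + N * j))
    else true

/-- the check of the sets of the residues of `d w²` -/
def maskCheck (l d : ℕ) : List ℕ → ℕ → Bool
  | [], _ => true
  | A :: As, N => ((List.range N).all fun w => A.testBit (d * w ^ 2 % N)) && maskCheck l d As (N * l)

/-- the check at all points -/
def inertCheck (π : Par) (l M : ℕ) (As : List ℕ) : Bool :=
  ((List.range l).all fun u => (List.range l).all fun v => tree π l M 0 As 1 l u v) &&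
    ((List.range l).all fun u => tree π l M 1 As 1 l u 0) && tree π l M 2 As 1 l 0 0

variable {p : ℕ} [hp : Fact p.Prime]

lemma vpar_sound : ∀ (k n : ℕ), vpar p k n < 2 →
    ¬ p ^ k ∣ n ∧ (padicValNat p n : ZMod 2) = (vpar p k n : ZMod 2)
  | 0, n, h => by
    exfalso
    simp [vpar] at h
  | k + 1, n, h => by
    have h0 := hp.out.pos
    unfold vpar at h ⊢
    by_cases h1 : (n % p).beq 0 = true
    · rw [if_pos h1] at h ⊢
      rw [Nat.beq_eq] at h1
      have h2 : n = p * (n / p) := (Nat.mul_div_cancel' (Nat.dvd_of_mod_eq_zero h1)).symm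
      have h3 : vpar p k (n / p) < 2 ∧ (vpar p k (n / p) + 1 : ZMod 2) =
          ((match vpar p k (n / p) with | 0 => 1 | 1 => 0 | _ => 2 : ℕ) : ZMod 2) := by
        rcases h4 : vpar p k (n / p) with _ | _ | m
        · simp
        · simp
          decide
        · rw [h4] at h
          simp at h
      obtain ⟨h4, h5⟩ := vpar_sound k (n / p) h3.1
      have hn0 : n / p ≠ 0 := by
        intro h6
        rw [h6] at h4
        exact h4 (dvd_zero _)
      constructor
      · intro h6
        apply h4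
        rw [h2, pow_succ, mul_comm (p ^ k)] at h6
        exact Nat.dvd_of_mul_dvd_mul_left h0 h6
      · rw [← h3.2, ← h5]
        have h6 : padicValNat p n = padicValNat p (n / p) + 1 := by
          conv_lhs => rw [h2]
          rw [padicValNat.mul hp.out.ne_zero hn0, padicValNat_self]
          ring
        rw [h6]
        push_cast
        rfl
    · rw [if_neg h1]
      rw [Nat.beq_eq] at h1
      have h2 : ¬ p ∣ n := fun h3 => h1 (Nat.mod_eq_zero_of_dvd h3)
      refine ⟨fun h3 => h2 ((dvd_pow_self p (Nat.succ_ne_zero k)).trans h3), ?_⟩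
      rw [padicValNat.eq_zero_of_not_dvd h2]

lemma bit_val {y : ℤ_[p]} {n k : ℕ} (h : PadicInt.toZModPow k y = (n : ZMod (p ^ k)))
    (hn : vpar p k n < 2) : (y : ℚ_[p]) ≠ 0 ∧ ((y : ℚ_[p]).valuation : ZMod 2) = vpar p k n := by
  obtain ⟨h1, h2⟩ := vpar_sound k n hn
  obtain ⟨h3, h4⟩ := valuation_eq (p := p) (y := y) (n := (n : ℤ)) (k := k)
    (by rw [h]; simp) (by exact_mod_cast h1)
  refine ⟨h3, ?_⟩
  rw [h4, ← h2]
  simp [padicValInt.of_nat]

lemma bitI_sound {y y' : ℤ_[p]} {n n' k : ℕ} (h : PadicInt.toZModPow k y = (n : ZMod (p ^ k)))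
    (h' : PadicInt.toZModPow k y' = (n' : ZMod (p ^ k))) (hn : bitI p k n n' < 2) :
    ((y : ℚ_[p]) ≠ 0 ∧ ((y : ℚ_[p]).valuation : ZMod 2) = bitI p k n n') ∨
    ((y' : ℚ_[p]) ≠ 0 ∧ ((y' : ℚ_[p]).valuation : ZMod 2) = bitI p k n n') := by
  unfold bitI at hn ⊢
  rcases h1 : vpar p k n with _ | _ | m
  · left
    have := bit_val h (by rw [h1]; norm_num)
    rw [h1] at this
    exact this
  · left
    have := bit_val h (by rw [h1]; norm_num)
    rw [h1] at this
    exact this
  · right
    rw [h1] at hn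
    exact bit_val h' hn

lemma test_inert {π : Par} {M k : ℕ} (h : Inert p X.d) (hπ : π.Ok X (p ^ k)) {P : X.Point ℚ_[p]}
    {x y z : ℤ_[p]} (hx : P.x = x) (hy : P.y = y) (hz : P.z = z) {x' y' z' : ℕ}
    (hx' : PadicInt.toZModPow k x = (x' : ZMod (p ^ k)))
    (hy' : PadicInt.toZModPow k y = (y' : ZMod (p ^ k)))
    (hz' : PadicInt.toZModPow k z = (z' : ZMod (p ^ k))) (ht : π.test (bitI p k) M x' y' z' = true) :
    ∃ c, c < 64 ∧ M.testBit c = true ∧ HasVec P (vec c) := by
  obtain ⟨h1, c, hc, hM, hv⟩ := Par.test_sound ht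
  refine ⟨c, hc, hM, ?_⟩
  have h3 : HasVec P (fun i => (bitI p k (π.line x' y' z' i) (π.cubic x' y' z' i) : ZMod 2)) := by
    refine hasVec_inert h fun i => ?_
    have h4 := bitI_sound (y := X.line x y z i) (y' := X.cubic x y z i) (k := k)
      (by rw [map_line, hx', hy', hz', ← hπ.line]) (by rw [map_cubic, hx', hy', hz', ← hπ.cubic])
      (h1 i)
    rwa [coe_line, coe_cubic, ← hx, ← hy, ← hz] at h4
  intro E hE
  rw [h3 E hE, ← hv E hE]

lemma residue_succ (y : ℤ_[p]) (k : ℕ) : ∃ i < p, (PadicInt.toZModPow (k + 1) y).val =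
    (PadicInt.toZModPow k y).val + p ^ k * i := by
  have h0 := hp.out.pos
  have : NeZero (p ^ k) := ⟨(pow_pos h0 k).ne'⟩
  have : NeZero (p ^ (k + 1)) := ⟨(pow_pos h0 (k + 1)).ne'⟩
  have h1 := PadicInt.cast_toZModPow k (k + 1) (Nat.le_succ k) y
  have h2 : (PadicInt.toZModPow k y).val = (PadicInt.toZModPow (k + 1) y).val % p ^ k := by
    rw [← h1, ZMod.cast_eq_val, ZMod.val_natCast]
  refine ⟨(PadicInt.toZModPow (k + 1) y).val / p ^ k, ?_, ?_⟩
  · rw [Nat.div_lt_iff_lt_mul (pow_pos h0 k), ← pow_succ']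
    exact ZMod.val_lt _
  · rw [h2]
    exact (Nat.mod_add_div _ _).symm

theorem tree_sound {π : Par} {M ch d K : ℕ} (h : Inert p X.d) (hπ : π.Ok X (p ^ K))
    (hd : ((d : ℕ) : ZMod (p ^ K)) = X.d) {P : X.Point ℚ_[p]} {x y z w : ℤ_[p]} (hx : P.x = x)
    (hy : P.y = y) (hz : P.z = z) (hw : P.w = w) (u v : ℤ_[p])
    (huv : (ch = 0 ∧ x = u ∧ y = v ∧ z = 1) ∨ (ch = 1 ∧ x = u ∧ y = 1 ∧ z = v) ∨
      (ch = 2 ∧ x = 1 ∧ y = u ∧ z = v)) :
    ∀ (As : List ℕ) (k : ℕ), k + As.length ≤ K + 1 → maskCheck p d As (p ^ k) = true →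
      tree π p M ch As k (p ^ k) (PadicInt.toZModPow k u).val (PadicInt.toZModPow k v).val = true →
      ∃ c, c < 64 ∧ M.testBit c = true ∧ HasVec P (vec c)
  | [], k, _, _, ht => by simp [tree] at ht
  | A :: As, k, hk, hm, ht => by
    have h0 := hp.out.pos
    have : NeZero (p ^ k) := ⟨(pow_pos h0 k).ne'⟩
    have hkK : k ≤ K := by
      simp only [List.length_cons] at hk
      omega
    have hdvd : p ^ k ∣ p ^ K := pow_dvd_pow p hkK
    have hc : ∀ (a : ℕ) (b : ℤ), ((a : ℤ) : ZMod (p ^ K)) = ((b : ℤ) : ZMod (p ^ K)) →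
        ((a : ℤ) : ZMod (p ^ k)) = ((b : ℤ) : ZMod (p ^ k)) := by
      intro a b hab
      rw [ZMod.intCast_eq_intCast_iff_dvd_sub] at hab ⊢
      exact (Int.natCast_dvd_natCast.2 hdvd).trans hab
    have hπk : π.Ok X (p ^ k) := ⟨hc _ _ hπ.g, hc _ _ hπ.a, hc _ _ hπ.b, hc _ _ hπ.m, hc _ _ hπ.n⟩
    have hdk : ((d : ℕ) : ZMod (p ^ k)) = X.d := by
      have := hc d X.d (by simpa using hd)
      simpa using this
    -- residues of the coordinates
    set U := (PadicInt.toZModPow k u).val with hU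
    set V := (PadicInt.toZModPow k v).val with hV
    have hU' : PadicInt.toZModPow k u = (U : ZMod (p ^ k)) := (ZMod.natCast_zmod_val _).symm
    have hV' : PadicInt.toZModPow k v = (V : ZMod (p ^ k)) := (ZMod.natCast_zmod_val _).symm
    have h1' : PadicInt.toZModPow k (1 : ℤ_[p]) = ((1 : ℕ) : ZMod (p ^ k)) := by simp
    -- the form
    have hform : ∀ x' y' z' : ℕ, PadicInt.toZModPow k x = (x' : ZMod (p ^ k)) →
        PadicInt.toZModPow k y = (y' : ZMod (p ^ k)) →
        PadicInt.toZModPow k z = (z' : ZMod (p ^ k)) →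
        A.testBit (π.form x' y' z' % p ^ k) = true := by
      intro x' y' z' hx' hy' hz'
      simp only [maskCheck, Bool.and_eq_true, List.all_eq_true, List.mem_range] at hm
      have h2 := hm.1 (PadicInt.toZModPow k w).val (ZMod.val_lt _)
      have h3 : π.form x' y' z' % p ^ k = d * (PadicInt.toZModPow k w).val ^ 2 % p ^ k := by
        have h4 : ((π.form x' y' z' : ℕ) : ZMod (p ^ k)) =
            ((d * (PadicInt.toZModPow k w).val ^ 2 : ℕ) : ZMod (p ^ k)) := by
          rw [hπk.form, ← hx', ← hy', ← hz', ← map_form]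
          push_cast
          rw [ZMod.natCast_zmod_val, hdk]
          have h5 : (X.d : ℤ_[p]) * w ^ 2 = X.form x y z := by
            have h55 := P.eq
            rw [hx, hy, hz, hw, ← coe_form] at h55
            have h56 : (((X.d : ℤ_[p]) * w ^ 2 : ℤ_[p]) : ℚ_[p]) =
                ((X.form x y z : ℤ_[p]) : ℚ_[p]) := by
              rw [← h55]
              push_cast
              rfl
            exact PadicInt.ext h56
          rw [← h5, map_mul, map_pow, map_intCast]
        rwa [ZMod.natCast_eq_natCast_iff'] at h4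
      rw [h3]
      exact h2
    unfold tree at ht
    have hA : A.testBit (onChart π.form ch U V % p ^ k) = true := by
      rcases huv with ⟨h1, h2, h3, h4⟩ | ⟨h1, h2, h3, h4⟩ | ⟨h1, h2, h3, h4⟩ <;>
      · rw [h1]
        exact hform _ _ _ (by rw [h2]; first | exact hU' | exact h1')
          (by rw [h3]; first | exact hU' | exact hV' | exact h1')
          (by rw [h4]; first | exact hV' | exact h1')
    rw [if_pos hA] at ht
    split_ifs at ht with h2
    · rcases huv with ⟨h1, e2, e3, e4⟩ | ⟨h1, e2, e3, e4⟩ | ⟨h1, e2, e3, e4⟩ <;>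
      · rw [h1] at h2
        exact test_inert h hπk hx hy hz (by rw [e2]; first | exact hU' | exact h1')
          (by rw [e3]; first | exact hU' | exact hV' | exact h1')
          (by rw [e4]; first | exact hV' | exact h1') h2
    · simp only [List.all_eq_true, List.mem_range] at ht
      obtain ⟨i, hi, hi'⟩ := residue_succ u k
      obtain ⟨j, hj, hj'⟩ := residue_succ v k
      have h3 := ht i hi j hj
      rw [← hi', ← hj', ← pow_succ] at h3
      refine tree_sound h hπ hd hx hy hz hw u v huv As (k + 1) ?_ ?_ h3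
      · simp only [List.length_cons] at hk
        omega
      · simp only [maskCheck, Bool.and_eq_true] at hm
        rw [pow_succ]
        exact hm.2

theorem inertCheck_sound {π : Par} {M d K : ℕ} {As : List ℕ} (h : Inert p X.d)
    (hπ : π.Ok X (p ^ K)) (hd : ((d : ℕ) : ZMod (p ^ K)) = X.d) (hK : As.length = K)
    (hm : maskCheck p d As p = true) (ht : inertCheck π p M As = true) (P : X.Point ℚ_[p]) :
    ∃ c, c < 64 ∧ M.testBit c = true ∧ HasVec P (vec c) := by
  have h0 := hp.out.pos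
  obtain ⟨P', x, y, z, hP, hx, hy, hz, hprim⟩ := normalize P
  have key : (∃ c, c < 64 ∧ M.testBit c = true ∧ HasVec P' (vec c)) →
      ∃ c, c < 64 ∧ M.testBit c = true ∧ HasVec P (vec c) := by
    rintro ⟨c, h1, h2, h3⟩
    exact ⟨c, h1, h2, hP _ h3⟩
  apply key
  obtain ⟨w, hw⟩ := w_int hx hy hz h.norm
  simp only [inertCheck, Bool.and_eq_true, List.all_eq_true, List.mem_range] at ht
  obtain ⟨⟨h1, h2⟩, h3⟩ := ht
  have : NeZero (p ^ 1) := ⟨(pow_pos h0 1).ne'⟩
  have hlt : ∀ t : ℤ_[p], (PadicInt.toZModPow 1 t).val < p := fun t =>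
    lt_of_lt_of_eq (ZMod.val_lt (PadicInt.toZModPow 1 t)) (pow_one p)
  have hz0 : ∀ t : ℤ_[p], ‖t‖ < 1 → (PadicInt.toZModPow 1 t).val = 0 := by
    intro t ht
    rw [ZMod.val_eq_zero, ← RingHom.mem_ker, PadicInt.ker_toZModPow,
      ← PadicInt.norm_le_pow_iff_mem_span_pow, PadicInt.norm_le_pow_iff_norm_lt_pow_add_one]
    simpa using ht
  have hm' : maskCheck p d As (p ^ 1) = true := by rwa [pow_one]
  rcases hprim with hz1 | ⟨hy1, hz1⟩ | ⟨hx1, hy1, hz1⟩
  · refine tree_sound (ch := 0) h hπ hd hx hy hz hw x y (Or.inl ⟨rfl, rfl, rfl, hz1⟩) As 1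
      (by omega) hm' ?_
    exact (congrArg (fun N => tree π p M 0 As 1 N (PadicInt.toZModPow 1 x).val
      (PadicInt.toZModPow 1 y).val) (pow_one p)).trans (h1 _ (hlt x) _ (hlt y))
  · refine tree_sound (ch := 1) h hπ hd hx hy hz hw x z (Or.inr (Or.inl ⟨rfl, rfl, hy1, rfl⟩)) As 1
      (by omega) hm' ?_
    rw [hz0 z hz1]
    exact (congrArg (fun N => tree π p M 1 As 1 N (PadicInt.toZModPow 1 x).val 0)
      (pow_one p)).trans (h2 _ (hlt x))
  · refine tree_sound (ch := 2) h hπ hd hx hy hz hw y z (Or.inr (Or.inr ⟨rfl, hx1, rfl, rfl⟩)) As 1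
      (by omega) hm' ?_
    rw [hz0 z hz1, hz0 y hy1]
    exact (congrArg (fun N => tree π p M 2 As 1 N 0 0) (pow_one p)).trans h3

end Pool.Agent.H437.DP
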