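import Pool.Agent.H437.DP.Defs

/-!
# Double planes: local invariants
-/

set_option autoImplicit false

namespace Pool.Agent.H437.DP

open Surface

variable {X : Surface}

section gen

variable {K : Type*} [Field K]

/-- the vector of the local invariants -/
def HasVec (P : X.Point K) (s : Fin 7 → ZMod 2) : Prop :=
  ∀ E : Finset (Fin 7), Even E.card → P.invariant E = ∑ i ∈ E, s i

lemma zmod2 (x : ZMod 2) : x = 0 ∨ x = 1 := by revert x; decide

lemma HasVec.congr {P P' : X.Point K}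
    (h : ∀ E : Finset (Fin 7), Even E.card → P.invariant E = P'.invariant E) {s : Fin 7 → ZMod 2}
    (hP : HasVec P' s) : HasVec P s := fun E hE => (h E hE).trans (hP E hE)

lemma invariant_eq_of {P : X.Point K} {E : Finset (Fin 7)} {c : ZMod 2}
    (h : IsNorm X.d (∏ i ∈ E, P.value i) ↔ c = 0) : P.invariant E = c := by
  classical
  unfold Point.invariant
  split_ifs with h1
  · exact (h.1 h1).symm
  · rcases zmod2 c with h2 | h2
    · exact absurd (h.2 h2) h1
    · exact h2.symm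

theorem hasVec_of {P : X.Point K} (hv : ∀ i, P.value i ≠ 0) (u : Fin 7 → K) (hu : ∀ i, u i ≠ 0)
    (hN : ∀ i, IsNorm X.d (P.value i * u i)) {s : Fin 7 → ZMod 2}
    (hs : ∀ E : Finset (Fin 7), IsNorm X.d (∏ i ∈ E, u i) ↔ ∑ i ∈ E, s i = 0) : HasVec P s := by
  intro E _
  refine invariant_eq_of ?_
  rw [← hs E]
  refine IsNorm.congr (Finset.prod_ne_zero_iff.2 fun i _ => hv i)
    (Finset.prod_ne_zero_iff.2 fun i _ => hu i) ?_
  rw [← Finset.prod_mul_distrib]
  exact IsNorm.prod _ _ fun i _ => hN i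

/-- `- lᵢ cᵢ` is a norm -/
theorem norm_line_cubic (P : X.Point K) (i : Fin 7) :
    IsNorm X.d (-(X.line P.x P.y P.z i * X.cubic P.x P.y P.z i)) := by
  refine ⟨X.conic P.x P.y P.z i, X.scale i * P.w, ?_⟩
  rw [X.bitangent, ← P.eq]
  ring

/-- places where `d` is a square -/
theorem hasVec_split [NeZero (2 : K)] (hd : (X.d : K) ≠ 0) (h : IsSquare (X.d : K))
    (P : X.Point K) : HasVec P 0 := by
  intro E _
  refine invariant_eq_of ?_
  simp only [Pi.zero_apply, Finset.sum_const_zero, iff_true]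
  exact isNorm_of_sq hd h _

section scaling

lemma form_smul (c x y z : K) : X.form (c * x) (c * y) (c * z) = c ^ 4 * X.form x y z := by
  simp only [form]; ring

lemma line_smul (c x y z : K) (i : Fin 7) :
    X.line (c * x) (c * y) (c * z) i = c * X.line x y z i := by
  fin_cases i <;> simp [line] <;> ring

lemma cubic_smul (c x y z : K) (i : Fin 7) :
    X.cubic (c * x) (c * y) (c * z) i = c ^ 3 * X.cubic x y z i := by
  fin_cases i <;> simp [cubic, cubicOne, quadricTwo] <;> ring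

/-- another choice of the coordinates -/
def Scale (P : X.Point K) (c : K) (hc : c ≠ 0) : X.Point K where
  x := c * P.x
  y := c * P.y
  z := c * P.z
  w := c ^ 2 * P.w
  ne := by
    rintro ⟨h1, h2, h3⟩
    exact P.ne ⟨(mul_eq_zero.1 h1).resolve_left hc, (mul_eq_zero.1 h2).resolve_left hc,
      (mul_eq_zero.1 h3).resolve_left hc⟩
  eq := by
    rw [form_smul, ← P.eq]
    ring

lemma value_zero {P : X.Point K} {i : Fin 7} (h : X.line P.x P.y P.z i = 0) :
    P.value i = - X.cubic P.x P.y P.z i := if_pos h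

lemma value_ne {P : X.Point K} {i : Fin 7} (h : X.line P.x P.y P.z i ≠ 0) :
    P.value i = X.line P.x P.y P.z i := if_neg h

lemma scale_value (P : X.Point K) {c : K} (hc : c ≠ 0) (i : Fin 7) :
    ∃ e : K, e ≠ 0 ∧ (Scale P c hc).value i = c * e ^ 2 * P.value i := by
  have h1 : X.line (Scale P c hc).x (Scale P c hc).y (Scale P c hc).z i =
      c * X.line P.x P.y P.z i := line_smul c P.x P.y P.z i
  by_cases h : X.line P.x P.y P.z i = 0
  · refine ⟨c, hc, ?_⟩
    rw [value_zero h, value_zero (by rw [h1, h, mul_zero])]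
    have h2 : X.cubic (Scale P c hc).x (Scale P c hc).y (Scale P c hc).z i =
      c ^ 3 * X.cubic P.x P.y P.z i := cubic_smul c P.x P.y P.z i
    rw [h2]
    ring
  · refine ⟨1, one_ne_zero, ?_⟩
    rw [value_ne h, value_ne (by rw [h1]; exact mul_ne_zero hc h), h1]
    ring

theorem scale_invariant (P : X.Point K) {c : K} (hc : c ≠ 0) {E : Finset (Fin 7)}
    (hE : Even E.card) : (Scale P c hc).invariant E = P.invariant E := by
  classical
  choose e he1 he2 using fun i => scale_value P hc i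
  obtain ⟨j, hj⟩ := hE
  have h1 : ∏ i ∈ E, (Scale P c hc).value i = (c ^ j * ∏ i ∈ E, e i) ^ 2 * ∏ i ∈ E, P.value i := by
    rw [Finset.prod_congr rfl fun i _ => he2 i, Finset.prod_mul_distrib, Finset.prod_mul_distrib,
      Finset.prod_const, Finset.prod_pow, mul_pow, ← pow_mul, hj]
    ring
  have h2 : c ^ j * ∏ i ∈ E, e i ≠ 0 :=
    mul_ne_zero (pow_ne_zero _ hc) (Finset.prod_ne_zero_iff.2 fun i _ => he1 i)
  unfold Point.invariant
  rw [h1, isNorm_sq_mul h2]

end scaling

end gen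

section padic

variable {p : ℕ} [hp : Fact p.Prime]

/-- valuations give the invariants if `p` is inert -/
theorem hasVec_inert (h : Inert p X.d) {P : X.Point ℚ_[p]} {s : Fin 7 → ZMod 2}
    (hs : ∀ i, (X.line P.x P.y P.z i ≠ 0 ∧ ((X.line P.x P.y P.z i).valuation : ZMod 2) = s i) ∨
      (X.cubic P.x P.y P.z i ≠ 0 ∧ ((X.cubic P.x P.y P.z i).valuation : ZMod 2) = s i)) :
    HasVec P s := by
  classical
  have hneg : ∀ a : ℚ_[p], (-a).valuation = a.valuation := by
    intro a
    by_cases ha : a = 0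
    · rw [ha, neg_zero]
    have h1 : -a = (-1) * a := by ring
    rw [h1, Padic.valuation_mul (neg_ne_zero.2 one_ne_zero) ha]
    have h2 : (-1 : ℚ_[p]).valuation = 0 := by
      have h3 : ((-1 : ℚ_[p]) * (-1)).valuation = 0 := by
        rw [neg_mul_neg, one_mul, Padic.valuation_one]
      rw [Padic.valuation_mul (neg_ne_zero.2 one_ne_zero) (neg_ne_zero.2 one_ne_zero)] at h3
      omega
    rw [h2, zero_add]
  have key : ∀ i, P.value i ≠ 0 ∧ ((P.value i).valuation : ZMod 2) = s i := by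
    intro i
    unfold Point.value
    by_cases h0 : X.line P.x P.y P.z i = 0
    · rw [if_pos h0]
      rcases hs i with h1 | h1
      · exact absurd h0 h1.1
      · exact ⟨neg_ne_zero.2 h1.1, by rw [hneg]; exact h1.2⟩
    · rw [if_neg h0]
      refine ⟨h0, ?_⟩
      rcases hs i with h1 | h1
      · exact h1.2
      · rw [← h1.2]
        have h2 := norm_line_cubic P i
        have h3 := h.even (neg_ne_zero.2 (mul_ne_zero h0 h1.1)) h2
        rw [hneg, Padic.valuation_mul h0 h1.1] at h3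
        have h4 : (((X.line P.x P.y P.z i).valuation + (X.cubic P.x P.y P.z i).valuation : ℤ) :
            ZMod 2) = 0 := by
          rw [ZMod.intCast_zmod_eq_zero_iff_dvd]
          exact_mod_cast h3.two_dvd
        push_cast at h4
        have h5 : ∀ a b : ZMod 2, a + b = 0 → a = b := by decide
        exact h5 _ _ h4
  intro E hE
  clear hE
  refine invariant_eq_of ?_
  rw [h.iff (Finset.prod_ne_zero_iff.2 fun i _ => (key i).1)]
  have h1 : ((∏ i ∈ E, P.value i).valuation : ZMod 2) = ∑ i ∈ E, s i := by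
    induction E using Finset.induction_on with
    | empty => simp
    | insert i E hi ih =>
      rw [Finset.prod_insert hi, Finset.sum_insert hi, Padic.valuation_mul (key i).1
        (Finset.prod_ne_zero_iff.2 fun i _ => (key i).1)]
      push_cast
      rw [(key i).2, ih]
  rw [← h1, ZMod.intCast_zmod_eq_zero_iff_dvd]
  exact_mod_cast even_iff_two_dvd

/-- the nontrivial character of order two -/
noncomputable def chi (r : ZMod p) : ZMod 2 := by
  classical
  exact if IsSquare r then 0 else 1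

lemma chi_prod (hp2 : p ≠ 2) (r : Fin 7 → ZMod p) (hr : ∀ i, r i ≠ 0) (E : Finset (Fin 7)) :
    IsSquare (∏ i ∈ E, r i) ↔ ∑ i ∈ E, chi (r i) = 0 := by
  classical
  have hF : ringChar (ZMod p) ≠ 2 := by rwa [ZMod.ringChar_zmod_n]
  have h1 : ∀ a : ZMod p, a ≠ 0 → ((-1 : ℤ) ^ (chi a).val = quadraticChar (ZMod p) a) := by
    intro a ha
    rw [chi]
    split_ifs with h
    · rw [(quadraticChar_one_iff_isSquare ha).2 h]
      rfl
    · rw [quadraticChar_neg_one_iff_not_isSquare.2 h]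
      rfl
  have h2 : ∀ a b : ZMod 2, (-1 : ℤ) ^ (a + b).val = (-1) ^ a.val * (-1) ^ b.val := by decide
  have h3 : (-1 : ℤ) ^ (∑ i ∈ E, chi (r i)).val = quadraticChar (ZMod p) (∏ i ∈ E, r i) := by
    induction E using Finset.induction_on with
    | empty => simp
    | insert i E hi ih =>
      rw [Finset.prod_insert hi, Finset.sum_insert hi, h2, ih, h1 _ (hr i), map_mul]
  have h4 : ∀ a : ZMod 2, a = 0 ↔ (-1 : ℤ) ^ a.val = 1 := by decide
  rw [h4, h3, quadraticChar_one_iff_isSquare (Finset.prod_ne_zero_iff.2 fun i _ => hr i)]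

open Classical in
/-- the residue of the value -/
noncomputable def res (X : Surface) {R : Type*} [CommRing R] (x y z : R) (i : Fin 7) : R :=
  if X.line x y z i = 0 then - X.cubic x y z i else X.line x y z i

lemma map_form {R S : Type*} [CommRing R] [CommRing S] (f : R →+* S) (x y z : R) :
    f (X.form x y z) = X.form (f x) (f y) (f z) := by
  simp [form]

lemma map_line {R S : Type*} [CommRing R] [CommRing S] (f : R →+* S) (x y z : R) (i : Fin 7) :
    f (X.line x y z i) = X.line (f x) (f y) (f z) i := by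
  fin_cases i <;> simp [line]

lemma map_cubic {R S : Type*} [CommRing R] [CommRing S] (f : R →+* S) (x y z : R) (i : Fin 7) :
    f (X.cubic x y z i) = X.cubic (f x) (f y) (f z) i := by
  fin_cases i <;> simp [cubic, cubicOne, quadricTwo, map_ofNat]

lemma map_conic {R S : Type*} [CommRing R] [CommRing S] (f : R →+* S) (x y z : R) (i : Fin 7) :
    f (X.conic x y z i) = X.conic (f x) (f y) (f z) i := by
  fin_cases i <;> simp [conic]

lemma coe_line (x y z : ℤ_[p]) (i : Fin 7) :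
    ((X.line x y z i : ℤ_[p]) : ℚ_[p]) = X.line (x : ℚ_[p]) y z i :=
  map_line (PadicInt.Coe.ringHom (p := p)) x y z i

lemma coe_cubic (x y z : ℤ_[p]) (i : Fin 7) :
    ((X.cubic x y z i : ℤ_[p]) : ℚ_[p]) = X.cubic (x : ℚ_[p]) y z i :=
  map_cubic (PadicInt.Coe.ringHom (p := p)) x y z i

lemma coe_conic (x y z : ℤ_[p]) (i : Fin 7) :
    ((X.conic x y z i : ℤ_[p]) : ℚ_[p]) = X.conic (x : ℚ_[p]) y z i :=
  map_conic (PadicInt.Coe.ringHom (p := p)) x y z i

lemma coe_form (x y z : ℤ_[p]) :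
    ((X.form x y z : ℤ_[p]) : ℚ_[p]) = X.form (x : ℚ_[p]) y z :=
  map_form (PadicInt.Coe.ringHom (p := p)) x y z

/-- residues give the invariants if `p` is ramified -/
theorem hasVec_ram {e : ℤ} (hp2 : p ≠ 2) (hd : X.d = p * e) (he : ¬ (p : ℤ) ∣ e)
    {P : X.Point ℚ_[p]} {x y z : ℤ_[p]} (hx : P.x = x) (hy : P.y = y) (hz : P.z = z)
    (hr : ∀ i, res X (PadicInt.toZMod x) (PadicInt.toZMod y) (PadicInt.toZMod z) i ≠ 0) :
    HasVec P (fun i => chi (res X (PadicInt.toZMod x) (PadicInt.toZMod y) (PadicInt.toZMod z) i)) := by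
  classical
  -- the units
  set u : Fin 7 → ℤ_[p] := fun i =>
    if PadicInt.toZMod (X.line x y z i) = 0 then - X.cubic x y z i else X.line x y z i with hu
  have hres : ∀ i, PadicInt.toZMod (u i) =
      res X (PadicInt.toZMod x) (PadicInt.toZMod y) (PadicInt.toZMod z) i := by
    intro i
    rw [hu]
    beta_reduce
    rw [res, ← map_line, ← map_cubic]
    split_ifs with h
    · rw [map_neg]
    · rfl
  have hunit : ∀ i, ‖u i‖ = 1 := fun i => toZMod_ne_zero.1 (by rw [hres]; exact hr i)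
  have hu0 : ∀ i, ((u i : ℤ_[p]) : ℚ_[p]) ≠ 0 := by
    intro i
    rw [PadicInt.coe_ne_zero, ← norm_ne_zero_iff, hunit i]
    exact one_ne_zero
  have hLne : ∀ i, PadicInt.toZMod (X.line x y z i) ≠ 0 → X.line P.x P.y P.z i ≠ 0 := by
    intro i h h0
    rw [hx, hy, hz, ← coe_line, PadicInt.coe_eq_zero] at h0
    rw [h0, map_zero] at h
    exact h rfl
  have huval : ∀ i, ((u i : ℤ_[p]) : ℚ_[p]) = if PadicInt.toZMod (X.line x y z i) = 0 then
      - X.cubic P.x P.y P.z i else X.line P.x P.y P.z i := by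
    intro i
    rw [hu]
    beta_reduce
    split_ifs with h
    · rw [hx, hy, hz, ← coe_cubic]; rfl
    · rw [hx, hy, hz, ← coe_line]
  refine hasVec_of ?_ (fun i => ((u i : ℤ_[p]) : ℚ_[p])) hu0 ?_ ?_
  · intro i
    unfold Point.value
    split_ifs with h
    · have h1 := huval i
      rw [if_pos (by by_contra h2; exact hLne i h2 h)] at h1
      rw [← h1]
      exact hu0 i
    · exact h
  · intro i
    rw [huval i]
    unfold Point.value
    by_cases h0 : PadicInt.toZMod (X.line x y z i) = 0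
    · rw [if_pos h0]
      split_ifs with h
      · rw [← sq]
        exact IsNorm.sq _
      · rw [mul_neg]
        exact norm_line_cubic P i
    · rw [if_neg h0, if_neg (hLne i h0), ← sq]
      exact IsNorm.sq _
  · intro E
    have h1 : ∏ i ∈ E, ((u i : ℤ_[p]) : ℚ_[p]) = ((∏ i ∈ E, u i : ℤ_[p]) : ℚ_[p]) :=
      (map_prod (PadicInt.Coe.ringHom (p := p)) u E).symm
    have h2 : ‖∏ i ∈ E, u i‖ = 1 := by
      rw [← toZMod_ne_zero, map_prod]
      exact Finset.prod_ne_zero_iff.2 fun i _ => by rw [hres]; exact hr i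
    rw [h1, ramified_iff hp2 hd he h2, map_prod, Finset.prod_congr rfl fun i _ => hres i]
    exact chi_prod hp2 _ hr E

/-- normalised coordinates -/
theorem normalize (P : X.Point ℚ_[p]) : ∃ (P' : X.Point ℚ_[p]) (x y z : ℤ_[p]),
    (∀ s, HasVec P' s → HasVec P s) ∧ P'.x = x ∧ P'.y = y ∧ P'.z = z ∧
    (z = 1 ∨ (y = 1 ∧ ‖z‖ < 1) ∨ (x = 1 ∧ ‖y‖ < 1 ∧ ‖z‖ < 1)) := by
  have hsc : ∀ (c : ℚ_[p]) (hc : c ≠ 0) (s : Fin 7 → ZMod 2), HasVec (Scale P c hc) s →
      HasVec P s := fun c hc s h => HasVec.congr (fun E hE => (scale_invariant P hc hE).symm) h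
  by_cases h1 : ‖P.x‖ ≤ ‖P.z‖ ∧ ‖P.y‖ ≤ ‖P.z‖
  · have hz : P.z ≠ 0 := by
      intro h0
      rw [h0, norm_zero] at h1
      exact P.ne ⟨norm_le_zero_iff.1 h1.1, norm_le_zero_iff.1 h1.2, h0⟩
    have h2 : ∀ a : ℚ_[p], ‖a‖ ≤ ‖P.z‖ → ‖P.z⁻¹ * a‖ ≤ 1 := by
      intro a ha
      rw [norm_mul, norm_inv, inv_mul_le_iff₀ (norm_pos_iff.2 hz), mul_one]
      exact ha
    refine ⟨Scale P P.z⁻¹ (inv_ne_zero hz), ⟨_, h2 _ h1.1⟩, ⟨_, h2 _ h1.2⟩, 1, hsc _ _, rfl, rfl,
      ?_, Or.inl rfl⟩
    exact inv_mul_cancel₀ hz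
  · by_cases h2 : ‖P.x‖ ≤ ‖P.y‖
    · have h3 : ‖P.z‖ < ‖P.y‖ := by
        by_contra h4
        rw [not_lt] at h4
        exact h1 ⟨h2.trans h4, h4⟩
      have hy : P.y ≠ 0 := by
        intro h0
        rw [h0, norm_zero] at h3
        exact absurd h3 (not_lt.2 (norm_nonneg _))
      have h4 : ‖P.y⁻¹ * P.x‖ ≤ 1 := by
        rw [norm_mul, norm_inv, inv_mul_le_iff₀ (norm_pos_iff.2 hy), mul_one]
        exact h2
      have h5 : ‖P.y⁻¹ * P.z‖ < 1 := by
        rw [norm_mul, norm_inv, inv_mul_lt_iff₀ (norm_pos_iff.2 hy), mul_one]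
        exact h3
      refine ⟨Scale P P.y⁻¹ (inv_ne_zero hy), ⟨_, h4⟩, 1, ⟨_, h5.le⟩, hsc _ _, rfl,
        ?_, rfl, Or.inr (Or.inl ⟨rfl, h5⟩)⟩
      exact inv_mul_cancel₀ hy
    · rw [not_le] at h2
      have h3 : ‖P.z‖ < ‖P.x‖ := by
        by_contra h4
        rw [not_lt] at h4
        exact h1 ⟨h4, h2.le.trans h4⟩
      have hx : P.x ≠ 0 := by
        intro h0
        rw [h0, norm_zero] at h3
        exact absurd h3 (not_lt.2 (norm_nonneg _))
      have h4 : ‖P.x⁻¹ * P.y‖ < 1 := by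
        rw [norm_mul, norm_inv, inv_mul_lt_iff₀ (norm_pos_iff.2 hx), mul_one]
        exact h2
      have h5 : ‖P.x⁻¹ * P.z‖ < 1 := by
        rw [norm_mul, norm_inv, inv_mul_lt_iff₀ (norm_pos_iff.2 hx), mul_one]
        exact h3
      refine ⟨Scale P P.x⁻¹ (inv_ne_zero hx), 1, ⟨_, h4.le⟩, ⟨_, h5.le⟩, hsc _ _, ?_,
        rfl, rfl, Or.inr (Or.inr ⟨rfl, h4, h5⟩)⟩
      exact inv_mul_cancel₀ hx

end padic

end Pool.Agent.H437.DP
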