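import Pool.Agent.H437.DP.Good

/-!
# Double planes: the classes are unramified
-/

set_option autoImplicit false

namespace Pool.Agent.H437.DP

open Surface

variable {X : Surface}

section

variable {Ω : Type} [Field Ω] (O : ValuationSubring Ω)

/-- the product of a square and a unit -/
def SqUnit (a : Ω) : Prop := ∃ (c : Ω) (u : O), c ≠ 0 ∧ IsUnit u ∧ a = c ^ 2 * u

variable {O}

lemma SqUnit.unit {u : O} (hu : IsUnit u) : SqUnit O (u : Ω) :=
  ⟨1, u, one_ne_zero, hu, by ring⟩

lemma SqUnit.sq {c : Ω} (hc : c ≠ 0) : SqUnit O (c ^ 2) :=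
  ⟨c, 1, hc, isUnit_one, by simp⟩

lemma SqUnit.mul {a b : Ω} (ha : SqUnit O a) (hb : SqUnit O b) : SqUnit O (a * b) := by
  obtain ⟨c, u, hc, hu, rfl⟩ := ha
  obtain ⟨c', u', hc', hu', rfl⟩ := hb
  refine ⟨c * c', u * u', mul_ne_zero hc hc', hu.mul hu', ?_⟩
  push_cast
  ring

lemma SqUnit.ne_zero {a : Ω} (ha : SqUnit O a) : a ≠ 0 := by
  obtain ⟨c, u, hc, hu, rfl⟩ := ha
  refine mul_ne_zero (pow_ne_zero _ hc) ?_
  intro h
  have h2 : u = 0 := Subtype.ext h
  rw [h2] at hu
  exact not_isUnit_zero hu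

lemma SqUnit.inv {a : Ω} (ha : SqUnit O a) : SqUnit O a⁻¹ := by
  obtain ⟨c, u, hc, hu, rfl⟩ := ha
  obtain ⟨u', rfl⟩ := hu
  refine ⟨c⁻¹, ((u'⁻¹ : Oˣ) : O), inv_ne_zero hc, Units.isUnit _, ?_⟩
  have h2 : ((u' : O) : Ω) * (((u'⁻¹ : Oˣ) : O) : Ω) = 1 := by
    exact congrArg (fun t : O => (t : Ω)) (Units.mul_inv u')
  refine inv_eq_of_mul_eq_one_right ?_
  calc c ^ 2 * ((u' : O) : Ω) * (c⁻¹ ^ 2 * (((u'⁻¹ : Oˣ) : O) : Ω)) =
      (c * c⁻¹) ^ 2 * (((u' : O) : Ω) * (((u'⁻¹ : Oˣ) : O) : Ω)) := by ring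
    _ = 1 := by rw [h2, mul_inv_cancel₀ hc]; ring

lemma SqUnit.prod {I : Type} (S : Finset I) (f : I → Ω) (h : ∀ i ∈ S, SqUnit O (f i)) :
    SqUnit O (∏ i ∈ S, f i) := by
  classical
  induction S using Finset.induction_on with
  | empty => exact ⟨1, 1, one_ne_zero, isUnit_one, by simp⟩
  | insert i S hi ih =>
    rw [Finset.prod_insert hi]
    exact (h i (Finset.mem_insert_self _ _)).mul
      (ih fun j hj => h j (Finset.mem_insert_of_mem hj))

lemma residue_ne {a : O} : IsLocalRing.residue O a ≠ 0 ↔ IsUnit a := by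
  rw [Ne, IsLocalRing.residue_eq_zero_iff, IsLocalRing.mem_maximalIdeal, mem_nonunits_iff, not_not]

/-- norms are products of squares and units -/
lemma norm_sqUnit {d : ℤ} (hd : IsUnit (d : O)) (hs : ¬ IsSquare (d : IsLocalRing.ResidueField O))
    {A B : Ω} (h : A ^ 2 - d * B ^ 2 ≠ 0) : SqUnit O (A ^ 2 - d * B ^ 2) := by
  by_cases hA : A = 0
  · have hB : B ≠ 0 := by
      rintro rfl
      apply h
      rw [hA]
      ring
    have h1 : A ^ 2 - d * B ^ 2 = B ^ 2 * ((-(d : O) : O) : Ω) := by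
      rw [hA]
      push_cast
      ring
    rw [h1]
    exact (SqUnit.sq hB).mul (SqUnit.unit hd.neg)
  · rcases O.mem_or_inv_mem (B / A) with h1 | h1
    · set t : O := ⟨B / A, h1⟩ with ht
      have h2 : A ^ 2 - d * B ^ 2 = A ^ 2 * ((1 - (d : O) * t ^ 2 : O) : Ω) := by
        push_cast
        rw [ht]
        field_simp
      rw [h2]
      refine (SqUnit.sq hA).mul (SqUnit.unit (residue_ne.1 ?_))
      intro h3
      rw [map_sub, map_one, map_mul, map_pow, map_intCast] at h3
      apply hs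
      have h4 : IsLocalRing.residue O t ≠ 0 := by
        intro h5
        rw [h5] at h3
        simp at h3
      refine ⟨(IsLocalRing.residue O t)⁻¹, ?_⟩
      field_simp
      linear_combination -h3
    · by_cases hB : B = 0
      · have h2 : A ^ 2 - d * B ^ 2 = A ^ 2 := by rw [hB]; ring
        rw [h2]
        exact SqUnit.sq hA
      · rw [inv_div] at h1
        set t : O := ⟨A / B, h1⟩ with ht
        have h2 : A ^ 2 - d * B ^ 2 = B ^ 2 * ((t ^ 2 - (d : O) : O) : Ω) := by
          push_cast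
          rw [ht]
          field_simp
        rw [h2]
        refine (SqUnit.sq hB).mul (SqUnit.unit (residue_ne.1 ?_))
        intro h3
        rw [map_sub, map_pow, map_intCast] at h3
        apply hs
        refine ⟨IsLocalRing.residue O t, ?_⟩
        linear_combination -h3

/-- normalised coordinates -/
lemma exists_primitive {x y z : Ω} (h : ¬ (x = 0 ∧ y = 0 ∧ z = 0)) :
    ∃ (c : Ω) (x' y' z' : O), c ≠ 0 ∧ c * x = x' ∧ c * y = y' ∧ c * z = z' ∧
      (x' = 1 ∨ y' = 1 ∨ z' = 1) := by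
  have key : ∀ a b : Ω, b ≠ 0 → O.valuation a ≤ O.valuation b → b⁻¹ * a ∈ O := by
    intro a b hb hab
    rw [← O.valuation_le_one_iff, map_mul, map_inv₀]
    have h1 : 0 < O.valuation b := zero_lt_iff.2 ((Valuation.ne_zero_iff _).2 hb)
    exact inv_mul_le_one_of_le₀ hab zero_le
  have hne : ∀ a b : Ω, O.valuation a ≤ O.valuation b → b = 0 → a = 0 := by
    rintro a b hab rfl
    rw [map_zero, le_zero_iff, Valuation.zero_iff] at hab
    exact hab
  rcases le_total (O.valuation x) (O.valuation y) with h1 | h1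
  · rcases le_total (O.valuation y) (O.valuation z) with h2 | h2
    · have hz : z ≠ 0 := fun h0 => h ⟨hne x z (h1.trans h2) h0, hne y z h2 h0, h0⟩
      exact ⟨z⁻¹, ⟨_, key x z hz (h1.trans h2)⟩, ⟨_, key y z hz h2⟩, 1, inv_ne_zero hz, rfl, rfl,
        inv_mul_cancel₀ hz, Or.inr (Or.inr rfl)⟩
    · have hy : y ≠ 0 := fun h0 => h ⟨hne x y h1 h0, h0, hne z y h2 h0⟩
      exact ⟨y⁻¹, ⟨_, key x y hy h1⟩, 1, ⟨_, key z y hy h2⟩, inv_ne_zero hy, rfl,
        inv_mul_cancel₀ hy, rfl, Or.inr (Or.inl rfl)⟩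
  · rcases le_total (O.valuation x) (O.valuation z) with h2 | h2
    · have hz : z ≠ 0 := fun h0 => h ⟨hne x z h2 h0, hne y z (h1.trans h2) h0, h0⟩
      exact ⟨z⁻¹, ⟨_, key x z hz h2⟩, ⟨_, key y z hz (h1.trans h2)⟩, 1, inv_ne_zero hz, rfl, rfl,
        inv_mul_cancel₀ hz, Or.inr (Or.inr rfl)⟩
    · have hx : x ≠ 0 := fun h0 => h ⟨h0, hne y x h1 h0, hne z x h2 h0⟩
      exact ⟨x⁻¹, 1, ⟨_, key y x hx h1⟩, ⟨_, key z x hx h2⟩, inv_ne_zero hx,
        inv_mul_cancel₀ hx, rfl, rfl, Or.inl rfl⟩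

end

theorem unramified (hb : bad X ≠ 0) (hd : X.d ≠ 0) : X.Unramified := by
  intro Ω _ _ O hO P E
  by_cases hs : IsSquare ((X.d : ℤ) : IsLocalRing.ResidueField O)
  · exact Or.inr hs
  left
  -- integers are units
  have hint : ∀ n : ℤ, n ≠ 0 → IsUnit (n : O) := by
    intro n hn
    have h1 : (n : Ω) ≠ 0 := by exact_mod_cast hn
    have h2 : ((n : Ω))⁻¹ ∈ O := by
      have := hO ((n : ℚ)⁻¹)
      push_cast at this
      exact this
    refine IsUnit.of_mul_eq_one ⟨_, h2⟩ ?_
    apply Subtype.ext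
    push_cast
    exact mul_inv_cancel₀ h1
  obtain ⟨c, x, y, z, hc, hx, hy, hz, hprim⟩ := exists_primitive (O := O) P.ne
  have hform : X.d * (c ^ 2 * P.w) ^ 2 = ((X.form x y z : O) : Ω) := by
    have h1 : ((X.form x y z : O) : Ω) = X.form (x : Ω) y z := map_form O.subtype x y z
    rw [h1, ← hx, ← hy, ← hz, form_smul, ← P.eq]
    ring
  -- the fourth coordinate
  obtain ⟨w, hw⟩ : ∃ w : O, c ^ 2 * P.w = w := by
    have h1 : (c ^ 2 * P.w) ^ 2 ∈ O := by
      obtain ⟨u, hu⟩ := hint X.d hd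
      have h2 : (c ^ 2 * P.w) ^ 2 = (((u⁻¹ : Oˣ) : O) * X.form x y z : O) := by
        push_cast
        rw [← hform]
        have h3 : (((u⁻¹ : Oˣ) : O) : Ω) * (X.d : Ω) = 1 := by
          have h4 := congrArg (fun t : O => (t : Ω)) (Units.inv_mul u)
          simp only [hu] at h4
          simpa using h4
        linear_combination -(c ^ 2 * P.w) ^ 2 * h3
      rw [h2]
      exact Subtype.prop _
    rcases O.mem_or_inv_mem (c ^ 2 * P.w) with h2 | h2
    · exact ⟨⟨_, h2⟩, rfl⟩
    · by_cases h3 : c ^ 2 * P.w = 0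
      · exact ⟨0, h3⟩
      · have h4 : c ^ 2 * P.w = (c ^ 2 * P.w) ^ 2 * (c ^ 2 * P.w)⁻¹ := by
          rw [sq (c ^ 2 * P.w), mul_assoc (c ^ 2 * P.w), mul_inv_cancel₀ h3, mul_one]
        refine ⟨⟨c ^ 2 * P.w, ?_⟩, rfl⟩
        rw [h4]
        exact O.mul_mem _ _ h1 h2
  have hform' : (X.d : O) * w ^ 2 = X.form x y z := by
    apply Subtype.ext
    rw [← hform, hw]
    push_cast
    rfl
  -- the line or the cubic is a unit
  have hunit : ∀ i, IsUnit (X.line x y z i) ∨ IsUnit (X.cubic x y z i) := by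
    intro i
    by_contra h1
    push Not at h1
    obtain ⟨h1, h2⟩ := h1
    rw [← residue_ne, not_not] at h1 h2
    have h3 := congrArg (IsLocalRing.residue O) (X.bitangent x y z i)
    rw [← hform', map_mul, h1, zero_mul, map_sub, map_mul, map_mul, map_pow, map_pow, map_pow,
      map_intCast, map_intCast] at h3
    have h4 : IsLocalRing.residue O (X.conic x y z i) = 0 := by
      by_contra h5
      apply hs
      have h6 : (X.scale i : IsLocalRing.ResidueField O) * IsLocalRing.residue O w ≠ 0 := by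
        intro h7
        apply h5
        have h8 : IsLocalRing.residue O (X.conic x y z i) ^ 2 = 0 := by
          linear_combination h3 + (X.d : IsLocalRing.ResidueField O) *
            ((X.scale i : IsLocalRing.ResidueField O) * IsLocalRing.residue O w) * h7
        exact pow_eq_zero_iff two_ne_zero |>.1 h8
      refine ⟨IsLocalRing.residue O (X.conic x y z i) /
        ((X.scale i : IsLocalRing.ResidueField O) * IsLocalRing.residue O w), ?_⟩
      rw [div_mul_div_comm, eq_div_iff (mul_ne_zero h6 h6)]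
      linear_combination -h3
    have hb' : ((bad X : ℤ) : IsLocalRing.ResidueField O) ≠ 0 := by
      have := residue_ne.2 (hint _ hb)
      rwa [map_intCast] at this
    rw [map_line] at h1
    rw [map_conic] at h4
    rw [map_cubic] at h2
    obtain ⟨e1, e2, e3⟩ := common hb' h1 h4 h2
    rcases hprim with h7 | h7 | h7
    · rw [h7, map_one] at e1
      exact one_ne_zero e1
    · rw [h7, map_one] at e2
      exact one_ne_zero e2
    · rw [h7, map_one] at e3
      exact one_ne_zero e3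
  -- the scaled point
  set P' := Scale P c hc with hP'
  have hL : ∀ i, X.line P'.x P'.y P'.z i = ((X.line x y z i : O) : Ω) := by
    intro i
    have h1 : ((X.line x y z i : O) : Ω) = X.line (x : Ω) y z i := map_line O.subtype x y z i
    rw [h1, ← hx, ← hy, ← hz]
    rfl
  have hC : ∀ i, X.cubic P'.x P'.y P'.z i = ((X.cubic x y z i : O) : Ω) := by
    intro i
    have h1 : ((X.cubic x y z i : O) : Ω) = X.cubic (x : Ω) y z i := map_cubic O.subtype x y z i
    rw [h1, ← hx, ← hy, ← hz]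
    rfl
  have hval : ∀ i, SqUnit O (P'.value i) := by
    intro i
    by_cases h0 : X.line P'.x P'.y P'.z i = 0
    · rw [value_zero h0]
      have h1 : IsUnit (X.cubic x y z i) := by
        rcases hunit i with h2 | h2
        · exfalso
          rw [hL] at h0
          have h3 : X.line x y z i = 0 := Subtype.ext h0
          rw [h3] at h2
          exact not_isUnit_zero h2
        · exact h2
      rw [hC]
      have h2 := SqUnit.unit (O := O) h1.neg
      rwa [show ((-X.cubic x y z i : O) : Ω) = -((X.cubic x y z i : O) : Ω) from rfl] at h2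
    · rw [value_ne h0]
      rcases hunit i with h1 | h1
      · rw [hL]
        exact SqUnit.unit h1
      · have hC0 : X.cubic P'.x P'.y P'.z i ≠ 0 := by
          rw [hC]
          exact (SqUnit.unit h1).ne_zero
        have h2 := norm_line_cubic P' i
        obtain ⟨s, t, hst⟩ := h2
        have h3 : SqUnit O (-(X.line P'.x P'.y P'.z i * X.cubic P'.x P'.y P'.z i)) := by
          rw [hst]
          refine norm_sqUnit (hint _ hd) hs ?_
          rw [← hst]
          exact neg_ne_zero.2 (mul_ne_zero h0 hC0)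
        have h4 : SqUnit O (-X.cubic P'.x P'.y P'.z i) := by
          rw [hC]
          have h2 := SqUnit.unit (O := O) h1.neg
          rwa [show ((-X.cubic x y z i : O) : Ω) = -((X.cubic x y z i : O) : Ω) from rfl] at h2
        have h5 := h3.mul h4.inv
        have h6 : -(X.line P'.x P'.y P'.z i * X.cubic P'.x P'.y P'.z i) *
            (-X.cubic P'.x P'.y P'.z i)⁻¹ = X.line P'.x P'.y P'.z i := by
          field_simp
        rwa [h6] at h5
  -- the point itself
  have hprod : SqUnit O (∏ i ∈ E.1, P'.value i) := SqUnit.prod _ _ fun i _ => hval i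
  choose e he1 he2 using fun i => scale_value P hc i
  obtain ⟨j, hj⟩ := E.2
  have h1 : ∏ i ∈ E.1, P'.value i =
      (c ^ j * ∏ i ∈ E.1, e i) ^ 2 * ∏ i ∈ E.1, P.value i := by
    rw [Finset.prod_congr rfl fun i _ => he2 i, Finset.prod_mul_distrib, Finset.prod_mul_distrib,
      Finset.prod_const, Finset.prod_pow, mul_pow, ← pow_mul, hj]
    ring
  have h2 : c ^ j * ∏ i ∈ E.1, e i ≠ 0 :=
    mul_ne_zero (pow_ne_zero _ hc) (Finset.prod_ne_zero_iff.2 fun i _ => he1 i)
  have h3 : ∏ i ∈ E.1, P.value i =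
      ((c ^ j * ∏ i ∈ E.1, e i) ^ 2)⁻¹ * ∏ i ∈ E.1, P'.value i := by
    rw [h1, inv_mul_cancel_left₀ (pow_ne_zero _ h2)]
  have h4 : SqUnit O (∏ i ∈ E.1, P.value i) := by
    rw [h3]
    exact (SqUnit.sq h2).inv.mul hprod
  exact h4

end Pool.Agent.H437.DP
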