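import Pool.Agent.H437.DP.Other
import Pool.Agent.H437.DP.Unram

/-!
# Double planes: the certificates
-/

set_option autoImplicit false

namespace Pool.Agent.H437.DP

open Surface

variable {X : Surface}

/-- the check of the parameters -/
def okCheck (π : Par) (a b m n : ℤ) (q : ℕ) : Bool :=
  (((π.g : ℤ) + 1) % q).toNat.beq 0 && (((π.a : ℤ) - a) % q).toNat.beq 0 &&
    (((π.b : ℤ) - b) % q).toNat.beq 0 && (((π.m : ℤ) - m) % q).toNat.beq 0 &&
    (((π.n : ℤ) - n) % q).toNat.beq 0

lemma cast_of_check {q : ℕ} (hq : 0 < q) {a : ℤ} (h : (a % q).toNat.beq 0 = true) :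
    (a : ZMod q) = 0 := by
  rw [Nat.beq_eq] at h
  have h1 := Int.emod_nonneg a (b := (q : ℤ)) (by exact_mod_cast hq.ne')
  rw [ZMod.intCast_zmod_eq_zero_iff_dvd]
  exact Int.dvd_of_emod_eq_zero (by omega)

lemma ok_of_check {π : Par} {q : ℕ} (hq : 0 < q)
    (h : okCheck π X.a X.b X.m X.n q = true) : π.Ok X q := by
  simp only [okCheck, Bool.and_eq_true] at h
  obtain ⟨⟨⟨⟨h1, h2⟩, h3⟩, h4⟩, h5⟩ := h
  have g1 := cast_of_check hq h1
  have g2 := cast_of_check hq h2
  have g3 := cast_of_check hq h3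
  have g4 := cast_of_check hq h4
  have g5 := cast_of_check hq h5
  push_cast at g1 g2 g3 g4 g5
  constructor
  · push_cast
    linear_combination g1
  · push_cast
    linear_combination g2
  · push_cast
    linear_combination g3
  · push_cast
    linear_combination g4
  · push_cast
    linear_combination g5

/-- the check that `p` is inert -/
def isInert (p : ℕ) (d : ℤ) : Bool :=
  if p.beq 2 then (d % 8).toNat.beq 5 else
    !((d % p).toNat ^ (p / 2) % p).beq 1 && !(d % p).toNat.beq 0

lemma inert_of_check {p : ℕ} [hp : Fact p.Prime] {d : ℤ} (h : isInert p d = true) : Inert p d := by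
  unfold isInert at h
  by_cases h2 : p = 2
  · subst h2
    rw [if_pos (by rfl), Nat.beq_eq] at h
    exact Or.inr ⟨rfl, by omega⟩
  · rw [if_neg (by rwa [Nat.beq_eq]), Bool.and_eq_true, Bool.not_eq_true', Bool.not_eq_true',
      ← Bool.not_eq_true, ← Bool.not_eq_true, Nat.beq_eq, Nat.beq_eq] at h
    obtain ⟨h3, h4⟩ := h
    refine Or.inl ⟨h2, fun h5 => h3 ?_⟩
    have hpos : (0 : ℤ) < p := by exact_mod_cast hp.out.pos
    have h6 : (((d % p).toNat : ℕ) : ZMod p) = (d : ZMod p) := by
      have h4 : (((d % p).toNat : ℕ) : ℤ) = d % p := Int.toNat_of_nonneg (Int.emod_nonneg _ hpos.ne')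
      have h5 : ((((d % p).toNat : ℕ) : ℤ) : ZMod p) = (d : ZMod p) := by
        rw [h4]
        exact (ZMod.intCast_mod d p)
      rwa [Int.cast_natCast] at h5
    have hd : (d : ZMod p) ≠ 0 := by
      intro h7
      apply h4
      rw [ZMod.intCast_zmod_eq_zero_iff_dvd] at h7
      rw [Int.emod_eq_zero_of_dvd h7]
      rfl
    have h7 := (ZMod.euler_criterion p hd).1 h5
    have h8 : (((d % p).toNat ^ (p / 2) % p : ℕ) : ZMod p) = ((1 : ℕ) : ZMod p) := by
      rw [ZMod.natCast_mod]
      push_cast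
      rw [h6]
      exact h7
    rw [ZMod.natCast_eq_natCast_iff'] at h8
    rw [Nat.mod_mod, Nat.mod_eq_of_lt hp.out.one_lt] at h8
    exact h8

theorem image_ram {p : Nat.Primes} {e : ℤ} {π : Par} {M : ℕ} {L : Wits} (hp2 : (p : ℕ) ≠ 2)
    (hd : X.d = (p : ℕ) * e) (he : ¬ ((p : ℕ) : ℤ) ∣ e)
    (hπ : okCheck π X.a X.b X.m X.n p = true) (h : ramCheck π p M = true)
    (hw : ramWit X π p M L = true) : Image X p M :=
  ⟨fun P => ramCheck_sound hp2 hd he (ok_of_check p.2.pos hπ) h P,
    fun _ hc hM => ramWit_sound hp2 hd he (ok_of_check p.2.pos hπ) hw hc hM⟩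

theorem image_inert {p : Nat.Primes} {π π' : Par} {M d K k : ℕ} {As : List ℕ} {L : Wits}
    (hI : isInert p X.d = true) (hπ : okCheck π X.a X.b X.m X.n ((p : ℕ) ^ K) = true)
    (hd : (((d : ℤ) - X.d) % (((p : ℕ) ^ K : ℕ) : ℤ)).toNat.beq 0 = true) (hK : As.length = K)
    (hm : maskCheck p d As p = true) (ht : inertCheck π p M As = true)
    (hπ' : okCheck π' X.a X.b X.m X.n ((p : ℕ) ^ k) = true)
    (hw : inertWit X π' p k M L = true) : Image X p M :=
  ⟨fun P => inertCheck_sound (inert_of_check hI) (ok_of_check (pow_pos p.2.pos _) hπ) (by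
      have := cast_of_check (pow_pos p.2.pos _) hd
      rw [Int.cast_sub, Int.cast_natCast] at this
      linear_combination this) hK hm ht P,
    fun _ hc hM => inertWit_sound (inert_of_check hI) (ok_of_check (pow_pos p.2.pos _) hπ') hw hc hM⟩

/-- the check at the points with given residues from the checks at finer residues -/
theorem tree_two {π : Par} {M ch A k N u v : ℕ} {As : List ℕ}
    (h00 : tree π 2 M ch As (k + 1) (N * 2) u v = true)
    (h01 : tree π 2 M ch As (k + 1) (N * 2) u (v + N) = true)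
    (h10 : tree π 2 M ch As (k + 1) (N * 2) (u + N) v = true)
    (h11 : tree π 2 M ch As (k + 1) (N * 2) (u + N) (v + N) = true) :
    tree π 2 M ch (A :: As) k N u v = true := by
  unfold tree
  split_ifs
  · rfl
  · simp only [List.all_eq_true, List.mem_range]
    intro i hi j hj
    interval_cases i <;> interval_cases j <;> simpa using by assumption
  · rfl

theorem inertCheck_two {π : Par} {M : ℕ} {As : List ℕ}
    (h000 : tree π 2 M 0 As 1 2 0 0 = true) (h001 : tree π 2 M 0 As 1 2 0 1 = true)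
    (h010 : tree π 2 M 0 As 1 2 1 0 = true) (h011 : tree π 2 M 0 As 1 2 1 1 = true)
    (h10 : tree π 2 M 1 As 1 2 0 0 = true) (h11 : tree π 2 M 1 As 1 2 1 0 = true)
    (h2 : tree π 2 M 2 As 1 2 0 0 = true) : inertCheck π 2 M As = true := by
  simp only [inertCheck, Bool.and_eq_true, List.all_eq_true, List.mem_range]
  refine ⟨⟨?_, ?_⟩, h2⟩
  · intro i hi j hj
    interval_cases i <;> interval_cases j <;> assumption
  · intro i hi
    interval_cases i <;> assumption

theorem image_nonempty {p : Nat.Primes} {M c : ℕ} (h : Image X p M) (hc : c < 64)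
    (hM : M.testBit c = true) : Nonempty (X.Point ℚ_[(p : ℕ)]) :=
  ⟨(h.lower c hc hM).choose⟩

end Pool.Agent.H437.DP
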