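import Mathlib

/-!
# Norms from quadratic extensions of the fields of `p`-adic numbers
-/

set_option autoImplicit false

namespace Pool.Agent.H437.DP

open Polynomial

/-- `a = s² - d t²` for some `s`, `t` -/
def IsNorm {K : Type*} [Field K] (d : ℤ) (a : K) : Prop := ∃ s t : K, a = s ^ 2 - d * t ^ 2

section gen

variable {K : Type*} [Field K] {d : ℤ}

lemma IsNorm.one : IsNorm d (1 : K) := ⟨1, 0, by ring⟩

lemma IsNorm.sq (a : K) : IsNorm d (a ^ 2) := ⟨a, 0, by ring⟩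

lemma IsNorm.mul {a b : K} (ha : IsNorm d a) (hb : IsNorm d b) : IsNorm d (a * b) := by
  obtain ⟨s, t, rfl⟩ := ha
  obtain ⟨u, v, rfl⟩ := hb
  exact ⟨s * u + d * t * v, s * v + t * u, by ring⟩

lemma IsNorm.inv {a : K} (ha : IsNorm d a) : IsNorm d a⁻¹ := by
  by_cases h : a = 0
  · rw [h, inv_zero]
    exact ⟨0, 0, by ring⟩
  have h1 : a⁻¹ = a * (a⁻¹) ^ 2 := by field_simp
  rw [h1]
  exact ha.mul (IsNorm.sq _)

lemma IsNorm.prod {I : Type*} (S : Finset I) (f : I → K) (h : ∀ i ∈ S, IsNorm d (f i)) :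
    IsNorm d (∏ i ∈ S, f i) := by
  classical
  induction S using Finset.induction_on with
  | empty => rw [Finset.prod_empty]; exact IsNorm.one
  | insert i S hi ih =>
    rw [Finset.prod_insert hi]
    exact (h i (Finset.mem_insert_self i S)).mul (ih fun j hj => h j (Finset.mem_insert_of_mem hj))

lemma IsNorm.congr {a b : K} (ha : a ≠ 0) (hb : b ≠ 0) (h : IsNorm d (a * b)) :
    IsNorm d a ↔ IsNorm d b := by
  constructor
  · intro h1
    have h2 := h.mul h1.inv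
    rwa [mul_comm a b, mul_assoc, mul_inv_cancel₀ ha, mul_one] at h2
  · intro h1
    have h2 := h.mul h1.inv
    rwa [mul_assoc, mul_inv_cancel₀ hb, mul_one] at h2

lemma isNorm_sq_mul {a c : K} (hc : c ≠ 0) : IsNorm d (c ^ 2 * a) ↔ IsNorm d a := by
  constructor
  · intro h
    have h1 := (IsNorm.sq (d := d) c⁻¹).mul h
    rwa [← mul_assoc, ← mul_pow, inv_mul_cancel₀ hc, one_pow, one_mul] at h1
  · exact fun h => (IsNorm.sq c).mul h

lemma isNorm_of_sq [NeZero (2 : K)] (hd : (d : K) ≠ 0) (h : IsSquare (d : K)) (a : K) :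
    IsNorm d a := by
  obtain ⟨c, hc⟩ := h
  have hc0 : c ≠ 0 := by
    rintro rfl
    rw [mul_zero] at hc
    exact hd hc
  have h2 : (2 : K) ≠ 0 := NeZero.ne _
  refine ⟨(a + 1) / 2, (a - 1) / (2 * c), ?_⟩
  rw [hc]
  field_simp
  ring

end gen

section padic

variable {p : ℕ} [hp : Fact p.Prime]

/-- Hensel's lemma for squares -/
lemma isSquare_of_close {u a : ℤ_[p]} (h : ‖a ^ 2 - u‖ < ‖2 * a‖ ^ 2) : IsSquare u := by
  have h1 : ‖(X ^ 2 - C u : ℤ_[p][X]).aeval a‖ <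
      ‖(derivative (X ^ 2 - C u : ℤ_[p][X])).aeval a‖ ^ 2 := by
    simpa [one_add_one_eq_two] using h
  obtain ⟨z, hz, -⟩ := hensels_lemma (F := X ^ 2 - C u) (a := a) h1
  refine ⟨z, ?_⟩
  have h2 : z ^ 2 - u = 0 := by simpa using hz
  rw [← sq]
  exact (sub_eq_zero.1 h2).symm

/-- units that are close to each other differ by a square -/
lemma exists_sq_mul {u c : ℤ_[p]} (hc : ‖c‖ = 1) (h : ‖u - c‖ < ‖(2 : ℤ_[p])‖ ^ 2) :
    ∃ r : ℤ_[p], u = r ^ 2 * c := by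
  obtain ⟨e, he⟩ := PadicInt.isUnit_iff.2 hc
  have h1 : IsSquare (u * (e⁻¹ : ℤ_[p]ˣ)) := by
    refine isSquare_of_close (a := 1) ?_
    have h2 : (1 : ℤ_[p]) ^ 2 - u * ((e⁻¹ : ℤ_[p]ˣ) : ℤ_[p]) = -(u - c) * ((e⁻¹ : ℤ_[p]ˣ) : ℤ_[p]) := by
      have : (c : ℤ_[p]) * ((e⁻¹ : ℤ_[p]ˣ) : ℤ_[p]) = 1 := by rw [← he]; simp
      linear_combination -this
    rw [h2, norm_mul, norm_neg, PadicInt.norm_units, mul_one, mul_one]
    exact h
  obtain ⟨r, hr⟩ := h1
  refine ⟨r, ?_⟩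
  have h3 : u = u * ((e⁻¹ : ℤ_[p]ˣ) : ℤ_[p]) * c := by rw [mul_assoc, ← he]; simp
  rw [h3, hr, sq]

lemma norm_two_odd (h : p ≠ 2) : ‖(2 : ℤ_[p])‖ = 1 := by
  have h1 : ‖((2 : ℤ) : ℤ_[p])‖ = 1 := by
    rw [PadicInt.norm_intCast_eq_one_iff]
    have : IsCoprime ((p : ℕ) : ℤ) ((2 : ℕ) : ℤ) :=
      Nat.isCoprime_iff_coprime.2 ((Nat.coprime_primes hp.out Nat.prime_two).2 h)
    simpa using this.symm
  simpa using h1

/-- elements with the same residue modulo a power of `p` -/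
lemma valuation_eq {y : ℤ_[p]} {n : ℤ} {k : ℕ}
    (h : PadicInt.toZModPow k y = (n : ZMod (p ^ k))) (hn : ¬ (p : ℤ) ^ k ∣ n) :
    (y : ℚ_[p]) ≠ 0 ∧ (y : ℚ_[p]).valuation = padicValInt p n := by
  have h1 : PadicInt.toZModPow k (y - (n : ℤ_[p])) = 0 := by
    rw [map_sub, h, map_intCast, sub_self]
  have h2 : ‖y - (n : ℤ_[p])‖ ≤ (p : ℝ) ^ (-k : ℤ) := by
    rw [PadicInt.norm_le_pow_iff_mem_span_pow, ← PadicInt.ker_toZModPow]
    exact h1
  have h3 : (p : ℝ) ^ (-k : ℤ) < ‖(n : ℤ_[p])‖ := by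
    rw [← not_le, PadicInt.norm_int_le_pow_iff_dvd]
    exact_mod_cast hn
  have h4 : ‖y‖ = ‖(n : ℤ_[p])‖ :=
    PadicInt.norm_eq_of_norm_add_lt_right (z2 := -(n : ℤ_[p])) (by
      rw [norm_neg, ← sub_eq_add_neg]; exact lt_of_le_of_lt h2 h3) |>.trans (norm_neg _)
  have h5 : (n : ℤ_[p]) ≠ 0 := by
    intro h6
    rw [h6, norm_zero] at h3
    exact absurd h3 (not_lt.2 (zpow_nonneg (Nat.cast_nonneg p) _))
  have h6 : y ≠ 0 := by
    rw [← norm_ne_zero_iff, h4, norm_ne_zero_iff]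
    exact h5
  have h7 : (y : ℚ_[p]) ≠ 0 := PadicInt.coe_ne_zero.2 h6
  refine ⟨h7, ?_⟩
  have h8 : ((n : ℤ_[p]) : ℚ_[p]) ≠ 0 := PadicInt.coe_ne_zero.2 h5
  have h9 : ‖(y : ℚ_[p])‖ = ‖((n : ℤ_[p]) : ℚ_[p])‖ := h4
  rw [Padic.norm_eq_zpow_neg_valuation h7, Padic.norm_eq_zpow_neg_valuation h8,
    PadicInt.coe_intCast, Padic.valuation_intCast] at h9
  have h10 : (1 : ℝ) < p := by exact_mod_cast hp.out.one_lt
  have h11 := zpow_right_injective₀ (by linarith) h10.ne' h9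
  linarith

lemma toZMod_eq_zero {y : ℤ_[p]} : PadicInt.toZMod y = 0 ↔ ‖y‖ < 1 := by
  rw [← PadicInt.mem_nonunits, ← RingHom.mem_ker, PadicInt.ker_toZMod]
  exact IsLocalRing.mem_maximalIdeal y

lemma toZMod_ne_zero {y : ℤ_[p]} : PadicInt.toZMod y ≠ 0 ↔ ‖y‖ = 1 := by
  rw [Ne, toZMod_eq_zero, not_lt]
  exact ⟨fun h => le_antisymm (PadicInt.norm_le_one y) h, fun h => h.ge⟩

lemma valuation_zero_iff {y : ℤ_[p]} (h : ‖y‖ = 1) : (y : ℚ_[p]).valuation = 0 := by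
  have h0 : (y : ℚ_[p]) ≠ 0 := by
    rw [PadicInt.coe_ne_zero, ← norm_ne_zero_iff, h]
    exact one_ne_zero
  have h1 : ‖(y : ℚ_[p])‖ = 1 := h
  rw [Padic.norm_eq_zpow_neg_valuation h0] at h1
  have h10 : (1 : ℝ) < p := by exact_mod_cast hp.out.one_lt
  have h11 := zpow_right_injective₀ (by linarith) h10.ne' (h1.trans (zpow_zero (p : ℝ)).symm)
  linarith

/-- `p` is inert in the field generated by a square root of `d` -/
def Inert (p : ℕ) (d : ℤ) : Prop := (p ≠ 2 ∧ ¬ IsSquare (d : ZMod p)) ∨ (p = 2 ∧ d % 8 = 5)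

lemma Inert.norm {d : ℤ} (h : Inert p d) : ‖((d : ℤ) : ℤ_[p])‖ = 1 := by
  rw [PadicInt.norm_intCast_eq_one_iff]
  rcases h with ⟨h1, h2⟩ | ⟨rfl, h2⟩
  · rw [Int.isCoprime_iff_gcd_eq_one, Int.gcd_comm, ← Int.isCoprime_iff_gcd_eq_one,
      Prime.coprime_iff_not_dvd (Nat.prime_iff_prime_int.1 hp.out)]
    intro h3
    apply h2
    rw [(ZMod.intCast_zmod_eq_zero_iff_dvd d p).2 h3]
    exact IsSquare.zero
  · rw [Int.isCoprime_iff_gcd_eq_one, Int.gcd_comm, ← Int.isCoprime_iff_gcd_eq_one,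
      Prime.coprime_iff_not_dvd (Nat.prime_iff_prime_int.1 hp.out)]
    push_cast
    omega

lemma inert_unit {d : ℤ} (h : Inert p d) (y : ℤ_[p]) :
    ((1 - d * y ^ 2 : ℤ_[p]) : ℚ_[p]) ≠ 0 ∧
      Even ((1 - d * y ^ 2 : ℤ_[p]) : ℚ_[p]).valuation := by
  rcases h with ⟨h1, h2⟩ | ⟨rfl, h2⟩
  · have h3 : ‖(1 - d * y ^ 2 : ℤ_[p])‖ = 1 := by
      rw [← toZMod_ne_zero]
      intro h4
      apply h2
      rw [map_sub, map_mul, map_pow, map_one, map_intCast, sub_eq_zero] at h4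
      have h5 : PadicInt.toZMod y ≠ 0 := by
        intro h6
        rw [h6] at h4
        norm_num at h4
      refine ⟨(PadicInt.toZMod y)⁻¹, ?_⟩
      field_simp
      exact h4.symm
    refine ⟨?_, ?_⟩
    · rw [PadicInt.coe_ne_zero, ← norm_ne_zero_iff, h3]
      exact one_ne_zero
    · rw [valuation_zero_iff h3]
      exact Even.zero
  · have h3 : ∀ x : ZMod (2 ^ 3), 1 - 5 * x ^ 2 = ((1 : ℤ) : ZMod (2 ^ 3)) ∨
        1 - 5 * x ^ 2 = ((5 : ℤ) : ZMod (2 ^ 3)) ∨ 1 - 5 * x ^ 2 = ((4 : ℤ) : ZMod (2 ^ 3)) := by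
      decide
    have h4 : PadicInt.toZModPow 3 (1 - d * y ^ 2 : ℤ_[2]) =
        1 - 5 * (PadicInt.toZModPow 3 y) ^ 2 := by
      rw [map_sub, map_mul, map_pow, map_one, map_intCast]
      congr 2
      have h5 : ((d : ℤ) : ZMod (2 ^ 3)) = ((5 : ℤ) : ZMod (2 ^ 3)) := by
        rw [ZMod.intCast_eq_intCast_iff]
        exact h2
      rw [h5]
      rfl
    rcases h3 (PadicInt.toZModPow 3 y) with h5 | h5 | h5
    · obtain ⟨h6, h7⟩ := valuation_eq (h4.trans h5) (by norm_num)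
      refine ⟨h6, ?_⟩
      rw [h7]
      norm_num [padicValInt]
    · obtain ⟨h6, h7⟩ := valuation_eq (h4.trans h5) (by norm_num)
      refine ⟨h6, ?_⟩
      rw [h7]
      have : padicValInt 2 5 = 0 := by
        rw [padicValInt]
        exact padicValNat.eq_zero_of_not_dvd (by norm_num)
      rw [this]
      exact Even.zero
    · obtain ⟨h6, h7⟩ := valuation_eq (h4.trans h5) (by norm_num)
      refine ⟨h6, ?_⟩
      rw [h7]
      have : padicValInt 2 4 = 2 := by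
        rw [padicValInt]
        have : Int.natAbs 4 = 2 ^ 2 := rfl
        rw [this, padicValNat.prime_pow]
      rw [this]
      decide

/-- the valuation of a norm is even if `p` is inert -/
theorem Inert.even {d : ℤ} (h : Inert p d) {a : ℚ_[p]} (ha : a ≠ 0) (hN : IsNorm d a) :
    Even a.valuation := by
  obtain ⟨s, t, rfl⟩ := hN
  by_cases hst : ‖t‖ ≤ ‖s‖
  · have hs : s ≠ 0 := by
      rintro rfl
      rw [norm_zero] at hst
      have : t = 0 := norm_le_zero_iff.1 hst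
      subst this
      apply ha
      ring
    have h1 : ‖t / s‖ ≤ 1 := by
      rw [norm_div]
      exact div_le_one_of_le₀ hst (norm_nonneg _)
    obtain ⟨h2, h3⟩ := inert_unit h ⟨t / s, h1⟩
    have h4 : s ^ 2 - d * t ^ 2 = s ^ 2 * ((1 - d * ⟨t / s, h1⟩ ^ 2 : ℤ_[p]) : ℚ_[p]) := by
      change _ = s ^ 2 * (1 - (d : ℚ_[p]) * (t / s) ^ 2)
      field_simp
    rw [h4, Padic.valuation_mul (pow_ne_zero _ hs) h2, Padic.valuation_pow]
    exact Even.add (by norm_num) h3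
  · rw [not_le] at hst
    have ht : t ≠ 0 := by
      rintro rfl
      rw [norm_zero] at hst
      exact absurd hst (not_lt.2 (norm_nonneg _))
    have h1 : ‖s / t‖ < 1 := by
      rw [norm_div]
      exact (div_lt_one (norm_pos_iff.2 ht)).2 hst
    have h2 : ‖(s / t) ^ 2 - d‖ = 1 := by
      have h3 : ‖((d : ℤ) : ℚ_[p])‖ = 1 := h.norm
      have h4 : ‖(s / t) ^ 2‖ < 1 := by
        rw [norm_pow]
        exact pow_lt_one₀ (norm_nonneg _) h1 two_ne_zero
      have h5 : ‖(s / t) ^ 2 + -((d : ℤ) : ℚ_[p])‖ = max ‖(s / t) ^ 2‖ ‖-((d : ℤ) : ℚ_[p])‖ :=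
        Padic.add_eq_max_of_ne (by rw [norm_neg, h3]; exact h4.ne)
      rw [sub_eq_add_neg, h5, norm_neg, h3]
      exact max_eq_right h4.le
    have h3 : (s / t) ^ 2 - d ≠ 0 := by
      rw [← norm_ne_zero_iff, h2]
      exact one_ne_zero
    have h4 : s ^ 2 - d * t ^ 2 = t ^ 2 * ((s / t) ^ 2 - d) := by
      field_simp
    have h5 : ((s / t) ^ 2 - d : ℚ_[p]).valuation = 0 := valuation_zero_iff (y := ⟨_, h2.le⟩) h2
    rw [h4, Padic.valuation_mul (pow_ne_zero _ ht) h3, Padic.valuation_pow, h5]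
    norm_num

lemma unit_part {a : ℚ_[p]} (ha : a ≠ 0) : ‖a * (p : ℚ_[p]) ^ (-a.valuation)‖ = 1 := by
  rw [norm_mul, Padic.norm_p_zpow, neg_neg, Padic.norm_eq_zpow_neg_valuation ha,
    ← zpow_add₀ (by exact_mod_cast hp.out.ne_zero), neg_add_cancel, zpow_zero]

lemma isNorm_unit {d : ℤ} (h : Inert p d) {u : ℤ_[p]} (hu : ‖u‖ = 1) : IsNorm d (u : ℚ_[p]) := by
  obtain ⟨s, t, hst⟩ : ∃ s t : ℤ_[p], ‖u - (s ^ 2 - d * t ^ 2)‖ < ‖(2 : ℤ_[p])‖ ^ 2 := by
    rcases h with ⟨h1, h2⟩ | ⟨rfl, h2⟩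
    · rw [norm_two_odd h1, one_pow]
      have hd : ((d : ℤ) : ZMod p) ≠ 0 := by
        intro h3
        rw [h3] at h2
        exact h2 IsSquare.zero
      obtain ⟨a, b, hab⟩ := FiniteField.exists_root_sum_quadratic
        (f := (X ^ 2 - C (PadicInt.toZMod u) : (ZMod p)[X]))
        (g := (C (-(d : ZMod p)) * X ^ 2 : (ZMod p)[X]))
        (degree_X_pow_sub_C (by norm_num) _)
        (by rw [degree_C_mul (neg_ne_zero.2 hd), degree_X_pow]; rfl)
        (by rw [ZMod.card]; exact Nat.odd_iff.1 (hp.out.odd_of_ne_two h1))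
      refine ⟨(a.val : ℤ_[p]), (b.val : ℤ_[p]), ?_⟩
      rw [← toZMod_eq_zero, map_sub, map_sub, map_mul, map_pow, map_pow, map_natCast, map_natCast,
        map_intCast, ZMod.natCast_zmod_val, ZMod.natCast_zmod_val]
      simp only [eval_sub, eval_pow, eval_X, eval_C, eval_mul] at hab
      linear_combination -hab
    · have h3 : ∀ x : ZMod (2 ^ 3), x * x * (x * x) = 1 → ∃ s t : ZMod (2 ^ 3),
          x = s ^ 2 - 5 * t ^ 2 := by decide
      have h4 : PadicInt.toZModPow 3 u * PadicInt.toZModPow 3 u *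
          (PadicInt.toZModPow 3 u * PadicInt.toZModPow 3 u) = 1 := by
        obtain ⟨e, rfl⟩ := PadicInt.isUnit_iff.2 hu
        have h5 : ∀ e f : ZMod (2 ^ 3), e * f = 1 → e * e * (e * e) = 1 := by decide
        refine h5 _ (PadicInt.toZModPow 3 ((e⁻¹ : ℤ_[2]ˣ) : ℤ_[2])) ?_
        rw [← map_mul, Units.mul_inv, map_one]
      obtain ⟨s, t, hst⟩ := h3 _ h4
      refine ⟨(s.val : ℤ_[2]), (t.val : ℤ_[2]), ?_⟩
      have h5 : PadicInt.toZModPow 3 (u - ((s.val : ℤ_[2]) ^ 2 - (d : ℤ_[2]) * (t.val : ℤ_[2]) ^ 2))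
          = 0 := by
        rw [map_sub, map_sub, map_mul, map_pow, map_pow, map_natCast, map_natCast, map_intCast,
          ZMod.natCast_zmod_val, ZMod.natCast_zmod_val, hst]
        have h6 : ((d : ℤ) : ZMod (2 ^ 3)) = ((5 : ℤ) : ZMod (2 ^ 3)) := by
          rw [ZMod.intCast_eq_intCast_iff]
          exact h2
        rw [h6]
        push_cast
        ring
      have h6 : ‖u - ((s.val : ℤ_[2]) ^ 2 - (d : ℤ_[2]) * (t.val : ℤ_[2]) ^ 2)‖ ≤
          ((2 : ℕ) : ℝ) ^ (-(3 : ℕ) : ℤ) := by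
        rw [PadicInt.norm_le_pow_iff_mem_span_pow, ← PadicInt.ker_toZModPow]
        exact h5
      refine lt_of_le_of_lt h6 ?_
      have h7 : ‖(2 : ℤ_[2])‖ = 1 / 2 := by
        have := PadicInt.norm_p (p := 2)
        push_cast at this
        rw [this]
        norm_num
      rw [h7]
      norm_num
  have hc : ‖s ^ 2 - d * t ^ 2‖ = 1 := by
    have h2 : ‖(2 : ℤ_[p])‖ ≤ 1 := PadicInt.norm_le_one _
    have h3 : ‖u - (s ^ 2 - d * t ^ 2)‖ < ‖u‖ := by
      rw [hu]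
      refine lt_of_lt_of_le hst ?_
      exact pow_le_one₀ (norm_nonneg _) h2
    have h4 := PadicInt.norm_eq_of_norm_add_lt_left (z1 := u) (z2 := -(s ^ 2 - d * t ^ 2)) (by
      rw [← sub_eq_add_neg]; exact h3)
    rw [norm_neg] at h4
    rw [← h4, hu]
  obtain ⟨r, hr⟩ := exists_sq_mul hc hst
  refine ⟨r * s, r * t, ?_⟩
  rw [hr]
  push_cast
  ring

/-- the norms if `p` is inert -/
theorem Inert.iff {d : ℤ} (h : Inert p d) {a : ℚ_[p]} (ha : a ≠ 0) :
    IsNorm d a ↔ Even a.valuation := by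
  refine ⟨h.even ha, ?_⟩
  rintro ⟨j, hj⟩
  have h1 := isNorm_unit h (u := ⟨_, (unit_part ha).le⟩) (unit_part ha)
  have h2 : a = ((p : ℚ_[p]) ^ j) ^ 2 * (a * (p : ℚ_[p]) ^ (-a.valuation)) := by
    have h3 : (p : ℚ_[p]) ≠ 0 := by exact_mod_cast hp.out.ne_zero
    rw [hj, ← zpow_natCast, ← zpow_mul, mul_left_comm, ← zpow_add₀ h3]
    have h4 : j * ((2 : ℕ) : ℤ) + -(j + j) = 0 := by push_cast; ring
    rw [h4, zpow_zero, mul_one]
  rw [h2]
  exact (IsNorm.sq _).mul h1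

/-- unit norms if `p` is ramified -/
theorem ramified_iff {d e : ℤ} (hp2 : p ≠ 2) (hd : d = p * e) (he : ¬ (p : ℤ) ∣ e) {u : ℤ_[p]}
    (hu : ‖u‖ = 1) : IsNorm d (u : ℚ_[p]) ↔ IsSquare (PadicInt.toZMod u) := by
  constructor
  · rintro ⟨s, t, hst⟩
    have hu' : ‖(u : ℚ_[p])‖ = 1 := hu
    have hpne : (p : ℚ_[p]) ≠ 0 := by exact_mod_cast hp.out.ne_zero
    have hene : (e : ℚ_[p]) ≠ 0 := by
      intro h
      apply he
      have : e = 0 := by exact_mod_cast h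
      rw [this]
      exact dvd_zero _
    have hev : (e : ℚ_[p]).valuation = 0 := by
      rw [Padic.valuation_intCast, padicValInt.eq_zero_of_not_dvd he, Nat.cast_zero]
    have h1 : ‖(d : ℚ_[p]) * t ^ 2‖ < 1 := by
      by_cases ht : t = 0
      · rw [ht]
        norm_num
      by_contra hcon
      rw [not_lt] at hcon
      have hne : (d : ℚ_[p]) * t ^ 2 ≠ 0 := by
        rw [hd]
        push_cast
        exact mul_ne_zero (mul_ne_zero hpne hene) (pow_ne_zero _ ht)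
      have hval : ((d : ℚ_[p]) * t ^ 2).valuation = 1 + 2 * t.valuation := by
        rw [Padic.valuation_mul (left_ne_zero_of_mul hne) (pow_ne_zero _ ht), Padic.valuation_pow,
          hd]
        push_cast
        rw [Padic.valuation_mul hpne hene, Padic.valuation_p, hev]
        ring
      have hs : s ^ 2 = u + d * t ^ 2 := by rw [hst]; ring
      have hgt : 1 < ‖(d : ℚ_[p]) * t ^ 2‖ := by
        rcases hcon.lt_or_eq with h | h
        · exact h
        · exfalso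
          have h2 : ((d : ℚ_[p]) * t ^ 2).valuation = 0 :=
            valuation_zero_iff (y := ⟨_, h.symm.le⟩) h.symm
          omega
      have h3 : ‖s ^ 2‖ = ‖(d : ℚ_[p]) * t ^ 2‖ := by
        rw [hs, Padic.add_eq_max_of_ne (by rw [hu']; exact hgt.ne), hu']
        exact max_eq_right hgt.le
      have hs0 : s ≠ 0 := by
        rintro rfl
        rw [zero_pow two_ne_zero, norm_zero] at h3
        linarith
      rw [Padic.norm_eq_zpow_neg_valuation (pow_ne_zero _ hs0),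
        Padic.norm_eq_zpow_neg_valuation hne] at h3
      have h10 : (1 : ℝ) < p := by exact_mod_cast hp.out.one_lt
      have h11 := zpow_right_injective₀ (by linarith) h10.ne' h3
      rw [Padic.valuation_pow, hval] at h11
      push_cast at h11
      omega
    have h2 : ‖s‖ = 1 := by
      have h3 : ‖s ^ 2‖ = 1 := by
        have hs : s ^ 2 = u + d * t ^ 2 := by rw [hst]; ring
        rw [hs, Padic.add_eq_max_of_ne (by rw [hu']; exact h1.ne'), hu']
        exact max_eq_left h1.le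
      rw [norm_pow] at h3
      exact (pow_eq_one_iff_of_nonneg (norm_nonneg _) two_ne_zero).1 h3
    let s' : ℤ_[p] := ⟨s, h2.le⟩
    refine ⟨PadicInt.toZMod s', ?_⟩
    rw [← sq, ← map_pow, ← sub_eq_zero, ← map_sub, toZMod_eq_zero]
    change ‖(u : ℚ_[p]) - s ^ 2‖ < 1
    have h3 : (u : ℚ_[p]) - s ^ 2 = -((d : ℚ_[p]) * t ^ 2) := by rw [hst]; ring
    rw [h3, norm_neg]
    exact h1
  · rintro ⟨c, hc⟩
    have hc0 : c ≠ 0 := by
      rintro rfl
      rw [mul_zero] at hc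
      exact absurd hc (toZMod_ne_zero.2 hu)
    have h1 : IsSquare u := by
      refine isSquare_of_close (a := (c.val : ℤ_[p])) ?_
      have h2 : PadicInt.toZMod ((c.val : ℤ_[p]) ^ 2 - u) = 0 := by
        rw [map_sub, map_pow, map_natCast, ZMod.natCast_zmod_val, hc]
        ring
      have h3 : ‖(c.val : ℤ_[p])‖ = 1 := by
        rw [← toZMod_ne_zero, map_natCast, ZMod.natCast_zmod_val]
        exact hc0
      rw [norm_mul, norm_two_odd hp2, h3, mul_one, one_pow]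
      exact toZMod_eq_zero.1 h2
    obtain ⟨v, hv⟩ := h1
    refine ⟨v, 0, ?_⟩
    rw [hv]
    push_cast
    ring

/-- squares of units for odd `p` -/
theorem isSquare_odd (hp2 : p ≠ 2) {u : ℤ_[p]} (hu : ‖u‖ = 1) (h : IsSquare (PadicInt.toZMod u)) :
    IsSquare (u : ℚ_[p]) := by
  obtain ⟨s, t, hst⟩ := (ramified_iff hp2 (d := p) (e := 1) (by ring) (by
    intro h1
    have := Int.le_of_dvd one_pos h1
    have := hp.out.two_le
    omega) hu).2 h
  obtain ⟨c, hc⟩ := h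
  have hc0 : c ≠ 0 := by
    rintro rfl
    rw [mul_zero] at hc
    exact absurd hc (toZMod_ne_zero.2 hu)
  have h1 : IsSquare u := by
    refine isSquare_of_close (a := (c.val : ℤ_[p])) ?_
    have h2 : PadicInt.toZMod ((c.val : ℤ_[p]) ^ 2 - u) = 0 := by
      rw [map_sub, map_pow, map_natCast, ZMod.natCast_zmod_val, hc]
      ring
    have h3 : ‖(c.val : ℤ_[p])‖ = 1 := by
      rw [← toZMod_ne_zero, map_natCast, ZMod.natCast_zmod_val]
      exact hc0
    rw [norm_mul, norm_two_odd hp2, h3, mul_one, one_pow]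
    exact toZMod_eq_zero.1 h2
  obtain ⟨v, hv⟩ := h1
  exact ⟨v, by rw [hv]; rfl⟩

/-- squares of units for `p = 2` -/
theorem isSquare_two {u : ℤ_[2]} (h : PadicInt.toZModPow 3 u = 1) : IsSquare (u : ℚ_[2]) := by
  have h5 : PadicInt.toZModPow 3 (1 ^ 2 - u) = 0 := by
    rw [map_sub, map_pow, map_one, h]
    ring
  have h6 : ‖(1 : ℤ_[2]) ^ 2 - u‖ ≤ ((2 : ℕ) : ℝ) ^ (-(3 : ℕ) : ℤ) := by
    rw [PadicInt.norm_le_pow_iff_mem_span_pow, ← PadicInt.ker_toZModPow]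
    exact h5
  have h1 : IsSquare u := by
    refine isSquare_of_close (a := 1) ?_
    refine lt_of_le_of_lt h6 ?_
    have h7 : ‖(2 : ℤ_[2])‖ = 1 / 2 := by
      have := PadicInt.norm_p (p := 2)
      push_cast at this
      rw [this]
      norm_num
    rw [mul_one, h7]
    norm_num
  obtain ⟨v, hv⟩ := h1
  exact ⟨v, by rw [hv]; rfl⟩

end padic

end Pool.Agent.H437.DP
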