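import Pool.Agent.H437.DP.Total

/-!
# Double planes: the other primes, smoothness, independence
-/

set_option autoImplicit false

namespace Pool.Agent.H437.DP

open Surface

variable {X : Surface}

/-- `d` is a square in the field of `q`-adic numbers -/
def splitCheck (d : ℤ) (q : ℕ) (c : ℤ) : Bool :=
  if q.beq 2 then (d % 8).toNat.beq 1 else ((c ^ 2 - d) % q).toNat.beq 0 && !(d % q).toNat.beq 0

lemma splitCheck_sound {d : ℤ} {p : ℕ} [hp : Fact p.Prime] {c : ℤ}
    (h : splitCheck d p c = true) : IsSquare (d : ℚ_[p]) := by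
  have hpos : (0 : ℤ) < p := by exact_mod_cast hp.out.pos
  unfold splitCheck at h
  by_cases h2 : p = 2
  · subst h2
    rw [if_pos (by rfl), Nat.beq_eq] at h
    exact isSquare_int_two (by omega)
  · rw [if_neg (by rwa [Nat.beq_eq]), Bool.and_eq_true, Nat.beq_eq, Bool.not_eq_true',
      ← Bool.not_eq_true, Nat.beq_eq] at h
    obtain ⟨h3, h4⟩ := h
    have h5 : (c ^ 2 - d) % p = 0 := by
      have := Int.emod_nonneg (c ^ 2 - d) hpos.ne'
      omega
    refine isSquare_int_odd h2 (fun h6 => h4 ?_) ⟨(c : ZMod p), ?_⟩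
    · rw [Int.emod_eq_zero_of_dvd h6]
      rfl
    · have h6 : ((c ^ 2 - d : ℤ) : ZMod p) = 0 := by
        rw [ZMod.intCast_zmod_eq_zero_iff_dvd]
        exact Int.dvd_of_emod_eq_zero h5
      push_cast at h6
      linear_combination -h6

/-- the primes outside a finite set -/
theorem others {S : Finset Nat.Primes} {Q : List (ℕ × ℤ)} {k : ℕ} {x y z x' y' z' t : ℤ}
    (hd : X.d ≠ 0) (hQ : ∀ q ∈ Q, q.1.Prime)
    (hN : 2 * bad X * X.d * t ∣ ((Q.map Prod.fst).prod : ℤ) ^ k)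
    (ht : X.form x y z * X.form x' y' z' * X.d = t ^ 2)
    (hsplit : ∀ q ∈ Q, (∃ s ∈ S, (s : ℕ) = q.1) ∨ splitCheck X.d q.1 q.2 = true)
    (p : Nat.Primes) (hpS : p ∉ S) :
    (∀ P : X.Point ℚ_[(p : ℕ)], HasVec P 0) ∧ Nonempty (X.Point ℚ_[(p : ℕ)]) := by
  have hprime := Nat.prime_iff_prime_int.1 p.2
  have hsq : IsSquare (X.d : ℚ_[(p : ℕ)]) →
      (∀ P : X.Point ℚ_[(p : ℕ)], HasVec P 0) ∧ Nonempty (X.Point ℚ_[(p : ℕ)]) := fun h =>
    ⟨hasVec_split (by exact_mod_cast hd) h, exists_point_split hd h⟩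
  by_cases hpQ : ∃ q ∈ Q, q.1 = p
  · obtain ⟨q, hq, hqp⟩ := hpQ
    rcases hsplit q hq with ⟨s, hs, hs1⟩ | h1
    · exfalso
      apply hpS
      have : s = p := Subtype.ext (hs1.trans hqp)
      rwa [← this]
    · rw [hqp] at h1
      exact hsq (splitCheck_sound h1)
  · have h1 : ¬ ((p : ℕ) : ℤ) ∣ 2 * bad X * X.d * t := by
      intro h2
      have h3 := Int.natCast_dvd_natCast.1 (hprime.dvd_of_dvd_pow (h2.trans hN))
      rw [Prime.dvd_prod_iff p.2.prime] at h3
      obtain ⟨a, ha, ha1⟩ := h3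
      rw [List.mem_map] at ha
      obtain ⟨b, hb, rfl⟩ := ha
      exact hpQ ⟨b, hb, ((Nat.prime_dvd_prime_iff_eq p.2 (hQ b hb)).1 ha1).symm⟩
    have h2 : ¬ ((p : ℕ) : ℤ) ∣ 2 := fun h => h1 (by
      exact dvd_mul_of_dvd_left (dvd_mul_of_dvd_left (dvd_mul_of_dvd_left h _) _) _)
    have h3 : ¬ ((p : ℕ) : ℤ) ∣ bad X := fun h => h1 (by
      exact dvd_mul_of_dvd_left (dvd_mul_of_dvd_left (dvd_mul_of_dvd_right h _) _) _)
    have h4 : ¬ ((p : ℕ) : ℤ) ∣ X.d := fun h => h1 (by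
      exact dvd_mul_of_dvd_left (dvd_mul_of_dvd_right h _) _)
    have h5 : ¬ ((p : ℕ) : ℤ) ∣ t := fun h => h1 (dvd_mul_of_dvd_right h _)
    have hp2 : (p : ℕ) ≠ 2 := by
      intro h
      apply h2
      rw [h]
      norm_num
    by_cases h6 : IsSquare ((X.d : ℤ) : ZMod p)
    · exact hsq (isSquare_int_odd hp2 h4 h6)
    · have hI : Inert p X.d := Or.inl ⟨hp2, h6⟩
      exact ⟨hasVec_good hI h3, exists_point_inert hI hp2 ht h5⟩

/-- smoothness of the quartic curve -/
theorem smooth_of (h1 : X.a ≠ 0) (h2 : 2 * X.a + X.b ≠ 0) (h3 : 2 * X.a - X.b ≠ 0)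
    (h4 : X.a + X.b ≠ 0) : X.Smooth := by
  intro x y z e1 e2 e3
  have h1' : (X.a : ℂ) ≠ 0 := by exact_mod_cast h1
  have h2' : 2 * (X.a : ℂ) + X.b ≠ 0 := by exact_mod_cast h2
  have h3' : 2 * (X.a : ℂ) - X.b ≠ 0 := by exact_mod_cast h3
  have h4' : (X.a : ℂ) + X.b ≠ 0 := by exact_mod_cast h4
  -- two coordinates
  have two : ∀ y z : ℂ, 4 * X.a * y ^ 3 + 2 * X.b * y * z ^ 2 = 0 →
      4 * X.a * z ^ 3 + 2 * X.b * z * y ^ 2 = 0 → y = 0 ∧ z = 0 := by
    intro y z f1 f2
    by_cases hy : y = 0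
    · refine ⟨hy, ?_⟩
      rw [hy] at f2
      have f3 : (4 * (X.a : ℂ)) * z ^ 3 = 0 := by linear_combination f2
      exact pow_eq_zero_iff (n := 3) (by norm_num) |>.1
        ((mul_eq_zero.1 f3).resolve_left (mul_ne_zero (by norm_num) h1'))
    · by_cases hz : z = 0
      · exfalso
        rw [hz] at f1
        have f3 : (4 * (X.a : ℂ)) * y ^ 3 = 0 := by linear_combination f1
        exact hy (pow_eq_zero_iff (n := 3) (by norm_num) |>.1
          ((mul_eq_zero.1 f3).resolve_left (mul_ne_zero (by norm_num) h1')))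
      · exfalso
        have g1 : 2 * (X.a : ℂ) * y ^ 2 + X.b * z ^ 2 = 0 := by
          refine (mul_eq_zero.1 (?_ : (2 * y) * _ = 0)).resolve_left
            (mul_ne_zero two_ne_zero hy)
          linear_combination f1
        have g2 : 2 * (X.a : ℂ) * z ^ 2 + X.b * y ^ 2 = 0 := by
          refine (mul_eq_zero.1 (?_ : (2 * z) * _ = 0)).resolve_left
            (mul_ne_zero two_ne_zero hz)
          linear_combination f2
        have g3 : ((2 * (X.a : ℂ) + X.b) * (2 * X.a - X.b)) * y ^ 2 = 0 := by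
          linear_combination 2 * (X.a : ℂ) * g1 - X.b * g2
        exact hy (pow_eq_zero_iff two_ne_zero |>.1
          ((mul_eq_zero.1 g3).resolve_left (mul_ne_zero h2' h3')))
  by_cases hx : x = 0
  · subst hx
    obtain ⟨hy, hz⟩ := two y z (by linear_combination e2) (by linear_combination e3)
    exact ⟨rfl, hy, hz⟩
  · by_cases hy : y = 0
    · subst hy
      obtain ⟨hx', hz⟩ := two x z (by linear_combination e1) (by linear_combination e3)
      exact absurd hx' hx
    · by_cases hz : z = 0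
      · subst hz
        obtain ⟨hx', hy'⟩ := two x y (by linear_combination e1) (by linear_combination e2)
        exact absurd hx' hx
      · exfalso
        have g1 : 2 * (X.a : ℂ) * x ^ 2 + X.b * (y ^ 2 + z ^ 2) = 0 := by
          refine (mul_eq_zero.1 (?_ : (2 * x) * _ = 0)).resolve_left
            (mul_ne_zero two_ne_zero hx)
          linear_combination e1
        have g2 : 2 * (X.a : ℂ) * y ^ 2 + X.b * (x ^ 2 + z ^ 2) = 0 := by
          refine (mul_eq_zero.1 (?_ : (2 * y) * _ = 0)).resolve_left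
            (mul_ne_zero two_ne_zero hy)
          linear_combination e2
        have g3 : 2 * (X.a : ℂ) * z ^ 2 + X.b * (x ^ 2 + y ^ 2) = 0 := by
          refine (mul_eq_zero.1 (?_ : (2 * z) * _ = 0)).resolve_left
            (mul_ne_zero two_ne_zero hz)
          linear_combination e3
        have g4 : (2 * ((X.a : ℂ) + X.b)) * (x ^ 2 + y ^ 2 + z ^ 2) = 0 := by
          linear_combination g1 + g2 + g3
        have g5 := (mul_eq_zero.1 g4).resolve_left (mul_ne_zero two_ne_zero h4')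
        have g6 : (2 * (X.a : ℂ) - X.b) * x ^ 2 = 0 := by
          linear_combination g1 - X.b * g5
        exact hx (pow_eq_zero_iff two_ne_zero |>.1 ((mul_eq_zero.1 g6).resolve_left h3'))

/-- the check that the invariants of a class are not constant -/
def indepCheck (Ms : List ℕ) : Prop :=
  ∀ E : Finset (Fin 7), Even E.card → E.Nonempty → ∃ M ∈ Ms, ∃ c < 64, ∃ c' < 64,
    M.testBit c = true ∧ M.testBit c' = true ∧ ∑ i ∈ E, vec c i ≠ ∑ i ∈ E, vec c' i

theorem independent_of {Ms : List ℕ} (h : indepCheck Ms)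
    (hM : ∀ M ∈ Ms, ∃ p : Nat.Primes, Image X p M) : X.Independent := by
  intro E hE
  obtain ⟨M, hM1, c, hc, c', hc', h1, h2, h3⟩ := h E.1 E.2 hE
  obtain ⟨p, hp⟩ := hM M hM1
  obtain ⟨P, hP⟩ := hp.lower c hc h1
  obtain ⟨P', hP'⟩ := hp.lower c' hc' h2
  refine ⟨p, P, P', ?_⟩
  rw [hP E.1 E.2, hP' E.1 E.2]
  exact h3

end Pool.Agent.H437.DP
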