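import Pool.Agent.H437.DP.Code

/-!
# Double planes: the ramified primes
-/

set_option autoImplicit false

namespace Pool.Agent.H437.DP

open Surface

variable {X : Surface}

/-- the bit of a residue: `2` if it is not known -/
def bitR (p g l c : ℕ) : ℕ :=
  if (l % p).beq 0 then
    (if (c % p).beq 0 then 2 else if (((g * c) % p) ^ (p / 2) % p).beq 1 then 0 else 1)
  else if ((l % p) ^ (p / 2) % p).beq 1 then 0 else 1

/-- the check at one point -/
def ramOne (π : Par) (p M x y z : ℕ) : Bool :=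
  if (π.form x y z % p).beq 0 then π.test (bitR p π.g) M x y z else true

/-- the check at all points over the field with `p` elements -/
def ramCheck (π : Par) (p M : ℕ) : Bool :=
  ((List.range p).all fun x => (List.range p).all fun y => ramOne π p M x y 1) &&
    ((List.range p).all fun x => ramOne π p M x 1 0) && ramOne π p M 1 0 0

variable {p : ℕ} [hp : Fact p.Prime]

lemma chi_eq {r : ℕ} (hr : ((r : ℕ) : ZMod p) ≠ 0) :
    chi ((r : ℕ) : ZMod p) = if ((r % p) ^ (p / 2) % p).beq 1 then 0 else 1 := by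
  have h1 := ZMod.euler_criterion p hr
  have h2 : (((r : ℕ) : ZMod p) ^ (p / 2) = 1) ↔ ((r % p) ^ (p / 2) % p).beq 1 = true := by
    rw [Nat.beq_eq]
    have h3 : ((r : ℕ) : ZMod p) ^ (p / 2) = (((r % p) ^ (p / 2) % p : ℕ) : ZMod p) := by
      rw [ZMod.natCast_mod]
      push_cast
      rw [ZMod.natCast_mod]
    rw [h3]
    have h4 : (r % p) ^ (p / 2) % p < p := Nat.mod_lt _ hp.out.pos
    constructor
    · intro h5
      have h6 : (((r % p) ^ (p / 2) % p : ℕ) : ZMod p) = ((1 : ℕ) : ZMod p) := by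
        rw [h5, Nat.cast_one]
      rw [ZMod.natCast_eq_natCast_iff'] at h6
      rw [Nat.mod_eq_of_lt h4, Nat.mod_eq_of_lt hp.out.one_lt] at h6
      exact h6
    · intro h5
      rw [h5, Nat.cast_one]
  unfold chi
  by_cases h : IsSquare ((r : ℕ) : ZMod p)
  · rw [if_pos h, if_pos (h2.1 (h1.1 h))]
  · rw [if_neg h, if_neg (fun h3 => h (h1.2 (h2.2 h3)))]

lemma bitR_eq {π : Par} (hπ : π.Ok X p) {x y z : ℕ} {i : Fin 7}
    (h : bitR p π.g (π.line x y z i) (π.cubic x y z i) < 2) :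
    res X (x : ZMod p) y z i ≠ 0 ∧
      chi (res X (x : ZMod p) y z i) = (bitR p π.g (π.line x y z i) (π.cubic x y z i) : ZMod 2) := by
  have hg := hπ.cast.1
  have h0 : ∀ r : ℕ, ((r : ℕ) : ZMod p) = 0 ↔ (r % p).beq 0 = true := by
    intro r
    rw [Nat.beq_eq, ZMod.natCast_eq_zero_iff, Nat.dvd_iff_mod_eq_zero]
  unfold bitR at h ⊢
  by_cases h1 : ((π.line x y z i) % p).beq 0 = true
  · rw [if_pos h1] at h ⊢
    have h2 : X.line (x : ZMod p) y z i = 0 := by rw [← hπ.line]; exact (h0 _).2 h1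
    by_cases h3 : ((π.cubic x y z i) % p).beq 0 = true
    · rw [if_pos h3] at h
      exact absurd h (lt_irrefl 2)
    · rw [if_neg h3]
      have h4 : - X.cubic (x : ZMod p) y z i = ((π.g * π.cubic x y z i : ℕ) : ZMod p) := by
        push_cast
        rw [hπ.cubic, hg, neg_one_mul]
      have h5 : X.cubic (x : ZMod p) y z i ≠ 0 := by
        rw [← hπ.cubic]
        exact fun h6 => h3 ((h0 _).1 h6)
      have h6 : res X (x : ZMod p) y z i = - X.cubic (x : ZMod p) y z i := if_pos h2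
      have h7 : res X (x : ZMod p) y z i ≠ 0 := by rw [h6]; exact neg_ne_zero.2 h5
      refine ⟨h7, ?_⟩
      rw [h6, h4] at h7 ⊢
      rw [chi_eq h7]
      split_ifs <;> simp
  · rw [if_neg h1]
    have h2 : X.line (x : ZMod p) y z i ≠ 0 := by
      rw [← hπ.line]
      exact fun h3 => h1 ((h0 _).1 h3)
    have h6 : res X (x : ZMod p) y z i = X.line (x : ZMod p) y z i := if_neg h2
    rw [h6]
    refine ⟨h2, ?_⟩
    rw [← hπ.line] at h2 ⊢
    rw [chi_eq h2]
    split_ifs <;> simp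

/-- the quartic form vanishes modulo a ramified prime -/
lemma form_ram {e : ℤ} (hd : X.d = p * e) (he : ¬ (p : ℤ) ∣ e) {P : X.Point ℚ_[p]}
    {x y z : ℤ_[p]} (hx : P.x = x) (hy : P.y = y) (hz : P.z = z) :
    PadicInt.toZMod (X.form x y z) = 0 := by
  rw [toZMod_eq_zero]
  have h1 : ‖X.form x y z‖ = ‖(X.d : ℚ_[p]) * P.w ^ 2‖ := by
    rw [P.eq, hx, hy, hz, ← coe_form]
    rfl
  have he1 : ‖((e : ℤ) : ℚ_[p])‖ = 1 := by
    have h2 : ‖((e : ℤ) : ℤ_[p])‖ = 1 := by
      rw [← toZMod_ne_zero, map_intCast, Ne, ZMod.intCast_zmod_eq_zero_iff_dvd]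
      exact he
    exact h2
  refine lt_of_le_of_ne (PadicInt.norm_le_one _) ?_
  rw [h1, hd]
  push_cast
  rw [norm_mul, norm_mul, he1, mul_one, norm_pow, Padic.norm_p]
  intro h2
  have hw : P.w ≠ 0 := by
    intro h3
    rw [h3, norm_zero] at h2
    norm_num at h2
  rw [Padic.norm_eq_zpow_neg_valuation hw, ← zpow_natCast, ← zpow_mul, ← zpow_neg_one,
    ← zpow_add₀ (by exact_mod_cast hp.out.ne_zero)] at h2
  have h10 : (1 : ℝ) < p := by exact_mod_cast hp.out.one_lt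
  have h11 := zpow_right_injective₀ (by linarith) h10.ne' (h2.trans (zpow_zero (p : ℝ)).symm)
  push_cast at h11
  omega

theorem ramOne_sound {π : Par} {M : ℕ} {e : ℤ} (hp2 : p ≠ 2) (hd : X.d = p * e)
    (he : ¬ (p : ℤ) ∣ e) (hπ : π.Ok X p) {P : X.Point ℚ_[p]}
    {x y z : ℤ_[p]} (hx : P.x = x) (hy : P.y = y) (hz : P.z = z) {x' y' z' : ℕ}
    (hx' : PadicInt.toZMod x = (x' : ZMod p)) (hy' : PadicInt.toZMod y = (y' : ZMod p))
    (hz' : PadicInt.toZMod z = (z' : ZMod p)) (h : ramOne π p M x' y' z' = true) :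
    ∃ c, c < 64 ∧ M.testBit c = true ∧ HasVec P (vec c) := by
  unfold ramOne at h
  have h1 : (π.form x' y' z' % p).beq 0 = true := by
    rw [Nat.beq_eq, ← Nat.dvd_iff_mod_eq_zero, ← ZMod.natCast_eq_zero_iff, hπ.form, ← hx', ← hy',
      ← hz', ← map_form]
    exact form_ram hd he hx hy hz
  rw [if_pos h1] at h
  obtain ⟨h2, c, hc, hM, hv⟩ := Par.test_sound h
  refine ⟨c, hc, hM, ?_⟩
  have h3 : HasVec P (fun i => chi (res X (PadicInt.toZMod x) (PadicInt.toZMod y)
      (PadicInt.toZMod z) i)) := by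
    refine hasVec_ram hp2 hd he hx hy hz fun i => ?_
    rw [hx', hy', hz']
    exact (bitR_eq hπ (h2 i)).1
  intro E hE
  rw [h3 E hE, ← hv E hE]
  refine Finset.sum_congr rfl fun i _ => ?_
  rw [hx', hy', hz']
  exact (bitR_eq hπ (h2 i)).2

theorem ramCheck_sound {π : Par} {M : ℕ} {e : ℤ} (hp2 : p ≠ 2) (hd : X.d = p * e)
    (he : ¬ (p : ℤ) ∣ e) (hπ : π.Ok X p) (h : ramCheck π p M = true) (P : X.Point ℚ_[p]) :
    ∃ c, c < 64 ∧ M.testBit c = true ∧ HasVec P (vec c) := by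
  obtain ⟨P', x, y, z, hP, hx, hy, hz, hprim⟩ := normalize P
  have key : (∃ c, c < 64 ∧ M.testBit c = true ∧ HasVec P' (vec c)) →
      ∃ c, c < 64 ∧ M.testBit c = true ∧ HasVec P (vec c) := by
    rintro ⟨c, h1, h2, h3⟩
    exact ⟨c, h1, h2, hP _ h3⟩
  apply key
  simp only [ramCheck, Bool.and_eq_true, List.all_eq_true, List.mem_range] at h
  obtain ⟨⟨h1, h2⟩, h3⟩ := h
  have hval : ∀ t : ZMod p, t.val < p ∧ t = ((t.val : ℕ) : ZMod p) := fun t =>
    ⟨ZMod.val_lt t, (ZMod.natCast_zmod_val t).symm⟩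
  rcases hprim with hz1 | ⟨hy1, hz1⟩ | ⟨hx1, hy1, hz1⟩
  · exact ramOne_sound hp2 hd he hπ hx hy hz (hval _).2 (hval _).2
      (by rw [hz1, map_one, Nat.cast_one]) (h1 _ (hval _).1 _ (hval _).1)
  · exact ramOne_sound hp2 hd he hπ hx hy hz (hval _).2
      (by rw [hy1, map_one, Nat.cast_one]) (by rw [toZMod_eq_zero.2 hz1, Nat.cast_zero])
      (h2 _ (hval _).1)
  · exact ramOne_sound hp2 hd he hπ hx hy hz
      (by rw [hx1, map_one, Nat.cast_one]) (by rw [toZMod_eq_zero.2 hy1, Nat.cast_zero])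
      (by rw [toZMod_eq_zero.2 hz1, Nat.cast_zero]) h3

end Pool.Agent.H437.DP
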