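import Pool.Agent.H437.DP.Wit

/-!
# Double planes: the sum of the local invariants
-/

set_option autoImplicit false

namespace Pool.Agent.H437.DP

open Surface

variable {X : Surface}

/-- the set of the vectors of the local invariants at `p` -/
structure Image (X : Surface) (p : Nat.Primes) (M : ℕ) : Prop where
  upper : ∀ P : X.Point ℚ_[(p : ℕ)], ∃ c, c < 64 ∧ M.testBit c = true ∧ HasVec P (vec c)
  lower : ∀ c, c < 64 → M.testBit c = true → ∃ P : X.Point ℚ_[(p : ℕ)], HasVec P (vec c)

/-- the set of the vectors of the sums of the local invariants over a finite set of primes -/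
structure Total (X : Surface) (S : Finset Nat.Primes) (T : ℕ) : Prop where
  upper : ∀ P : (∀ p : Nat.Primes, X.Point ℚ_[(p : ℕ)]), ∃ t, t < 64 ∧ T.testBit t = true ∧
    ∀ E : Finset (Fin 7), Even E.card → ∑ p ∈ S, (P p).invariant E = ∑ i ∈ E, vec t i
  lower : ∀ t, t < 64 → T.testBit t = true → ∃ P : (∀ p : Nat.Primes, X.Point ℚ_[(p : ℕ)]),
    ∀ E : Finset (Fin 7), Even E.card → ∑ p ∈ S, (P p).invariant E = ∑ i ∈ E, vec t i

/-- `T'` is the set of the sums of elements of `M` and `T` -/
def conv (M T T' : ℕ) : Bool :=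
  ((List.range 64).all fun a => !M.testBit a ||
    (List.range 64).all fun b => !T.testBit b || T'.testBit (a ^^^ b)) &&
  (List.range 64).all fun t => !T'.testBit t ||
    (List.range 64).any fun a => M.testBit a && T.testBit (a ^^^ t)

theorem total_empty (hne : ∀ p : Nat.Primes, Nonempty (X.Point ℚ_[(p : ℕ)])) : Total X ∅ 1 := by
  constructor
  · intro P
    refine ⟨0, by norm_num, rfl, fun E _ => ?_⟩
    rw [vec_zero]
    simp
  · intro t _ h
    have h1 : t = 0 := testBit_pow (c := 0) h
    subst h1
    refine ⟨fun p => (hne p).some, fun E _ => ?_⟩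
    rw [vec_zero]
    simp

theorem total_insert {S : Finset Nat.Primes} {T M T' : ℕ} {p : Nat.Primes} (hp : p ∉ S)
    (hM : Image X p M) (hT : Total X S T) (hc : conv M T T' = true) :
    Total X (insert p S) T' := by
  classical
  simp only [conv, Bool.and_eq_true, List.all_eq_true, List.mem_range, Bool.or_eq_true,
    Bool.not_eq_true', List.any_eq_true] at hc
  obtain ⟨h1, h2⟩ := hc
  constructor
  · intro P
    obtain ⟨a, ha, ha1, ha2⟩ := hM.upper (P p)
    obtain ⟨b, hb, hb1, hb2⟩ := hT.upper P
    refine ⟨a ^^^ b, Nat.xor_lt_two_pow (n := 6) ha hb, ?_, fun E hE => ?_⟩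
    · rcases h1 a ha with h3 | h3
      · rw [ha1] at h3; cases h3
      · rcases h3 b hb with h4 | h4
        · rw [hb1] at h4; cases h4
        · exact h4
    · rw [Finset.sum_insert hp, hb2 E hE, ha2 E hE, vec_xor, ← Finset.sum_add_distrib]
      rfl
  · intro t ht ht1
    rcases h2 t ht with h3 | ⟨a, ha, ha1, hb1⟩
    · rw [ht1] at h3; cases h3
    · obtain ⟨Q, hQ⟩ := hM.lower a ha ha1
      obtain ⟨P, hP⟩ := hT.lower (a ^^^ t) (Nat.xor_lt_two_pow (n := 6) ha ht) hb1
      refine ⟨Function.update P p Q, fun E hE => ?_⟩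
      rw [Finset.sum_insert hp, Function.update_self, hQ E hE]
      have h3 : ∑ q ∈ S, (Function.update P p Q q).invariant E = ∑ q ∈ S, (P q).invariant E := by
        refine Finset.sum_congr rfl fun q hq => ?_
        rw [Function.update_of_ne]
        rintro rfl
        exact hp hq
      rw [h3, hP E hE, ← Finset.sum_add_distrib]
      refine Finset.sum_congr rfl fun i _ => ?_
      rw [vec_xor, Pi.add_apply, ← add_assoc, CharTwo.add_self_eq_zero, zero_add]

/-- the codes that are orthogonal to all classes in `B` -/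
def orth (B : Finset BrauerClass) : Finset ℕ :=
  (Finset.range 64).filter fun t => ∀ E ∈ B, ∑ i ∈ E.1, vec t i = 0

lemma orth_xor {B : Finset BrauerClass} {a b : ℕ} (ha : a ∈ orth B) (hb : b ∈ orth B) :
    a ^^^ b ∈ orth B := by
  simp only [orth, Finset.mem_filter, Finset.mem_range] at ha hb ⊢
  refine ⟨Nat.xor_lt_two_pow (n := 6) ha.1 hb.1, fun E hE => ?_⟩
  rw [vec_xor]
  simp only [Pi.add_apply]
  rw [Finset.sum_add_distrib, ha.2 E hE, hb.2 E hE, add_zero]

theorem orth_card (B : Finset BrauerClass) : 64 ≤ (orth B).card * 2 ^ B.card := by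
  classical
  induction B using Finset.induction_on with
  | empty => simp [orth]
  | insert E B hE ih =>
    rw [Finset.card_insert_of_notMem hE, pow_succ]
    have h1 : orth (insert E B) = (orth B).filter fun t => ∑ i ∈ E.1, vec t i = 0 := by
      ext t
      simp only [orth, Finset.mem_filter, Finset.mem_range, Finset.mem_insert, forall_eq_or_imp]
      tauto
    have h2 := Finset.card_filter_add_card_filter_not (s := orth B)
      (fun t => ∑ i ∈ E.1, vec t i = 0)
    have h3 : ((orth B).filter fun t => ¬ ∑ i ∈ E.1, vec t i = 0).card ≤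
        ((orth B).filter fun t => ∑ i ∈ E.1, vec t i = 0).card := by
      rcases ((orth B).filter fun t => ¬ ∑ i ∈ E.1, vec t i = 0).eq_empty_or_nonempty with h4 | ⟨x, hx⟩
      · rw [h4]
        simp
      · refine Finset.card_le_card_of_injOn (fun t => t ^^^ x) ?_ ?_
        · intro t ht
          rw [Finset.mem_coe, Finset.mem_filter] at ht ⊢
          rw [Finset.mem_filter] at hx
          refine ⟨orth_xor ht.1 hx.1, ?_⟩
          rw [vec_xor]
          simp only [Pi.add_apply]
          rw [Finset.sum_add_distrib]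
          have h5 : ∀ a b : ZMod 2, a ≠ 0 → b ≠ 0 → a + b = 0 := by decide
          exact h5 _ _ ht.2 hx.2
        · intro a _ b _ hab
          exact Nat.xor_left_inj.1 hab
    rw [h1]
    calc 64 ≤ (orth B).card * 2 ^ B.card := ih
      _ ≤ (((orth B).filter fun t => ∑ i ∈ E.1, vec t i = 0).card * 2) * 2 ^ B.card :=
          Nat.mul_le_mul_right _ (by omega)
      _ = _ := by ring

/-- the number of the codes `y` outside `T` such that `x + y` is outside `T` -/
def pairs (T x : ℕ) : ℕ := (List.range 64).countP fun y => !T.testBit y && !T.testBit (x ^^^ y)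

/-- the check for the lower bound -/
def lowCheck (T r : ℕ) : Bool :=
  ((List.range 64).countP fun x => !T.testBit x && !(pairs T x).blt (2 ^ (7 - r))).blt (2 ^ (7 - r))

lemma countP_eq (f : ℕ → Bool) :
    (List.range 64).countP f = ((Finset.range 64).filter fun y => f y = true).card := by
  rw [List.countP_eq_length_filter, Finset.card_def]
  have h7 : ((Finset.range 64).filter fun y => f y = true).val =
      (((List.range 64).filter f : List ℕ) : Multiset ℕ) := by
    rw [Finset.filter_val, Finset.range_val, ← Multiset.coe_range, Multiset.filter_coe]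
    congr 2
    funext y
    simp
  rw [h7, Multiset.coe_card]

theorem low_sound {T r : ℕ} (h : lowCheck T r = true) {B : Finset BrauerClass}
    (hB : B.card < r) (hr : r ≤ 6) : ∃ t ∈ orth B, T.testBit t = true := by
  classical
  by_contra hcon
  push Not at hcon
  have h1 := orth_card B
  have h2 : 2 ^ (7 - r) ≤ (orth B).card := by
    have h3 : 2 ^ (7 - r) * 2 ^ B.card ≤ (orth B).card * 2 ^ B.card := by
      refine le_trans ?_ h1
      rw [← pow_add]
      exact Nat.pow_le_pow_right (n := 2) (by norm_num) (by omega : 7 - r + B.card ≤ 6)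
    exact Nat.le_of_mul_le_mul_right h3 (by positivity)
  have h64 : ∀ x ∈ orth B, x < 64 := by
    intro x hx
    simp only [orth, Finset.mem_filter, Finset.mem_range] at hx
    exact hx.1
  rw [lowCheck, Nat.blt_eq, countP_eq] at h
  obtain ⟨x, hx, hx1⟩ : ∃ x ∈ orth B, x ∉ (Finset.range 64).filter fun y =>
      (!T.testBit y && !(pairs T y).blt (2 ^ (7 - r))) = true := by
    by_contra h3
    push Not at h3
    exact absurd (lt_of_lt_of_le h h2) (not_lt.2 (Finset.card_le_card fun x hx => h3 x hx))
  have h3 : (pairs T x).blt (2 ^ (7 - r)) = true := by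
    by_contra h4
    apply hx1
    rw [Finset.mem_filter, Finset.mem_range, Bool.and_eq_true, Bool.not_eq_true', Bool.not_eq_true']
    exact ⟨h64 x hx, by simpa using hcon x hx, Bool.not_eq_true _ ▸ h4⟩
  rw [Nat.blt_eq, pairs, countP_eq] at h3
  refine absurd (lt_of_lt_of_le h3 h2) (not_lt.2 (Finset.card_le_card fun y hy => ?_))
  rw [Finset.mem_filter, Finset.mem_range, Bool.and_eq_true, Bool.not_eq_true', Bool.not_eq_true']
  exact ⟨h64 y hy, by simpa using hcon y hy, by simpa using hcon _ (orth_xor hx hy)⟩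

/-- the class of a set with a given bit mask -/
def ofMask (e : ℕ) : BrauerClass :=
  if h : Even ((Finset.univ : Finset (Fin 7)).filter fun i => e.testBit i.val = true).card then
    ⟨_, h⟩ else ⟨∅, by simp⟩

/-- the check for the upper bound -/
def upCheck (T : ℕ) (es : List ℕ) : Bool :=
  (List.range 64).all fun t => !T.testBit t ||
    es.any fun e => decide (∑ i ∈ (ofMask e).1, vec t i ≠ 0)

theorem almostTrivial_of {S : Finset Nat.Primes}
    (hS : ∀ p : Nat.Primes, p ∉ S → ∀ P : X.Point ℚ_[(p : ℕ)], HasVec P 0) : X.AlmostTrivial :=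
  ⟨S, fun p hp P E => (hS p hp P E.1 E.2).trans (by simp)⟩

theorem pairing_eq {S : Finset Nat.Primes} (hd : 0 < X.d)
    (hS : ∀ p : Nat.Primes, p ∉ S → ∀ P : X.Point ℚ_[(p : ℕ)], HasVec P 0) (P : X.AdelicPoint)
    (E : BrauerClass) : P.pairing E = ∑ p ∈ S, (P.finite p).invariant E.1 := by
  have h1 : P.real.invariant E.1 = 0 := by
    have h2 : HasVec P.real 0 := hasVec_split (by exact_mod_cast hd.ne') ⟨√(X.d : ℝ), by
      rw [Real.mul_self_sqrt]; exact_mod_cast hd.le⟩ _
    rw [h2 E.1 E.2]
    simp
  rw [AdelicPoint.pairing, h1, add_zero]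
  refine finsum_eq_sum_of_support_subset _ fun p hp => ?_
  by_contra h3
  refine hp ?_
  have h4 := hS p (by simpa using h3) (P.finite p) E.1 E.2
  exact h4.trans (by simp)

theorem requires_of {S : Finset Nat.Primes} {T r : ℕ} {es : List ℕ} (hd : 0 < X.d)
    (hne : ∀ p : Nat.Primes, Nonempty (X.Point ℚ_[(p : ℕ)]))
    (hS : ∀ p : Nat.Primes, p ∉ S → ∀ P : X.Point ℚ_[(p : ℕ)], HasVec P 0) (hT : Total X S T)
    (hr : r ≤ 6) (hlow : lowCheck T r = true) (hup : upCheck T es = true)
    (hes : (es.map ofMask).toFinset.card = r) : X.Requires r := by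
  classical
  have hreal : Nonempty (X.Point ℝ) := exists_point_split hd.ne' ⟨√(X.d : ℝ), by
      rw [Real.mul_self_sqrt]; exact_mod_cast hd.le⟩
  refine ⟨⟨⟨fun p => (hne p).some, hreal.some⟩⟩, ⟨(es.map ofMask).toFinset, hes, ?_⟩, ?_⟩
  · intro P
    obtain ⟨t, ht, ht1, ht2⟩ := hT.upper P.finite
    simp only [upCheck, List.all_eq_true, List.mem_range, Bool.or_eq_true, Bool.not_eq_true',
      List.any_eq_true, decide_eq_true_eq] at hup
    rcases hup t ht with h1 | ⟨e, he, he1⟩
    · rw [ht1] at h1; cases h1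
    · refine ⟨ofMask e, ?_, ?_⟩
      · rw [List.mem_toFinset, List.mem_map]
        exact ⟨e, he, rfl⟩
      · rw [pairing_eq hd hS, ht2 _ (ofMask e).2]
        exact he1
  · rintro s ⟨B, hB, hobs⟩
    by_contra h1
    rw [not_le, ← hB] at h1
    obtain ⟨t, ht, ht1⟩ := low_sound hlow h1 hr
    simp only [orth, Finset.mem_filter, Finset.mem_range] at ht
    obtain ⟨P, hP⟩ := hT.lower t ht.1 ht1
    obtain ⟨E, hE, hE1⟩ := hobs ⟨P, hreal.some⟩
    apply hE1
    rw [pairing_eq hd hS, hP _ E.2]
    exact ht.2 E hE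

end Pool.Agent.H437.DP
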