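import Pool.Agent.H437.DP.Ram
import Pool.Agent.H437.DP.Inert

/-!
# Double planes: local points with given invariants
-/

set_option autoImplicit false

namespace Pool.Agent.H437.DP

open Surface

variable {X : Surface}

/-- a unit square -/
def unitSq (p : ℕ) (u : ℤ) : Bool :=
  if p.beq 2 then (u % 8).toNat.beq 1 else ((u % p).toNat ^ (p / 2) % p).beq 1

/-- the value of the quartic form is `d` times a square -/
def sqCheck (X : Surface) (p : ℕ) (x y z h : ℕ) : Bool :=
  (X.form (x : ℤ) y z * X.d % (h : ℤ) ^ 2 == 0) && unitSq p (X.form (x : ℤ) y z * X.d / (h : ℤ) ^ 2)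

/-- a list of local points: code, coordinates and the square root of the square part -/
abbrev Wits : Type := List (ℕ × ℕ × ℕ × ℕ × ℕ)

/-- the check of the local points at a ramified prime -/
def ramWit (X : Surface) (π : Par) (p M : ℕ) (L : Wits) : Bool :=
  (List.range 64).all fun c => !M.testBit c || L.any fun t => t.1.beq c &&
    (!(t.2.1.beq 0 && t.2.2.1.beq 0 && t.2.2.2.1.beq 0) &&
      sqCheck X p t.2.1 t.2.2.1 t.2.2.2.1 t.2.2.2.2 &&
      π.test (bitR p π.g) (2 ^ c) t.2.1 t.2.2.1 t.2.2.2.1)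

/-- the check of the local points at an inert prime -/
def inertWit (X : Surface) (π : Par) (p k M : ℕ) (L : Wits) : Bool :=
  (List.range 64).all fun c => !M.testBit c || L.any fun t => t.1.beq c &&
    (!(t.2.1.beq 0 && t.2.2.1.beq 0 && t.2.2.2.1.beq 0) &&
      sqCheck X p t.2.1 t.2.2.1 t.2.2.2.1 t.2.2.2.2 &&
      π.test (bitI p k) (2 ^ c) t.2.1 t.2.2.1 t.2.2.2.1)

variable {p : ℕ} [hp : Fact p.Prime]

lemma unitSq_sound {u : ℤ} (h : unitSq p u = true) : IsSquare (u : ℚ_[p]) := by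
  unfold unitSq at h
  by_cases h2 : p = 2
  · subst h2
    rw [if_pos (by rfl), Nat.beq_eq] at h
    exact isSquare_int_two (by omega)
  · rw [if_neg (by rwa [Nat.beq_eq]), Nat.beq_eq] at h
    have hpos : (0 : ℤ) < p := by exact_mod_cast hp.out.pos
    have h3 : (((u % p).toNat : ℕ) : ZMod p) = (u : ZMod p) := by
      have h4 : (((u % p).toNat : ℕ) : ℤ) = u % p := Int.toNat_of_nonneg (Int.emod_nonneg _ hpos.ne')
      have h5 : ((((u % p).toNat : ℕ) : ℤ) : ZMod p) = (u : ZMod p) := by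
        rw [h4]
        exact (ZMod.intCast_mod u p)
      rwa [Int.cast_natCast] at h5
    have h4 : (u : ZMod p) ^ (p / 2) = 1 := by
      rw [← h3]
      have h5 : (((u % p).toNat ^ (p / 2) % p : ℕ) : ZMod p) = ((1 : ℕ) : ZMod p) := by rw [h]
      rw [ZMod.natCast_mod] at h5
      push_cast at h5
      rw [h3] at h5 ⊢
      exact h5
    have hu : (u : ZMod p) ≠ 0 := by
      intro h5
      rw [h5, zero_pow] at h4
      · exact zero_ne_one h4
      · have := hp.out.two_le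
        omega
    refine isSquare_int_odd h2 ?_ ((ZMod.euler_criterion p hu).2 h4)
    rwa [← ZMod.intCast_zmod_eq_zero_iff_dvd]

lemma exists_point_of {x y z h : ℕ} (hd : X.d ≠ 0)
    (hne : ¬ (x = 0 ∧ y = 0 ∧ z = 0)) (hs : sqCheck X p x y z h = true) :
    ∃ P : X.Point ℚ_[p], P.x = ((x : ℤ_[p]) : ℚ_[p]) ∧ P.y = ((y : ℤ_[p]) : ℚ_[p]) ∧
      P.z = ((z : ℤ_[p]) : ℚ_[p]) := by
  simp only [sqCheck, Bool.and_eq_true, beq_iff_eq] at hs
  obtain ⟨h1, h2⟩ := hs
  obtain ⟨c, hc⟩ := unitSq_sound h2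
  have h3 : X.form (x : ℤ) y z * X.d = (h : ℤ) ^ 2 * (X.form (x : ℤ) y z * X.d / (h : ℤ) ^ 2) :=
    (Int.mul_ediv_cancel' (Int.dvd_of_emod_eq_zero h1)).symm
  set u := X.form (x : ℤ) y z * X.d / (h : ℤ) ^ 2 with hu
  have hd' : (X.d : ℚ_[p]) ≠ 0 := by exact_mod_cast hd
  have h4 : X.form (x : ℚ_[p]) y z = ((X.form (x : ℤ) y z : ℤ) : ℚ_[p]) := by
    have := map_form (X := X) (Int.castRingHom ℚ_[p]) (x : ℤ) y z
    simpa using this.symm
  refine ⟨⟨(x : ℤ_[p]), (y : ℤ_[p]), (z : ℤ_[p]), h * c / X.d, ?_, ?_⟩, rfl, rfl, rfl⟩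
  · rintro ⟨e1, e2, e3⟩
    apply hne
    push_cast at e1 e2 e3
    exact ⟨by exact_mod_cast e1, by exact_mod_cast e2, by exact_mod_cast e3⟩
  · push_cast
    rw [h4]
    have h5 : ((X.form (x : ℤ) y z : ℤ) : ℚ_[p]) * X.d = (h : ℚ_[p]) ^ 2 * (c * c) := by
      rw [← hc]
      exact_mod_cast congrArg (Int.cast : ℤ → ℚ_[p]) h3
    field_simp
    linear_combination -h5

lemma testBit_pow {c c' : ℕ} (h : (2 ^ c).testBit c' = true) : c' = c := by
  rw [Nat.testBit_two_pow] at h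
  exact (of_decide_eq_true h).symm

theorem ramWit_sound {π : Par} {M : ℕ} {L : Wits} {e : ℤ} (hp2 : p ≠ 2) (hd : X.d = p * e)
    (he : ¬ (p : ℤ) ∣ e) (hπ : π.Ok X p) (h : ramWit X π p M L = true) {c : ℕ} (hc : c < 64)
    (hM : M.testBit c = true) : ∃ P : X.Point ℚ_[p], HasVec P (vec c) := by
  simp only [ramWit, List.all_eq_true, List.mem_range, Bool.or_eq_true, Bool.not_eq_true',
    List.any_eq_true, Bool.and_eq_true] at h
  have hd0 : X.d ≠ 0 := by
    intro h0
    rw [h0] at hd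
    rcases mul_eq_zero.1 hd.symm with h1 | h1
    · exact hp.out.ne_zero (by exact_mod_cast h1)
    · exact he (h1 ▸ dvd_zero _)
  rcases h c hc with h1 | ⟨t, -, h2, ⟨h4, h5⟩, h6⟩
  · rw [hM] at h1
    cases h1
  · obtain ⟨P, hx, hy, hz⟩ := exists_point_of hd0 (by
      rintro ⟨e1, e2, e3⟩
      rw [e1, e2, e3] at h4
      simp at h4) h5
    refine ⟨P, ?_⟩
    obtain ⟨c', -, hc', hv⟩ := ramOne_sound (M := 2 ^ c) hp2 hd he hπ hx hy hz (map_natCast _ _)
      (map_natCast _ _) (map_natCast _ _) (by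
        unfold ramOne
        split_ifs
        · exact h6
        · rfl)
    rw [testBit_pow hc'] at hv
    exact hv

theorem inertWit_sound {π : Par} {M k : ℕ} {L : Wits} (hI : Inert p X.d)
    (hπ : π.Ok X (p ^ k)) (h : inertWit X π p k M L = true) {c : ℕ} (hc : c < 64)
    (hM : M.testBit c = true) : ∃ P : X.Point ℚ_[p], HasVec P (vec c) := by
  simp only [inertWit, List.all_eq_true, List.mem_range, Bool.or_eq_true, Bool.not_eq_true',
    List.any_eq_true, Bool.and_eq_true] at h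
  have hd0 : X.d ≠ 0 := by
    intro h0
    have := hI.norm
    rw [h0] at this
    simp at this
  rcases h c hc with h1 | ⟨t, -, h2, ⟨h4, h5⟩, h6⟩
  · rw [hM] at h1
    cases h1
  · obtain ⟨P, hx, hy, hz⟩ := exists_point_of hd0 (by
      rintro ⟨e1, e2, e3⟩
      rw [e1, e2, e3] at h4
      simp at h4) h5
    refine ⟨P, ?_⟩
    obtain ⟨c', -, hc', hv⟩ := test_inert (M := 2 ^ c) hI hπ hx hy hz (map_natCast _ _)
      (map_natCast _ _) (map_natCast _ _) h6
    rw [testBit_pow hc'] at hv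
    exact hv

end Pool.Agent.H437.DP
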